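import Pool.Agent.Lib.MP_0da313_nt.PD.PairSum

set_option autoImplicit false

/-!
The second moment argument.
-/

open Finset Polynomial Filter

namespace Pool.Agent.PD

open Pool.Agent.MP89da58 Pool.Agent.Lib.MP_0da313_nt Pool.Agent.MT

/-- Cauchy's inequality for the number of representations -/
lemma second_moment (K SS : Finset ℕ) (g : ℕ → ℕ → Prop) [∀ s, DecidablePred (g s)]
    [DecidablePred fun k => ∃ s ∈ SS, g s k] :
    (∑ s ∈ SS, ((K.filter (g s)).card : ℝ)) ^ 2 ≤
      ((K.filter (fun k => ∃ s ∈ SS, g s k)).card : ℝ) *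
      (∑ s ∈ SS, ((K.filter (g s)).card : ℝ) +
        ∑ s ∈ SS, ∑ s' ∈ SS.erase s, ((K.filter (fun k => g s k ∧ g s' k)).card : ℝ)) := by
  set R : ℕ → ℝ := fun k => ∑ s ∈ SS, (if g s k then (1 : ℝ) else 0) with hR
  have h1 : ∑ s ∈ SS, ((K.filter (g s)).card : ℝ) = ∑ k ∈ K, R k := by
    rw [hR, Finset.sum_comm]
    apply Finset.sum_congr rfl
    intro s _
    rw [Finset.card_filter]
    push_cast
    rfl
  have h2 : ∑ k ∈ K, R k = ∑ k ∈ K.filter (fun k => ∃ s ∈ SS, g s k), R k := by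
    rw [Finset.sum_filter]
    apply Finset.sum_congr rfl
    intro k _
    split_ifs with h
    · rfl
    · apply Finset.sum_eq_zero
      intro s hs
      rw [if_neg (fun hg => h ⟨s, hs, hg⟩)]
  have h3 := sq_sum_le_card_mul_sum_sq (s := K.filter (fun k => ∃ s ∈ SS, g s k)) (f := R)
  have h4 : ∑ k ∈ K.filter (fun k => ∃ s ∈ SS, g s k), R k ^ 2 ≤ ∑ k ∈ K, R k ^ 2 :=
    Finset.sum_le_sum_of_subset_of_nonneg (Finset.filter_subset _ _) fun k _ _ => sq_nonneg _
  have h5 : ∑ k ∈ K, R k ^ 2 = ∑ s ∈ SS, ((K.filter (g s)).card : ℝ) +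
        ∑ s ∈ SS, ∑ s' ∈ SS.erase s, ((K.filter (fun k => g s k ∧ g s' k)).card : ℝ) := by
    have e1 : ∀ k ∈ K, R k ^ 2 = ∑ s ∈ SS, ∑ s' ∈ SS,
        (if g s k ∧ g s' k then (1 : ℝ) else 0) := by
      intro k _
      rw [hR, sq, Finset.sum_mul_sum]
      apply Finset.sum_congr rfl
      intro s _
      apply Finset.sum_congr rfl
      intro s' _
      by_cases g1 : g s k <;> by_cases g2 : g s' k <;> simp [g1, g2]
    rw [Finset.sum_congr rfl e1, Finset.sum_comm, ← Finset.sum_add_distrib]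
    apply Finset.sum_congr rfl
    intro s hs
    rw [Finset.sum_comm]
    have e2 : ∀ s' ∈ SS, ∑ k ∈ K, (if g s k ∧ g s' k then (1 : ℝ) else 0) =
        ((K.filter (fun k => g s k ∧ g s' k)).card : ℝ) := by
      intro s' _
      rw [Finset.card_filter]
      push_cast
      rfl
    rw [Finset.sum_congr rfl e2, ← Finset.add_sum_erase _ _ hs]
    simp only [and_self]
  rw [h1, h2]
  refine h3.trans ?_
  rw [← h2, ← h1, ← h5]
  exact mul_le_mul_of_nonneg_left h4 (Nat.cast_nonneg _)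

open Classical in
/-- the numbers `k` in `(N, 2N]` for which some admissible `s` gives a prime -/
noncomputable def Hit (a b c : ℤ[X]) (δ N S : ℕ) : Finset ℕ :=
  (Ioc N (2 * N)).filter (fun k => ∃ s ∈ SSet c δ S,
    (a.eval (s : ℤ) * k + b.eval (s : ℤ)).natAbs.Prime)

variable {a b c : ℤ[X]} {δ : ℕ}

lemma ev_N (C0 E : ℕ) (K : ℝ) : ∀ᶠ N : ℕ in atTop,
    1 ≤ Real.log N ∧ (Real.log N) ^ E ≤ (N : ℝ) ^ (1 / 256 : ℝ) ∧
    (Real.log N) ^ C0 + Real.sqrt (2 * N) < N ∧
    K * Real.sqrt (2 * N) * (Real.log N) ^ 4 ≤ N ∧ 16 ≤ N := by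
  have h1 : ∀ᶠ x : ℝ in atTop, (Real.log x) ^ E ≤ x ^ (1 / 256 : ℝ) := by
    have := isLittleO_log_rpow_rpow_atTop (E : ℝ) (show (0 : ℝ) < 1 / 256 by norm_num)
    have h3 := this.bound (show (0 : ℝ) < 1 by norm_num)
    filter_upwards [h3, eventually_ge_atTop (1 : ℝ)] with x hx hx1
    rw [Real.norm_of_nonneg (Real.rpow_nonneg (Real.log_nonneg hx1) _),
      Real.norm_of_nonneg (Real.rpow_nonneg (by linarith) _), Real.rpow_natCast] at hx
    linarith
  filter_upwards [ev_nat_real (Real.tendsto_log_atTop.eventually_ge_atTop 1), ev_nat_real h1,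
    ev_nat_real (ev_log_pow 1 C0), ev_nat_real (ev_log_pow (2 * |K|) 4), eventually_ge_atTop 16]
    with N g1 g2 g3 g4 g5
  have hN : (16 : ℝ) ≤ N := by exact_mod_cast g5
  have hs : (N : ℝ) ^ (1 / 2 : ℝ) = Real.sqrt N := (Real.sqrt_eq_rpow _).symm
  rw [hs] at g3 g4
  have hsq : Real.sqrt N * Real.sqrt N = N := Real.mul_self_sqrt (by linarith)
  have hs4 : 4 ≤ Real.sqrt N := by
    apply Real.le_sqrt_of_sq_le
    linarith
  have h2N : Real.sqrt (2 * N) ≤ 3 / 2 * Real.sqrt N := by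
    rw [Real.sqrt_le_left (by positivity), mul_pow, Real.sq_sqrt (by linarith)]
    linarith
  refine ⟨g1, g2, ?_, ?_, g5⟩
  · nlinarith only [g3, hN, hsq, h2N, hs4]
  · have h5 : 0 ≤ Real.log N ^ 4 := by positivity
    calc K * Real.sqrt (2 * N) * (Real.log N) ^ 4
        ≤ |K| * (2 * Real.sqrt N) * (Real.log N) ^ 4 := by
          gcongr
          · exact le_abs_self K
          · linarith
      _ = Real.sqrt N * (2 * |K| * (Real.log N) ^ 4) := by ring
      _ ≤ Real.sqrt N * Real.sqrt N := by gcongr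
      _ = N := hsq

theorem core (h : Dat a b c δ) (E : ℕ) : ∃ κ : ℝ, 0 < κ ∧ ∃ S0 : ℕ, ∀ᶠ N : ℕ in atTop, ∀ S : ℕ,
    S0 ≤ S → (S : ℝ) ≤ (Real.log N) ^ E →
    κ * N * min 1 (S / (Real.log N * (Real.log S) ^ δ)) ≤ ((Hit a b c δ N S).card : ℝ) := by
  classical
  obtain ⟨κ1, hκ1, hcard⟩ := card_SSet h
  obtain ⟨C1, hC1, hpair⟩ := pair_sum h
  obtain ⟨C, hC, hsieve⟩ := sieve_level 2 (by norm_num)
  obtain ⟨s1, hs1⟩ := exists_large_ne h.ha
  obtain ⟨A1, d1, hA1, hb1⟩ := poly_bound a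
  obtain ⟨A2, d2, hA2, hb2⟩ := poly_bound b
  obtain ⟨S1, hS1⟩ := Filter.eventually_atTop.1 hcard
  obtain ⟨S2, hS2⟩ := Filter.eventually_atTop.1 hpair
  set d := d1 + d2 with hd
  set A := (A1 + A2) * 2 ^ d with hA
  set C0 := E * d + 1 with hC0
  have hsieve2 : ∀ᶠ N : ℕ in atTop, _ :=
    (tendsto_id.const_mul_atTop' (show 0 < 2 by norm_num)).eventually hsieve
  set κ' : ℝ := κ1 / 4096 with hκ'
  have hκ'0 : 0 < κ' := by positivity
  set C2 : ℝ := 262144 * C1 + 1 with hC2
  have hC20 : 0 < C2 := by positivity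
  refine ⟨min (κ' / 2) (κ' ^ 2 / (2 * C2)), lt_min (by positivity) (by positivity),
    max (max S1 S2) (max s1 16), ?_⟩
  filter_upwards [first_moment C0, hsieve2, ev_N C0 E C,
    ev_nat_real (Real.tendsto_log_atTop.eventually_ge_atTop (A : ℝ))] with N hfm hsv hevN hAl S hS hSE
  obtain ⟨hl1, hlE, hlC0, hl4, hN16⟩ := hevN
  obtain ⟨z, hz2, hzN, hNz, hsv1⟩ := hsv
  simp only [id] at hzN hNz hsv1
  have hSS1 : S1 ≤ S := (le_max_left _ _).trans ((le_max_left _ _).trans hS)
  have hSS2 : S2 ≤ S := (le_max_right _ _).trans ((le_max_left _ _).trans hS)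
  have hSs1 : s1 ≤ S := (le_max_left _ _).trans ((le_max_right _ _).trans hS)
  have hS16 : 16 ≤ S := (le_max_right _ _).trans ((le_max_right _ _).trans hS)
  have hNR : (16 : ℝ) ≤ N := by exact_mod_cast hN16
  have hSR : (16 : ℝ) ≤ S := by exact_mod_cast hS16
  set L := Real.log N with hL
  have hL0 : 0 < L := by linarith only [hl1]
  set l := Real.log S with hl
  have hl0 : 1 ≤ l := by
    rw [hl, Real.le_log_iff_exp_le (by linarith only [hSR])]
    have := Real.exp_one_lt_d9
    linarith only [hSR, this]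
  have hδ := h.δ_le
  -- the pencil has small coefficients
  have hmS : ∀ s ∈ SSet c δ S, S < s ∧ s ≤ 2 * S := by
    intro s hs
    unfold SSet at hs
    rw [Finset.mem_filter, Finset.mem_Ioc] at hs
    exact hs.1
  have hcoef : ∀ s ∈ SSet c δ S, |((a.eval (s : ℤ) : ℤ) : ℝ)| ≤ L ^ C0 ∧
      |((b.eval (s : ℤ) : ℤ) : ℝ)| ≤ L ^ C0 := by
    intro s hs
    obtain ⟨g1, g2⟩ := hmS s hs
    have key : ∀ (G : ℤ[X]) (A' d' : ℕ), A' ≤ A1 + A2 → d' ≤ d →
        (G.eval (s : ℤ)).natAbs ≤ A' * s ^ d' → |((G.eval (s : ℤ) : ℤ) : ℝ)| ≤ L ^ C0 := by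
      intro G A' d' hA' hd' hG
      have e1 : (G.eval (s : ℤ)).natAbs ≤ A * S ^ d := by
        calc (G.eval (s : ℤ)).natAbs ≤ A' * s ^ d' := hG
          _ ≤ (A1 + A2) * (2 * S) ^ d := by
            apply Nat.mul_le_mul hA'
            exact (Nat.pow_le_pow_left g2 d').trans (Nat.pow_le_pow_right (by omega) hd')
          _ = A * S ^ d := by rw [hA, mul_pow]; ring
      have e2 : |((G.eval (s : ℤ) : ℤ) : ℝ)| ≤ A * (S : ℝ) ^ d := by
        rw [← Int.cast_abs, ← Nat.cast_natAbs]
        exact_mod_cast e1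
      refine e2.trans ?_
      calc (A : ℝ) * (S : ℝ) ^ d ≤ L * (L ^ E) ^ d := by (clear * - hAl hS16 hSE hl1; gcongr)
        _ = L ^ C0 := by rw [hC0, ← pow_mul, pow_succ]; ring
    exact ⟨key a A1 d1 (by omega) (by omega) (hb1 s (by omega)),
      key b A2 d2 (by omega) (by omega) (hb2 s (by omega))⟩
  -- the predicate
  set g : ℕ → ℕ → Prop := fun s k => (a.eval (s : ℤ) * k + b.eval (s : ℤ)).natAbs.Prime with hg
  set K : Finset ℕ := Ioc N (2 * N) with hK
  have hHit : Hit a b c δ N S = K.filter (fun k => ∃ s ∈ SSet c δ S, g s k) := by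
    unfold Hit
    ext k
    rw [Finset.mem_filter]
  have hcs := second_moment K (SSet c δ S) g
  rw [← hHit] at hcs
  set H : ℝ := ((Hit a b c δ N S).card : ℝ) with hHdef
  set T1 : ℝ := ∑ s ∈ SSet c δ S, ((K.filter (g s)).card : ℝ) with hT1
  set Off : ℝ := ∑ s ∈ SSet c δ S, ∑ s' ∈ (SSet c δ S).erase s,
    ((K.filter (fun k => g s k ∧ g s' k)).card : ℝ) with hOff
  set Y : ℝ := S / (L * l ^ δ) with hY
  have hY0 : 0 < Y := by positivity
  -- first moment
  have hT1low : κ' * N * Y ≤ T1 := by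
    have e1 : ∑ _s ∈ SSet c δ S, (N : ℝ) / (4096 * L) ≤ T1 := by
      rw [hT1]
      apply Finset.sum_le_sum
      intro s hs
      obtain ⟨c1, c2⟩ := hcoef s hs
      have := hfm (a.eval (s : ℤ)) (b.eval (s : ℤ)) (hs1 s (by have := hmS s hs; omega))
        (h.cop s) c1 c2
      refine this.trans (le_of_eq ?_)
      congr 1
    rw [Finset.sum_const, nsmul_eq_mul] at e1
    refine le_trans ?_ e1
    have e2 := hS1 S hSS1
    calc κ' * N * Y = κ1 * (S / l ^ δ) * (N / (4096 * L)) := by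
          rw [hκ', hY]
          field_simp
      _ ≤ _ := by
          apply mul_le_mul_of_nonneg_right e2
          positivity
  -- off-diagonal terms
  have hOffup : Off ≤ C2 * N * Y ^ 2 := by
    have hzS : S ≤ z := by
      have e1 : (S : ℝ) ≤ z := by
        have e2 : (N : ℝ) ≤ (z : ℝ) ^ 256 := by
          have : N ≤ z ^ 256 := by
            refine le_trans ?_ hNz
            omega
          exact_mod_cast this
        have e3 : (N : ℝ) ^ (1 / 256 : ℝ) ≤ ((z : ℝ) ^ 256) ^ (1 / 256 : ℝ) :=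
          Real.rpow_le_rpow (by linarith only [hNR]) e2 (by norm_num)
        rw [← Real.rpow_natCast, ← Real.rpow_mul (Nat.cast_nonneg _)] at e3
        norm_num at e3
        have e4 := hSE.trans hlE
        norm_num at e4
        exact e4.trans e3
      exact_mod_cast e1
    have hcount : ∀ s ∈ SSet c δ S, ∀ s' ∈ (SSet c δ S).erase s,
        ((K.filter (fun k => g s k ∧ g s' k)).card : ℝ) ≤
        4 * N * W (fun p => (omg a b p s s' : ℝ) / p) (Pr z) + C * Real.sqrt (2 * N) := by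
      intro s hs s' hs'
      rw [Finset.mem_erase] at hs'
      have hbig : ∀ t ∈ SSet c δ S, ∀ k ∈ K, g t k → ∀ p ∈ Pr z,
          ¬ (p : ℤ) ∣ a.eval (t : ℤ) * k + b.eval (t : ℤ) := by
        intro t ht k hk hgt p hp hdv
        have hp' := mem_Pr.1 hp
        have e1 : p = (a.eval (t : ℤ) * k + b.eval (t : ℤ)).natAbs :=
          (Nat.prime_dvd_prime_iff_eq hp'.1 hgt).1 (Int.natCast_dvd.1 hdv)
        have e2 : (z : ℝ) ≤ Real.sqrt (2 * N) := by
          apply Real.le_sqrt_of_sq_le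
          exact_mod_cast hzN
        have e3 := (hcoef t ht).2
        have hat : (1 : ℝ) ≤ |((a.eval (t : ℤ) : ℤ) : ℝ)| := by
          have := hs1 t (by have := hmS t ht; omega)
          rw [← Int.cast_abs]
          exact_mod_cast Int.one_le_abs this
        have e4 : ((a.eval (t : ℤ) * k + b.eval (t : ℤ)).natAbs : ℝ) =
            |((a.eval (t : ℤ) : ℤ) : ℝ) * k + ((b.eval (t : ℤ) : ℤ) : ℝ)| := by
          rw [Nat.cast_natAbs]
          push_cast
          rfl
        have e5 : (p : ℝ) ≤ z := by exact_mod_cast hp'.2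
        rw [hK, Finset.mem_Ioc] at hk
        have e6 : (N : ℝ) ≤ k := by exact_mod_cast hk.1.le
        have e7 : (p : ℝ) = |((a.eval (t : ℤ) : ℤ) : ℝ) * k + ((b.eval (t : ℤ) : ℤ) : ℝ)| := by
          rw [← e4]
          exact_mod_cast e1
        have e8 : |((a.eval (t : ℤ) : ℤ) : ℝ)| * k - |((b.eval (t : ℤ) : ℤ) : ℝ)| ≤
            |((a.eval (t : ℤ) : ℤ) : ℝ) * k + ((b.eval (t : ℤ) : ℤ) : ℝ)| := by
          have := abs_sub_abs_le_abs_sub (((a.eval (t : ℤ) : ℤ) : ℝ) * k)
            (-((b.eval (t : ℤ) : ℤ) : ℝ))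
          have hk0 : |(k : ℝ)| = k := abs_of_nonneg (Nat.cast_nonneg k)
          rw [abs_neg, sub_neg_eq_add, abs_mul, hk0] at this
          exact this
        have e9 : (N : ℝ) ≤ |((a.eval (t : ℤ) : ℤ) : ℝ)| * k :=
          e6.trans (le_mul_of_one_le_left (Nat.cast_nonneg k) hat)
        linarith only [hlC0, e2, e3, e5, e7, e8, e9]
      set Q : ℕ → ℕ → Prop := fun p k => (p : ℤ) ∣ (a.eval (s : ℤ) * k + b.eval (s : ℤ)) *
        (a.eval (s' : ℤ) * k + b.eval (s' : ℤ)) with hQ
      have hper : ∀ p x, Q p (x % p) ↔ Q p x := by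
        intro p x
        have := dvd_mod_iff ((Polynomial.C (a.eval (s : ℤ)) * X + Polynomial.C (b.eval (s : ℤ))) *
          (Polynomial.C (a.eval (s' : ℤ)) * X + Polynomial.C (b.eval (s' : ℤ)))) p x
        simp only [eval_mul, eval_add, eval_C, eval_X] at this
        exact this
      have hom : ∀ p, ((range p).filter (Q p)).card = omg a b p s s' := by
        intro p
        unfold omg
        congr 1
      have e1 := hsv1 Q hper (fun p hp => by rw [hom]; exact omg_le h hp s s')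
        (K.filter (fun k => g s k ∧ g s' k)) (by
          intro k hk
          rw [Finset.mem_filter] at hk
          have hk1 := hk.1
          rw [hK, Finset.mem_Ioc] at hk1
          refine ⟨by omega, hk1.2, fun p hp hQp => ?_⟩
          rcases (Nat.prime_iff_prime_int.1 (mem_Pr.1 hp).1).dvd_or_dvd hQp with q | q
          · exact hbig s hs k hk.1 hk.2.1 p hp q
          · exact hbig s' hs'.2 k hk.1 hk.2.2 p hp q)
      simp only [hom] at e1
      push_cast at e1
      linarith only [e1]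
    have hkz := kapD_pos z
    have hcardS : ((SSet c δ S).card : ℝ) ≤ S := by
      have : (SSet c δ S).card ≤ (Ioc S (2 * S)).card := by
        unfold SSet
        exact Finset.card_filter_le _ _
      rw [Nat.card_Ioc] at this
      have h2 : (SSet c δ S).card ≤ S := by omega
      exact_mod_cast h2
    have e1 : Off ≤ 4 * N * (C1 * (kapD z ^ 2 * ((S : ℝ) ^ 2 / l ^ (2 * δ)))) +
        S * (S * (C * Real.sqrt (2 * N))) := by
      have f1 : Off ≤ ∑ s ∈ SSet c δ S, ∑ s' ∈ (SSet c δ S).erase s,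
          (4 * N * W (fun p => (omg a b p s s' : ℝ) / p) (Pr z) + C * Real.sqrt (2 * N)) := by
        rw [hOff]
        apply Finset.sum_le_sum
        intro s hs
        exact Finset.sum_le_sum (hcount s hs)
      refine f1.trans ?_
      simp only [Finset.sum_add_distrib]
      apply add_le_add
      · simp only [← Finset.mul_sum]
        exact mul_le_mul_of_nonneg_left (hS2 S hSS2 z hzS) (by positivity)
      · have f2 : ∀ s ∈ SSet c δ S, ∑ _s' ∈ (SSet c δ S).erase s, C * Real.sqrt (2 * N) ≤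
            S * (C * Real.sqrt (2 * N)) := by
          intro s _
          rw [Finset.sum_const, nsmul_eq_mul]
          apply mul_le_mul_of_nonneg_right _ (by positivity)
          refine le_trans ?_ hcardS
          exact_mod_cast Finset.card_le_card (Finset.erase_subset _ _)
        refine (Finset.sum_le_sum f2).trans ?_
        rw [Finset.sum_const, nsmul_eq_mul]
        exact mul_le_mul_of_nonneg_right hcardS (by positivity)
    have e2 : kapD z ≤ 256 / L := by
      have f1 := kapD_mul_log_le z (by omega)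
      have f2 : L ≤ 256 * Real.log z := by
        have f3 : (N : ℝ) ≤ (z : ℝ) ^ 256 := by
          have : N ≤ z ^ 256 := by
            refine le_trans ?_ hNz
            omega
          exact_mod_cast this
        have f4 := Real.log_le_log (by linarith only [hNR]) f3
        rw [Real.log_pow] at f4
        push_cast at f4
        exact f4
      rw [le_div_iff₀ hL0]
      calc kapD z * L ≤ kapD z * (256 * Real.log z) := by (clear * - f2 hkz; gcongr)
        _ = 256 * (kapD z * Real.log z) := by ring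
        _ ≤ 256 * 1 := by gcongr
        _ = 256 := mul_one _
    have e3 : kapD z ^ 2 * ((S : ℝ) ^ 2 / l ^ (2 * δ)) ≤ 65536 * Y ^ 2 := by
      have f1 : kapD z ^ 2 ≤ (256 / L) ^ 2 := pow_le_pow_left₀ hkz.le e2 2
      have f2 : (256 / L) ^ 2 * ((S : ℝ) ^ 2 / l ^ (2 * δ)) = 65536 * Y ^ 2 := by
        rw [hY, pow_mul' l 2 δ]
        field_simp
        norm_num
      rw [← f2]
      (clear * - f1 hS16 hl0; gcongr)
    have e4 : (S : ℝ) * (S * (C * Real.sqrt (2 * N))) ≤ N * Y ^ 2 := by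
      have hlL : l ≤ L := by
        apply Real.log_le_log (by linarith only [hSR])
        refine hSE.trans (hlE.trans ?_)
        nth_rw 2 [← Real.rpow_one (N : ℝ)]
        exact Real.rpow_le_rpow_of_exponent_le (by linarith only [hNR]) (by norm_num)
      have f1 : l ^ (2 * δ) ≤ L ^ 2 := by
        calc l ^ (2 * δ) ≤ l ^ 2 := pow_le_pow_right₀ hl0 (by omega)
          _ ≤ L ^ 2 := by (clear * - hl0 hlL; gcongr)
      have f2 : (N : ℝ) * Y ^ 2 = S ^ 2 * (N / (L ^ 2 * l ^ (2 * δ))) := by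
        rw [hY, pow_mul' l 2 δ]
        field_simp
      rw [f2]
      have f3 : C * Real.sqrt (2 * N) ≤ N / (L ^ 2 * l ^ (2 * δ)) := by
        rw [le_div_iff₀ (by positivity)]
        calc C * Real.sqrt (2 * N) * (L ^ 2 * l ^ (2 * δ)) ≤
              C * Real.sqrt (2 * N) * (L ^ 2 * L ^ 2) := by (clear * - f1 hl1 hC hN16; gcongr)
          _ = C * Real.sqrt (2 * N) * L ^ 4 := by ring
          _ ≤ N := hl4
      calc (S : ℝ) * (S * (C * Real.sqrt (2 * N))) = S ^ 2 * (C * Real.sqrt (2 * N)) := by ring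
        _ ≤ _ := by (clear * - f3 hS16; gcongr)
    calc Off ≤ 4 * N * (C1 * (kapD z ^ 2 * ((S : ℝ) ^ 2 / l ^ (2 * δ)))) +
        S * (S * (C * Real.sqrt (2 * N))) := e1
      _ ≤ 4 * N * (C1 * (65536 * Y ^ 2)) + N * Y ^ 2 := by (clear * - e3 hC1 hN16 e4; gcongr)
      _ = C2 * N * Y ^ 2 := by rw [hC2]; ring
  -- conclusion
  have hH0 : 0 ≤ H := Nat.cast_nonneg _
  have hN0 : (0 : ℝ) < N := by linarith only [hNR]
  have hT0 : 0 < T1 := lt_of_lt_of_le (by positivity) hT1low
  have hmin1 : min 1 Y ≤ 1 := min_le_left _ _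
  have hmin2 : min 1 Y ≤ Y := min_le_right _ _
  have hmin0 : 0 < min 1 Y := lt_min one_pos hY0
  rcases le_or_gt (C2 * N * Y ^ 2) T1 with hcase | hcase
  · have e1 : T1 ^ 2 ≤ H * (2 * T1) := by
      refine hcs.trans ?_
      apply mul_le_mul_of_nonneg_left _ hH0
      linarith only [hOffup, hcase]
    have e2 : T1 ≤ 2 * H := by
      by_contra hcon
      push Not at hcon
      have h12 := mul_lt_mul_of_pos_right hcon hT0
      clear * - h12 e1
      linarith
    calc min (κ' / 2) (κ' ^ 2 / (2 * C2)) * N * min 1 Y ≤ κ' / 2 * N * Y := by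
          gcongr
          exact min_le_left _ _
      _ ≤ H := by linarith only [hT1low, e2]
  · have e1 : T1 ^ 2 ≤ H * (2 * (C2 * N * Y ^ 2)) := by
      refine hcs.trans ?_
      apply mul_le_mul_of_nonneg_left _ hH0
      linarith only [hOffup, hcase]
    have e2 : (κ' * N * Y) ^ 2 ≤ H * (2 * (C2 * N * Y ^ 2)) :=
      (pow_le_pow_left₀ (by positivity) hT1low 2).trans e1
    have e3 : κ' ^ 2 / (2 * C2) * N ≤ H := by
      have f1 : κ' ^ 2 * N * (N * Y ^ 2) ≤ (H * (2 * C2)) * (N * Y ^ 2) := by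
        calc _ = (κ' * N * Y) ^ 2 := by ring
          _ ≤ _ := e2
          _ = _ := by ring
      have f2 := le_of_mul_le_mul_right f1 (by positivity)
      rw [div_mul_eq_mul_div, div_le_iff₀ (by positivity)]
      exact f2
    calc min (κ' / 2) (κ' ^ 2 / (2 * C2)) * N * min 1 Y ≤ κ' ^ 2 / (2 * C2) * N * 1 := by
          gcongr
          exact min_le_right _ _
      _ ≤ H := by linarith only [e3]

end Pool.Agent.PD
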