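import Pool.Agent.Lib.MP_0da313_nt.PD.Fam
import Pool.Agent.Lib.MP_0da313_nt.PD.Core

set_option autoImplicit false

/-!
Positive lower density.
-/

open Finset Polynomial Filter

namespace Pool.Agent.PD

open Pool.Agent.Lib.MP_0da313_nt

/-- the choice of the length of the range of `s` -/
lemma choose_S {ε : ℝ} (hε : 0 < ε) (δ S0 : ℕ) (hδ : δ ≤ 1) : ∀ᶠ N : ℕ in atTop, ∃ S : ℕ,
    S0 ≤ S ∧ (S : ℝ) ≤ (Real.log N) ^ 2 ∧ (S : ℝ) ≤ ε * (Real.log N * (Real.log (Real.log N)) ^ δ) ∧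
    min 1 (ε / 4) ≤ min 1 (S / (Real.log N * (Real.log S) ^ δ)) ∧ 1 ≤ Real.log (Real.log N) := by
  have hL : Tendsto (fun N : ℕ => Real.log N) atTop atTop :=
    Real.tendsto_log_atTop.comp tendsto_natCast_atTop_atTop
  have h1 : ∀ᶠ x : ℝ in atTop, ε * (x * (Real.log x) ^ δ) ≤ x ^ 2 := by
    filter_upwards [ev_log_pow' ε δ, eventually_ge_atTop (1 : ℝ)] with x hx hx1
    calc ε * (x * (Real.log x) ^ δ) = x * (ε * (Real.log x) ^ δ) := by ring
      _ ≤ x * x := by gcongr
      _ = x ^ 2 := by ring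
  have h2 : ∀ᶠ x : ℝ in atTop, 1 ≤ Real.log x := Real.tendsto_log_atTop.eventually_ge_atTop 1
  have h3 : ∀ᶠ x : ℝ in atTop, (S0 + 3) / ε * 2 ≤ x := eventually_ge_atTop _
  filter_upwards [hL.eventually h1, hL.eventually h2, hL.eventually h3, hL.eventually_ge_atTop 1]
    with N g1 g2 g3 g4
  set L := Real.log N with hLdef
  set l := Real.log L with hl
  have hL0 : 0 < L := by linarith
  have hlδ : 1 ≤ l ^ δ := one_le_pow₀ g2
  have hLl : L ≤ L * l ^ δ := le_mul_of_one_le_right hL0.le hlδ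
  set Y := ε * (L * l ^ δ) with hY
  have hYbig : 2 * (S0 + 3) ≤ Y := by
    have : (S0 + 3) / ε * 2 ≤ L * l ^ δ := g3.trans hLl
    have h5 := mul_le_mul_of_nonneg_left this hε.le
    have h6 : ε * ((S0 + 3) / ε * 2) = 2 * (S0 + 3) := by field_simp
    rw [h6] at h5
    exact h5
  have hY0 : 0 ≤ Y := by
    have : (0 : ℝ) ≤ S0 := Nat.cast_nonneg _
    linarith
  set S := ⌊Y⌋₊ with hS
  have hS1 : (S : ℝ) ≤ Y := Nat.floor_le hY0
  have hS2 : Y < S + 1 := Nat.lt_floor_add_one Y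
  have hS0S : (S0 : ℝ) + 3 ≤ S := by
    have : (0 : ℝ) ≤ S0 := Nat.cast_nonneg _
    linarith
  have hSY : Y / 2 ≤ S := by linarith
  have hSpos : (3 : ℝ) ≤ S := by
    have : (0 : ℝ) ≤ S0 := Nat.cast_nonneg _
    linarith
  refine ⟨S, ?_, hS1.trans g1, hS1, ?_, g2⟩
  · have : (S0 : ℝ) ≤ S := by linarith
    exact_mod_cast this
  · apply min_le_min le_rfl
    have hlS : 1 ≤ Real.log S := by
      rw [Real.le_log_iff_exp_le (by linarith)]
      have := Real.exp_one_lt_d9
      linarith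
    have hlS2 : Real.log S ≤ 2 * l := by
      have := Real.log_le_log (by linarith) (hS1.trans g1)
      rw [Real.log_pow] at this
      push_cast at this
      exact this
    rw [le_div_iff₀ (by positivity)]
    have h5 : (Real.log S) ^ δ ≤ 2 * l ^ δ := by
      calc (Real.log S) ^ δ ≤ (2 * l) ^ δ := pow_le_pow_left₀ (by linarith) hlS2 δ
        _ = 2 ^ δ * l ^ δ := mul_pow _ _ _
        _ ≤ 2 ^ 1 * l ^ δ := by
          apply mul_le_mul_of_nonneg_right _ (by positivity)
          exact pow_le_pow_right₀ (by norm_num) hδ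
        _ = 2 * l ^ δ := by norm_num
    calc ε / 4 * (L * (Real.log S) ^ δ) ≤ ε / 4 * (L * (2 * l ^ δ)) := by (clear * - h5 g4 hε; gcongr)
      _ = Y / 2 := by rw [hY]; ring
      _ ≤ S := hSY

/-- the data of the problem in the form of a pencil -/
lemma exists_data {m : ℕ} (hm : m ≤ 2) {f : Fin m → MvPolynomial (Fin 2) ℤ} {u v : ℕ}
    (k₀ : Fin m) {a b : ℤ[X]}
    (h₀ : ∀ s t : ℤ, val (f k₀) (u * t + s) (v * t - s) = a.eval s * t + b.eval s)
    (h₁ : ∀ k, k ≠ k₀ → ∃ α β : ℤ, ∀ s t : ℤ, val (f k) (u * t + s) (v * t - s) = α * s + β) :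
    ∃ (c : ℤ[X]) (δ : ℕ), δ + 1 = m ∧
      ((c = 1 ∧ δ = 0) ∨ (δ = 1 ∧ ∃ α β : ℤ, c = C α * X + C β)) ∧
      (δ = 1 → ∃ k, ∀ s t : ℤ, val (f k) (u * t + s) (v * t - s) = c.eval s) ∧
      (∀ s t : ℤ, ∏ k, val (f k) (u * t + s) (v * t - s) = c.eval s * (a.eval s * t + b.eval s)) ∧
      (∀ s t : ℤ, (δ = 1 → (c.eval s).natAbs.Prime) → (a.eval s * t + b.eval s).natAbs.Prime →
        ∀ k, (val (f k) (u * t + s) (v * t - s)).natAbs.Prime) := by
  have hm0 : 0 < m := Fin.pos k₀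
  interval_cases m
  · refine ⟨1, 0, rfl, Or.inl ⟨rfl, rfl⟩, fun h => absurd h (by norm_num), ?_, ?_⟩
    · intro s t
      rw [Fin.prod_univ_one, eval_one, one_mul, ← h₀ s t, Subsingleton.elim k₀ 0]
    · intro s t _ h k
      rw [Subsingleton.elim k k₀, h₀ s t]
      exact h
  · obtain ⟨k₁, hk₁, hall⟩ : ∃ k₁ : Fin 2, k₁ ≠ k₀ ∧ ∀ k, k = k₀ ∨ k = k₁ := by
      fin_cases k₀
      · exact ⟨1, by decide, by decide⟩
      · exact ⟨0, by decide, by decide⟩
    obtain ⟨α, β, hαβ⟩ := h₁ k₁ hk₁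
    have hce : ∀ s : ℤ, (C α * X + C β : ℤ[X]).eval s = α * s + β := by intro s; simp
    refine ⟨C α * X + C β, 1, rfl, Or.inr ⟨rfl, α, β, rfl⟩, fun _ => ⟨k₁, fun s t => ?_⟩, ?_, ?_⟩
    · rw [hαβ, hce]
    · intro s t
      rw [hce, ← hαβ s t, ← h₀ s t, Fin.prod_univ_two]
      fin_cases k₀
      · have : k₁ = 1 := by
          rcases hall 1 with h | h
          · exact absurd h (by decide)
          · exact h.symm
        rw [this]
        exact mul_comm _ _
      · have : k₁ = 0 := by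
          rcases hall 0 with h | h
          · exact absurd h (by decide)
          · exact h.symm
        rw [this]
        rfl
    · intro s t h1 h2 k
      rcases hall k with h | h
      · rw [h, h₀]; exact h2
      · rw [h, hαβ, ← hce]; exact h1 rfl

theorem positive_density {m : ℕ} (hm : m ≤ 2) (f : Fin m → MvPolynomial (Fin 2) ℤ)
    (hf : Admissible f) (u v : ℕ) (huv : 0 < u + v) (k₀ : Fin m)
    (h₀ : ∃ a b : ℤ[X], a ≠ 0 ∧
      ∀ s t : ℤ, val (f k₀) (u * t + s) (v * t - s) = a.eval s * t + b.eval s)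
    (h₁ : ∀ k, k ≠ k₀ → ∃ α β : ℤ, ∀ s t : ℤ, val (f k) (u * t + s) (v * t - s) = α * s + β)
    (ε : ℝ) (hε : 0 < ε) :
    ∃ c : ℝ, 0 < c ∧ ∃ N₀ : ℕ, ∀ N : ℕ, N₀ ≤ N →
      c * N ≤ (Set.ncard {n : ℕ | n ≤ N ∧ ∃ x y : ℕ, 0 < x ∧ 0 < y ∧ x + y = n ∧
        |(v : ℝ) * x - u * y| ≤ ε * Real.log n * (Real.log (Real.log n)) ^ (m - 1) ∧
        ∀ k, (val (f k) x y).natAbs.Prime} : ℝ) := by
  classical
  obtain ⟨a, b, ha, hab⟩ := h₀
  obtain ⟨c, δ, hδm, hc, hck, hprod, hprime⟩ := exists_data hm k₀ hab h₁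
  have hδ : m - 1 = δ := by omega
  rw [hδ]
  -- the sign
  obtain ⟨σ, hσ, hσv, hσu⟩ : ∃ σ : ℤ, (σ = 1 ∨ σ = -1) ∧ (σ = 1 → 0 < v) ∧ (σ = -1 → 0 < u) := by
    rcases Nat.eq_zero_or_pos v with hv | hv
    · exact ⟨-1, Or.inr rfl, fun h => absurd h (by norm_num), fun _ => by omega⟩
    · exact ⟨1, Or.inl rfl, fun _ => hv, fun h => absurd h (by norm_num)⟩
  -- the pencil
  obtain ⟨t0, ht0⟩ := not_const hf huv k₀
  have hP : ∀ t : ℕ, t0 ≤ t → Irreducible (a * C (t : ℤ) + b) ∧
      (a * C (t : ℤ) + b).natDegree ≠ 0 := by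
    intro t ht
    apply ht0 t ht
    intro s
    rw [hab]
    simp
  obtain ⟨hbez, hnc⟩ := pencil_facts ha (fun t ht => (hP t ht).1) (fun t ht => (hP t ht).2)
  have hc' : (c = 1 ∧ δ = 0) ∨ (δ = 1 ∧ ∃ α β : ℤ, α ≠ 0 ∧ c = C α * X + C β) := by
    rcases hc with h | ⟨h1, α, β, h2⟩
    · exact Or.inl h
    · refine Or.inr ⟨h1, α, β, ?_, h2⟩
      obtain ⟨k₁, hk₁⟩ := hck h1
      obtain ⟨t1, ht1⟩ := not_const hf huv k₁
      have h3 := (ht1 t1 le_rfl c (fun s => (hk₁ s t1).symm)).2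
      intro h4
      apply h3
      rw [h2, h4]
      simp
  have hloc : ∀ p : ℕ, p.Prime → ∃ s t : ℤ, ¬ (p : ℤ) ∣ c.eval s * (a.eval s * t + b.eval s) := by
    intro p hp
    obtain ⟨s, t, hst⟩ := local_point hf huv hp
    rw [hprod] at hst
    exact ⟨s, t, hst⟩
  obtain ⟨M, s1, hM1, hdat⟩ := exists_dat hσ ha hbez hnc hc' hloc
  have hev : ∀ (G : ℤ[X]) (t' : ℤ), (G.comp (C (σ * M) * X + C (σ * s1))).eval t' =
      G.eval (σ * (M * t' + s1)) := by
    intro G t'
    rw [eval_comp]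
    simp only [eval_add, eval_mul, eval_C, eval_X]
    congr 1
    ring
  obtain ⟨κ, hκ, S0, hcore⟩ := core hdat 2
  -- parameters
  set w : ℕ := u + v with hw
  set K : ℕ := w * (2 * (M + s1)) with hK
  have hKpos : 0 < K := by positivity
  have hKR : (0 : ℝ) < K := by exact_mod_cast hKpos
  set ε' : ℝ := ε / K with hε'
  have hε'0 : 0 < ε' := by (clear * - hε huv hM1; positivity)
  have hδ1 := hdat.δ_le
  have hsmall : ∀ᶠ N : ℕ in atTop, ((2 * (M + s1) : ℕ) : ℝ) * (Real.log N) ^ 2 ≤ (N : ℝ) :=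
    ev_nat_real (ev_log_pow' _ 2)
  obtain ⟨N1, hN1⟩ := Filter.eventually_atTop.1
    (((hcore.and (choose_S hε'0 δ (max S0 1) hδ1)).and hsmall).and (eventually_ge_atTop 16))
  have hwR : (1 : ℝ) ≤ w := by exact_mod_cast huv
  refine ⟨κ * min 1 (ε' / 4) / (4 * w), by
    have : 0 < min 1 (ε' / 4) := lt_min one_pos (by positivity)
    (clear * - hκ hε huv hM1; positivity), 2 * w * (N1 + 2), fun N hN => ?_⟩
  set n1 : ℕ := N / (2 * w) with hn1
  have hn1N1 : N1 + 2 ≤ n1 := by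
    rw [hn1, Nat.le_div_iff_mul_le (by positivity)]
    linarith only [hN]
  obtain ⟨⟨⟨hcore1, S, hS0, hS2, hSε, hSmin, hll⟩, hsm⟩, h16⟩ := hN1 n1 (by omega)
  have hmain := hcore1 S ((le_max_left _ _).trans hS0) hS2
  have hS1 : 1 ≤ S := (le_max_right _ _).trans hS0
  have hn1R : (16 : ℝ) ≤ n1 := by exact_mod_cast h16
  set H := Hit (a.comp (C (σ * M) * X + C (σ * s1))) (b.comp (C (σ * M) * X + C (σ * s1)))
    (c.comp (C (σ * M) * X + C (σ * s1))) δ n1 S with hH
  set T : Set ℕ := {n : ℕ | n ≤ N ∧ ∃ x y : ℕ, 0 < x ∧ 0 < y ∧ x + y = n ∧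
        |(v : ℝ) * x - u * y| ≤ ε * Real.log n * (Real.log (Real.log n)) ^ δ ∧
        ∀ k, (val (f k) x y).natAbs.Prime} with hT
  have hTfin : T.Finite := (Set.finite_Iic N).subset fun n hn => hn.1
  -- the injection
  have hsub : ∀ t ∈ H, w * t ∈ T := by
    intro t ht
    rw [hH] at ht
    unfold Hit at ht
    rw [Finset.mem_filter, Finset.mem_Ioc] at ht
    obtain ⟨⟨ht1, ht2⟩, s', hs', hsp⟩ := ht
    unfold SSet at hs'
    rw [Finset.mem_filter, Finset.mem_Ioc] at hs'
    obtain ⟨⟨hs1, hs2⟩, hs3⟩ := hs'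
    rw [hev, hev] at hsp
    rw [hev] at hs3
    set r : ℤ := (M : ℤ) * s' + s1 with hr
    have hr0 : 0 < r := by
      have h1 : (0 : ℤ) < (M : ℤ) * s' := by
        have : 0 < M * s' := Nat.mul_pos (by omega) (by omega)
        exact_mod_cast this
      rw [hr]
      (clear * - h1; positivity)
    have hrS : r ≤ (M + s1) * (2 * S) := by
      have h1 : (M : ℤ) * s' ≤ M * (2 * S) := by
        apply mul_le_mul_of_nonneg_left _ (by positivity)
        exact_mod_cast hs2
      have h2 : (s1 : ℤ) ≤ s1 * (2 * S) := by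
        have : s1 ≤ s1 * (2 * S) := Nat.le_mul_of_pos_right _ (by omega)
        exact_mod_cast this
      rw [hr]
      linarith only [h1, h2]
    have hrSR : (r : ℝ) ≤ (M + s1) * (2 * S) := by exact_mod_cast hrS
    have hrn1 : r < n1 + 1 := by
      have h1 : (r : ℝ) ≤ n1 := by
        calc (r : ℝ) ≤ (M + s1) * (2 * S) := hrSR
          _ = (2 * (M + s1)) * S := by ring
          _ ≤ (2 * (M + s1)) * (Real.log n1) ^ 2 := by (clear * - hS2 hM1; gcongr)
          _ ≤ n1 := by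
            push_cast at hsm
            exact hsm
      have h2 : r ≤ n1 := by exact_mod_cast h1
      omega
    have hallp := hprime (σ * r) t hs3 hsp
    -- positivity
    have htz : (n1 : ℤ) < t := by exact_mod_cast ht1
    have hxy : 0 < (u : ℤ) * t + σ * r ∧ 0 < (v : ℤ) * t - σ * r := by
      rcases hσ with h | h
      · have hv := hσv h
        have hv' : (1 : ℤ) ≤ v := by exact_mod_cast hv
        rw [h, one_mul]
        constructor
        · (clear * - hr0; positivity)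
        · have h12 : (1 : ℤ) * t ≤ v * t :=
            mul_le_mul_of_nonneg_right hv' (Int.natCast_nonneg t)
          clear * - h12 hrn1 htz
          linarith
      · have hu := hσu h
        have hu' : (1 : ℤ) ≤ u := by exact_mod_cast hu
        rw [h]
        constructor
        · have h12 : (1 : ℤ) * t ≤ u * t :=
            mul_le_mul_of_nonneg_right hu' (Int.natCast_nonneg t)
          clear * - h12 hrn1 htz
          linarith
        · have : 0 ≤ (v : ℤ) * t := by (clear * -; positivity)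
          linarith only [hr0, this]
    obtain ⟨hx, hy⟩ := hxy
    obtain ⟨x, hx'⟩ := Int.eq_ofNat_of_zero_le hx.le
    obtain ⟨y, hy'⟩ := Int.eq_ofNat_of_zero_le hy.le
    have hsum : x + y = w * t := by
      have : (x : ℤ) + y = w * t := by
        rw [← hx', ← hy', hw]
        push_cast
        ring
      exact_mod_cast this
    refine ⟨?_, x, y, by omega, by omega, hsum, ?_, ?_⟩
    · calc w * t ≤ w * (2 * n1) := Nat.mul_le_mul_left _ ht2
        _ = n1 * (2 * w) := by ring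
        _ ≤ N := Nat.div_mul_le_self N (2 * w)
    · have e1 : (v : ℝ) * x - u * y = w * (σ * r) := by
        have : (v : ℤ) * x - u * y = w * (σ * r) := by
          rw [← hx', ← hy', hw]
          push_cast
          ring
        exact_mod_cast this
      rw [e1, abs_mul, abs_mul]
      have e2 : |((σ : ℤ) : ℝ)| = 1 := by
        rcases hσ with h | h <;> rw [h] <;> norm_num
      have e3 : |(r : ℝ)| = r := abs_of_pos (by exact_mod_cast hr0)
      rw [e2, e3, one_mul, abs_of_nonneg (Nat.cast_nonneg w)]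
      have hlogn : Real.log n1 ≤ Real.log ((w * t : ℕ) : ℝ) := by
        apply Real.log_le_log (by linarith only [hn1R])
        have : n1 ≤ w * t := by
          calc n1 ≤ t := ht1.le
            _ ≤ w * t := Nat.le_mul_of_pos_left _ huv
        exact_mod_cast this
      have hlog0 : 0 < Real.log n1 := Real.log_pos (by linarith only [hn1R])
      have hlogn2 : Real.log (Real.log n1) ≤ Real.log (Real.log ((w * t : ℕ) : ℝ)) :=
        Real.log_le_log hlog0 hlogn
      calc (w : ℝ) * r ≤ w * ((M + s1) * (2 * S)) := by (clear * - hrSR huv; gcongr)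
        _ = K * S := by rw [hK]; push_cast; ring
        _ ≤ K * (ε' * (Real.log n1 * (Real.log (Real.log n1)) ^ δ)) := by (clear * - hSε huv hM1; gcongr)
        _ = ε * Real.log n1 * (Real.log (Real.log n1)) ^ δ := by
          rw [hε']
          field_simp
        _ ≤ ε * Real.log ((w * t : ℕ) : ℝ) * (Real.log (Real.log ((w * t : ℕ) : ℝ))) ^ δ := by
          (clear * - hlogn hε hll hlogn2; gcongr)
    · intro k
      have := hallp k
      rw [hx', hy'] at this
      exact this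
  have hcardle : (H.card : ℝ) ≤ (Set.ncard T : ℝ) := by
    have h1 : (H.image (fun t => w * t)).card = H.card := by
      apply Finset.card_image_of_injective
      intro t t' h
      exact Nat.eq_of_mul_eq_mul_left huv h
    have h2 : ((H.image (fun t => w * t) : Finset ℕ) : Set ℕ) ⊆ T := by
      intro n hn
      rw [Finset.mem_coe, Finset.mem_image] at hn
      obtain ⟨t, ht, rfl⟩ := hn
      exact hsub t ht
    have h3 := Set.ncard_le_ncard h2 hTfin
    rw [Set.ncard_coe_finset, h1] at h3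
    exact_mod_cast h3
  refine le_trans ?_ (hmain.trans hcardle)
  have hnN : (N : ℝ) / (4 * w) ≤ n1 := by
    have h1 : N < (n1 + 1) * (2 * w) := by
      rw [hn1]
      exact Nat.lt_mul_of_div_lt (Nat.lt_succ_self _) (by positivity)
    have h2 : (N : ℝ) ≤ (n1 + 1) * (2 * w) := by exact_mod_cast h1.le
    rw [div_le_iff₀ (by positivity)]
    have h3 := mul_nonneg (Nat.cast_nonneg w : (0 : ℝ) ≤ w) (by linarith only [hn1R] : (0 : ℝ) ≤ n1 - 1)
    clear * - h2 h3
    linarith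
  have hmin0 : 0 < min 1 (ε' / 4) := lt_min one_pos (by (clear * - hε huv hM1; positivity))
  calc κ * min 1 (ε' / 4) / (4 * w) * N = κ * (N / (4 * w)) * min 1 (ε' / 4) := by ring
    _ ≤ κ * n1 * min 1 (ε' / 4) := by (clear * - hnN hκ hε huv hM1; gcongr)
    _ ≤ κ * n1 * min 1 (S / (Real.log n1 * (Real.log S) ^ δ)) := by (clear * - hSmin hκ h16; gcongr)

end Pool.Agent.PD
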