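import Mathlib
import Pool.Agent.Lib.MP_0da313_nt.Defs

set_option autoImplicit false

/-!
Algebraic preliminaries: pencils of irreducible polynomials.
-/

open Finset Polynomial Filter

namespace Pool.Agent.PD

open Pool.Agent.Lib.MP_0da313_nt

/-- a Bezout identity over the integers for two irreducible polynomials -/
lemma exists_bezout {P Q : ℤ[X]} (hP : Irreducible P) (hP0 : P.natDegree ≠ 0)
    (hPQ : ¬ P ∣ Q) :
    ∃ (R : ℤ) (U V : ℤ[X]), R ≠ 0 ∧ P * U + Q * V = C R := by
  have hPp := hP.isPrimitive hP0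

  have hPq : Irreducible (P.map (Int.castRingHom ℚ)) :=
    (IsPrimitive.Int.irreducible_iff_irreducible_map_cast hPp).1 hP
  have hcop : IsCoprime (P.map (Int.castRingHom ℚ)) (Q.map (Int.castRingHom ℚ)) := by
    rw [hPq.coprime_iff_not_dvd]
    intro h
    exact hPQ ((IsPrimitive.Int.dvd_iff_map_cast_dvd_map_cast P Q hPp).2 h)
  obtain ⟨U, V, _, _, hUV⟩ := exists_mul_add_mul_eq_C_resultant (m := P.natDegree)
    (n := Q.natDegree) P Q le_rfl le_rfl (Or.inl hP0)
  refine ⟨_, U, V, ?_, hUV⟩
  intro h0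
  have h1 := resultant_map_map P Q P.natDegree Q.natDegree (Int.castRingHom ℚ)
  rw [h0, map_zero] at h1
  have hdP : (P.map (Int.castRingHom ℚ)).natDegree = P.natDegree :=
    natDegree_map_eq_of_injective (RingHom.injective_int _) P
  have hdQ : (Q.map (Int.castRingHom ℚ)).natDegree = Q.natDegree :=
    natDegree_map_eq_of_injective (RingHom.injective_int _) Q
  have h2 : (P.map (Int.castRingHom ℚ)).resultant (Q.map (Int.castRingHom ℚ)) = 0 := by
    rw [hdP, hdQ]; exact h1
  rw [resultant_eq_zero_iff] at h2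
  exact h2.2 hcop

/-- the absolute values of a nonconstant polynomial are eventually different -/
lemma sq_inj {G : ℤ[X]} (hG : G.natDegree ≠ 0) : ∃ t0 : ℕ, ∀ t t' : ℕ, t0 ≤ t → t0 ≤ t' →
    t ≠ t' → G.eval (t : ℤ) ^ 2 ≠ G.eval (t' : ℤ) ^ 2 := by
  set P : ℝ[X] := (G ^ 2).map (Int.castRingHom ℝ) with hP
  have hPdeg : P.natDegree = 2 * G.natDegree := by
    rw [hP, natDegree_map_eq_of_injective (RingHom.injective_int _), natDegree_pow]
  have hG0 : G ≠ 0 := by
    intro h; rw [h] at hG; simp at hG
  have hPlead : 0 < P.leadingCoeff := by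
    rw [hP, leadingCoeff_map_of_injective (RingHom.injective_int _), leadingCoeff_pow]
    have : G.leadingCoeff ≠ 0 := leadingCoeff_ne_zero.2 hG0
    simp only [eq_intCast]
    push_cast
    positivity
  set P' := derivative P with hP'
  have hP'deg : P'.natDegree = P.natDegree - 1 := natDegree_derivative P
  have hP'lead : 0 < P'.leadingCoeff := by
    unfold leadingCoeff
    rw [hP'deg, hP', coeff_derivative]
    have e : P.natDegree - 1 + 1 = P.natDegree := by omega
    rw [e]
    have : P.coeff P.natDegree = P.leadingCoeff := rfl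
    rw [this]
    positivity
  have hlim := tendsto_atTop_of_leadingCoeff_nonneg P' (natDegree_pos_iff_degree_pos.1 (by omega))
    hP'lead.le
  obtain ⟨x0, hx0⟩ := Filter.eventually_atTop.1 (hlim.eventually_gt_atTop 0)
  have hmono : StrictMonoOn (fun x : ℝ => P.eval x) (Set.Ici x0) := by
    apply strictMonoOn_of_deriv_pos (convex_Ici x0) P.continuous.continuousOn
    intro x hx
    rw [Polynomial.deriv]
    rw [interior_Ici] at hx
    exact hx0 x (le_of_lt hx)
  refine ⟨⌈x0⌉₊, fun t t' ht ht' hne h => hne ?_⟩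
  have e1 : x0 ≤ (t : ℝ) := (Nat.le_ceil x0).trans (by exact_mod_cast ht)
  have e2 : x0 ≤ (t' : ℝ) := (Nat.le_ceil x0).trans (by exact_mod_cast ht')
  have e3 : ∀ t : ℕ, P.eval (t : ℝ) = ((G.eval (t : ℤ) ^ 2 : ℤ) : ℝ) := by
    intro t
    have := Polynomial.eval_intCast_map (Int.castRingHom ℝ) (G ^ 2) (t : ℤ)
    rw [hP]
    simp only [Int.cast_natCast, eq_intCast, eval_pow] at this ⊢
    exact this
  have e4 : P.eval (t : ℝ) = P.eval (t' : ℝ) := by rw [e3, e3, h]
  have := hmono.injOn (Set.mem_Ici.2 e1) (Set.mem_Ici.2 e2) e4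
  exact_mod_cast this

/-- irreducibility is invariant under translation -/
lemma irreducible_comp_add {P : ℤ[X]} (hP : Irreducible P) (t : ℤ) :
    Irreducible (P.comp (X + C t)) := by
  have h1 : P.comp (X + C t) = algEquivAevalXAddC t P := by
    rw [algEquivAevalXAddC_apply, aeval_def, comp, eval₂_eq_eval_map]
    simp [eval₂_eq_eval_map]
  rw [h1]
  exact (MulEquiv.irreducible_iff (algEquivAevalXAddC t)).2 hP

/-- the facts on the pencil which follow from the irreducibility of its members -/
lemma pencil_facts {a b : ℤ[X]} (ha : a ≠ 0) {y0 : ℕ}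
    (hirr : ∀ y : ℕ, y0 ≤ y → Irreducible (a * C (y : ℤ) + b))
    (hnc : ∀ y : ℕ, y0 ≤ y → (a * C (y : ℤ) + b).natDegree ≠ 0) :
    (∃ (R : ℤ) (U V : ℤ[X]), R ≠ 0 ∧ a * U + b * V = C R) ∧
    (a.natDegree ≠ 0 ∨ b.natDegree ≠ 0) := by
  constructor
  · set P := a * C (y0 : ℤ) + b with hP
    set Q := a * C ((y0 + 1 : ℕ) : ℤ) + b with hQ
    have hP1 := hirr y0 le_rfl
    have hQ1 := hirr (y0 + 1) (by omega)
    have hPd := hnc y0 le_rfl
    rw [← hP] at hP1 hPd
    rw [← hQ] at hQ1
    have hdiff : Q - P = a := by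
      rw [hP, hQ]
      push_cast
      rw [map_add, C_1]
      ring
    by_cases hdvd : P ∣ Q
    · exfalso
      have hass : Associated P Q := by
        obtain ⟨u, hu⟩ := hdvd
        rcases hQ1.isUnit_or_isUnit hu with h | h
        · exact absurd h hP1.not_isUnit
        · obtain ⟨u', hu'⟩ := h
          exact ⟨u', by rw [hu', hu]⟩
      obtain ⟨u, hu⟩ := hass
      obtain ⟨r, hr, hru⟩ := Polynomial.isUnit_iff.1 u.isUnit
      have hQr : Q = P * C r := by rw [← hu, hru]
      rcases Int.isUnit_iff.1 hr with h | h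
      · rw [h, C_1, mul_one] at hQr
        apply ha
        rw [← hdiff, hQr, sub_self]
      · -- `Q = -P`, so the next member is `-3P`
        have h3 := hirr (y0 + 2) (by omega)
        have e : a * C ((y0 + 2 : ℕ) : ℤ) + b = P * C (-3) := by
          have e1 : a * C ((y0 + 2 : ℕ) : ℤ) + b = Q + a := by
            rw [hQ]
            push_cast
            rw [map_add, map_add, C_1]
            have : (C (2 : ℤ) : ℤ[X]) = 1 + 1 := by
              rw [show (2 : ℤ) = 1 + 1 by norm_num, map_add, C_1]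
            rw [this]
            ring
          rw [e1, ← hdiff, hQr, h]
          have : (C (-3 : ℤ) : ℤ[X]) = C (-1) + C (-1) - 1 := by
            rw [show (-3 : ℤ) = -1 + -1 - 1 by norm_num, map_sub, map_add, C_1]
          rw [this]
          ring
        rw [e] at h3
        rcases h3.isUnit_or_isUnit rfl with g | g
        · exact hP1.not_isUnit g
        · rw [Polynomial.isUnit_C, Int.isUnit_iff] at g
          omega
    · obtain ⟨R, U, V, hR, hUV⟩ := exists_bezout hP1 hPd hdvd
      refine ⟨R, U * C (y0 : ℤ) + V * C ((y0 + 1 : ℕ) : ℤ), U + V, hR, ?_⟩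
      rw [← hUV, hP, hQ]
      ring
  · by_contra hcon
    push Not at hcon
    apply hnc y0 le_rfl
    have h1 : (a * C (y0 : ℤ) + b).natDegree ≤ 0 := by
      refine (natDegree_add_le _ _).trans ?_
      have := natDegree_mul_C_le a (y0 : ℤ)
      exact max_le (by omega) (by omega)
    omega

end Pool.Agent.PD
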