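import Pool.Agent.Lib.MP_0da313_nt.MT.Orient

set_option autoImplicit false

/-!
Local densities of the pencil `a(s) k + b(s)` and their averages.
-/

open Finset Polynomial

namespace Pool.Agent.PD

open Pool.Agent.MP89da58 Pool.Agent.Lib.MP_0da313_nt Pool.Agent.MT

/-- primes up to `z` -/
def Pr (z : ℕ) : Finset ℕ := (Icc 1 z).filter Nat.Prime

lemma mem_Pr {z p : ℕ} : p ∈ Pr z ↔ p.Prime ∧ p ≤ z := by
  unfold Pr
  rw [Finset.mem_filter, Finset.mem_Icc]
  constructor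
  · rintro ⟨⟨_, h1⟩, h2⟩; exact ⟨h2, h1⟩
  · rintro ⟨h1, h2⟩; exact ⟨⟨h1.one_le, h2⟩, h1⟩

/-- sums of products of periodic functions, two coprime moduli -/
lemma sum_coprime {a b : ℕ} (ha : a ≠ 0) (hb : b ≠ 0) (hab : a.Coprime b) (f g : ℕ → ℝ)
    (hf : ∀ x, f (x % a) = f x) (hg : ∀ x, g (x % b) = g x) :
    ∑ x ∈ range (a * b), f x * g x = (∑ x ∈ range a, f x) * ∑ x ∈ range b, g x := by
  rw [Finset.sum_mul_sum, ← Finset.sum_product']
  apply Finset.sum_nbij' (fun x => (x % a, x % b))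
    (fun y => ((Nat.chineseRemainder hab y.1 y.2 : { k // k ≡ y.1 [MOD a] ∧ k ≡ y.2 [MOD b] }) : ℕ))
  · intro x _
    simp only [Finset.mem_product, Finset.mem_range]
    exact ⟨Nat.mod_lt _ (Nat.pos_of_ne_zero ha), Nat.mod_lt _ (Nat.pos_of_ne_zero hb)⟩
  · intro y hy
    simp only [Finset.mem_product, Finset.mem_range] at hy ⊢
    exact Nat.chineseRemainder_lt_mul hab _ _ ha hb
  · intro x hx
    simp only [Finset.mem_range] at hx
    obtain ⟨h1, h2⟩ := (Nat.chineseRemainder hab (x % a) (x % b)).2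
    have h3 := Nat.chineseRemainder_lt_mul hab (x % a) (x % b) ha hb
    have h4 : ((Nat.chineseRemainder hab (x % a) (x % b) :
        { k // k ≡ x % a [MOD a] ∧ k ≡ x % b [MOD b] }) : ℕ) ≡ x [MOD a * b] := by
      rw [← Nat.modEq_and_modEq_iff_modEq_mul hab]
      exact ⟨h1.trans (Nat.mod_modEq _ _), h2.trans (Nat.mod_modEq _ _)⟩
    exact Nat.ModEq.eq_of_lt_of_lt h4 h3 hx
  · intro y hy
    simp only [Finset.mem_product, Finset.mem_range] at hy
    obtain ⟨h1, h2⟩ := (Nat.chineseRemainder hab y.1 y.2).2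
    apply Prod.ext
    · show _ % a = y.1
      rw [h1, Nat.mod_eq_of_lt hy.1]
    · show _ % b = y.2
      rw [h2, Nat.mod_eq_of_lt hy.2]
  · intro x _
    simp only [hf, hg]

/-- sums of products of periodic functions -/
lemma sum_prod_periodic (T : Finset ℕ) (hT : ∀ p ∈ T, p.Prime) (h : ℕ → ℕ → ℝ)
    (hper : ∀ p x, h p (x % p) = h p x) :
    ∑ x ∈ range (∏ p ∈ T, p), ∏ p ∈ T, h p x = ∏ p ∈ T, ∑ x ∈ range p, h p x := by
  induction T using Finset.induction_on with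
  | empty => simp
  | insert p T hp ih =>
    have ih := ih (fun q hq => hT q (Finset.mem_insert_of_mem hq))
    have hpp := hT p (Finset.mem_insert_self _ _)
    have hcop : p.Coprime (∏ q ∈ T, q) := by
      apply Nat.Coprime.prod_right
      intro q hq
      rw [Nat.coprime_primes hpp (hT q (Finset.mem_insert_of_mem hq))]
      rintro rfl
      exact hp hq
    have hne : ∏ q ∈ T, q ≠ 0 := by
      rw [Finset.prod_ne_zero_iff]
      intro q hq
      exact (hT q (Finset.mem_insert_of_mem hq)).ne_zero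
    rw [Finset.prod_insert hp, Finset.prod_insert hp, ← ih,
      ← sum_coprime hpp.ne_zero hne hcop (h p) (fun x => ∏ q ∈ T, h q x) (hper p)]
    · apply Finset.sum_congr rfl
      intro x _
      rw [Finset.prod_insert hp]
    · intro x
      apply Finset.prod_congr rfl
      intro q hq
      rw [← hper q (x % _), Nat.mod_mod_of_dvd _ (Finset.dvd_prod_of_mem _ hq), hper]

/-- `∏ (1 + K/p²)` is bounded -/
lemma prod_sq_le {K : ℝ} (hK : 0 ≤ K) (w : ℕ) :
    ∏ p ∈ Pr w, (1 + K / (p : ℝ) ^ 2) ≤ Real.exp K := by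
  have h1 : ∏ p ∈ Pr w, (1 + K / (p : ℝ) ^ 2) ≤ ∏ p ∈ Pr w, Real.exp (K / (p : ℝ) ^ 2) := by
    apply Finset.prod_le_prod
    · intro p _; positivity
    · intro p _
      have := Real.add_one_le_exp (K / (p : ℝ) ^ 2)
      linarith
  rw [← Real.exp_sum] at h1
  refine h1.trans (Real.exp_le_exp.2 ?_)
  have h2 : ∑ p ∈ Pr w, K / (p : ℝ) ^ 2 ≤ ∑ p ∈ Ioc 1 (w + 1), K * ((p : ℝ) ^ 2)⁻¹ := by
    have e : ∑ p ∈ Pr w, K / (p : ℝ) ^ 2 = ∑ p ∈ Pr w, K * ((p : ℝ) ^ 2)⁻¹ := by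
      apply Finset.sum_congr rfl
      intro p _
      rw [div_eq_mul_inv]
    rw [e]
    apply Finset.sum_le_sum_of_subset_of_nonneg
    · intro p hp
      rw [mem_Pr] at hp
      rw [Finset.mem_Ioc]
      exact ⟨hp.1.one_lt, by omega⟩
    · intro p _ _; (clear * - hK; positivity)
  rw [← Finset.mul_sum] at h2
  have h3 := sum_Ioc_inv_sq_le_sub (α := ℝ) (k := 1) (n := w + 1) one_ne_zero (by omega)
  have h4 : (0 : ℝ) ≤ ((w + 1 : ℕ) : ℝ)⁻¹ := by positivity
  have h5 : ∑ i ∈ Ioc 1 (w + 1), (((i : ℕ) : ℝ) ^ 2)⁻¹ ≤ 1 := by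
    refine h3.trans ?_
    simp only [Nat.cast_one, inv_one]
    linarith only [h4]
  nlinarith only [h2, hK, h3, h4]

/-- the data of the pencil -/
structure Dat (a b c : ℤ[X]) (δ : ℕ) : Prop where
  ha : a ≠ 0
  cop : ∀ s : ℕ, IsCoprime (a.eval (s : ℤ)) (b.eval (s : ℤ))
  det : ∃ s0 : ℕ, ∀ s s' : ℕ, s0 ≤ s → s0 ≤ s' → s ≠ s' →
    a.eval (s : ℤ) * b.eval (s' : ℤ) - a.eval (s' : ℤ) * b.eval (s : ℤ) ≠ 0
  hc : (c = 1 ∧ δ = 0) ∨ (δ = 1 ∧ ∃ α β : ℤ, α ≠ 0 ∧ IsCoprime α β ∧ c = C α * X + C β)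

/-- number of `s` mod `p` with `p ∣ c(s) (a(s) k + b(s))` -/
noncomputable def nu (a b c : ℤ[X]) (p k : ℕ) : ℕ :=
  ((range p).filter (fun s : ℕ => (p : ℤ) ∣ c.eval (s : ℤ) * (a.eval (s : ℤ) * k + b.eval (s : ℤ)))).card

/-- number of `k` mod `p` with `p ∣ (a(s) k + b(s)) (a(s') k + b(s'))` -/
noncomputable def omg (a b : ℤ[X]) (p s s' : ℕ) : ℕ :=
  ((range p).filter (fun k : ℕ => (p : ℤ) ∣ (a.eval (s : ℤ) * k + b.eval (s : ℤ)) *
    (a.eval (s' : ℤ) * k + b.eval (s' : ℤ)))).card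

variable {a b c : ℤ[X]} {δ : ℕ}

lemma exists_large_ne {G : ℤ[X]} (hG : G ≠ 0) : ∃ s1 : ℕ, ∀ s : ℕ, s1 ≤ s → G.eval (s : ℤ) ≠ 0 := by
  classical
  obtain ⟨M, hM⟩ : ∃ M : ℕ, ∀ r ∈ G.roots.toFinset, r.natAbs ≤ M :=
    ⟨G.roots.toFinset.sup Int.natAbs, fun r hr => Finset.le_sup (f := Int.natAbs) hr⟩
  refine ⟨M + 1, fun s hs h => ?_⟩
  have := hM (s : ℤ) (by rw [Multiset.mem_toFinset, mem_roots hG]; exact h)
  simp only [Int.natAbs_natCast] at this
  omega

lemma Dat.c_ne (h : Dat a b c δ) : c ≠ 0 := by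
  rcases h.hc with ⟨h1, _⟩ | ⟨_, α, β, hα, _, h1⟩
  · rw [h1]; exact one_ne_zero
  · rw [h1]
    intro h0
    have h2 := natDegree_linear (b := β) hα
    rw [h0] at h2
    simp at h2

lemma Dat.c_deg (h : Dat a b c δ) : c.natDegree ≤ 1 := by
  rcases h.hc with ⟨h1, _⟩ | ⟨_, α, β, hα, _, h1⟩
  · rw [h1]; simp
  · rw [h1]; exact natDegree_linear_le

lemma Dat.δ_le (h : Dat a b c δ) : δ ≤ 1 := by
  rcases h.hc with ⟨_, h2⟩ | ⟨h2, _⟩ <;> omega

/-- for a large prime the number of roots is bounded, uniformly in `k` -/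
lemma Dat.nu_le (h : Dat a b c δ) : ∃ P1 D : ℕ, 2 ≤ D ∧ ∀ p : ℕ, p.Prime → P1 < p → ∀ k : ℕ,
    nu a b c p k ≤ D := by
  obtain ⟨s0, hs0⟩ := h.det
  obtain ⟨s1, hs1⟩ := exists_large_ne h.c_ne
  set u : ℕ := max s0 s1 with hu
  have hd := hs0 u (u + 1) (by omega) (by omega) (by omega)
  have hc1 := hs1 u (by omega)
  have hc2 := hs1 (u + 1) (by omega)
  set Δ := a.eval (u : ℤ) * b.eval ((u + 1 : ℕ) : ℤ) - a.eval ((u + 1 : ℕ) : ℤ) * b.eval (u : ℤ) with hΔ
  refine ⟨Δ.natAbs + (c.eval (u : ℤ)).natAbs + (c.eval ((u + 1 : ℕ) : ℤ)).natAbs,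
    a.natDegree + b.natDegree + 2, by omega, ?_⟩
  intro p hp hpP k
  have hnd : ∀ z : ℤ, z ≠ 0 → z.natAbs < p → ¬ (p : ℤ) ∣ z := by
    intro z hz hzp hdiv
    have := Nat.le_of_dvd (Int.natAbs_pos.2 hz) (Int.natCast_dvd.1 hdiv)
    omega
  have hpz : Prime (p : ℤ) := Nat.prime_iff_prime_int.1 hp
  set G : ℤ[X] := c * (a * C (k : ℤ) + b) with hG
  have hGe : ∀ s : ℤ, G.eval s = c.eval s * (a.eval s * k + b.eval s) := by
    intro s; rw [hG]; simp
  have hdeg : G.natDegree ≤ a.natDegree + b.natDegree + 2 := by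
    rw [hG]
    refine (natDegree_mul_le).trans ?_
    have h1 := h.c_deg
    have h2 : (a * C (k : ℤ) + b).natDegree ≤ a.natDegree + b.natDegree := by
      refine (natDegree_add_le _ _).trans ?_
      have := natDegree_mul_C_le a (k : ℤ)
      exact max_le (by omega) (by omega)
    omega
  have hne : ¬ ∀ x : ℤ, (p : ℤ) ∣ G.eval x := by
    intro hall
    have e1 := hall (u : ℤ)
    have e2 := hall ((u + 1 : ℕ) : ℤ)
    rw [hGe] at e1 e2
    rcases hpz.dvd_or_dvd e1 with h1 | h1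
    · exact hnd _ hc1 (by omega) h1
    rcases hpz.dvd_or_dvd e2 with h2 | h2
    · exact hnd _ hc2 (by omega) h2
    apply hnd Δ hd (by omega)
    have e3 : Δ = a.eval (u : ℤ) * (a.eval ((u + 1 : ℕ) : ℤ) * k + b.eval ((u + 1 : ℕ) : ℤ)) -
      a.eval ((u + 1 : ℕ) : ℤ) * (a.eval (u : ℤ) * k + b.eval (u : ℤ)) := by rw [hΔ]; ring
    rw [e3]
    exact dvd_sub (h2.mul_left _) (h1.mul_left _)
  have := card_roots_mod_le G p _ hp hdeg hne
  unfold nu
  refine le_trans (le_of_eq ?_) this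
  congr 1
  apply Finset.filter_congr
  intro s _
  rw [hGe]

/-- lower bound for the mean of `nu` -/
lemma Dat.sum_nu (h : Dat a b c δ) : ∃ P1 C1 : ℕ, ∀ p : ℕ, p.Prime → P1 < p →
    (1 + δ) * p ≤ ∑ k ∈ range p, nu a b c p k + C1 := by
  obtain ⟨s1, hs1⟩ := exists_large_ne h.ha
  have hane := hs1 s1 le_rfl
  -- the constant for `c`
  obtain ⟨A, hA⟩ : ∃ A : ℕ, ∀ p : ℕ, p.Prime → A < p →
      ((range p).filter (fun s : ℕ => (p : ℤ) ∣ c.eval (s : ℤ))).card = δ := by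
    rcases h.hc with ⟨h1, h2⟩ | ⟨h2, α, β, hα, hαβ, h1⟩
    · refine ⟨0, fun p hp _ => ?_⟩
      rw [h1, h2, Finset.card_eq_zero, Finset.filter_eq_empty_iff]
      intro s _ hd
      rw [eval_one] at hd
      have := Int.natCast_dvd.1 hd
      simp only [Int.natAbs_one, Nat.dvd_one] at this
      exact hp.one_lt.ne' this
    · refine ⟨α.natAbs, fun p hp hpA => ?_⟩
      rw [h1, h2]
      have := card_root_lin hαβ hp
      rw [if_neg (fun hd => by
        have := Nat.le_of_dvd (Int.natAbs_pos.2 hα) hd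
        omega)] at this
      rw [← this]
      congr 1
      apply Finset.filter_congr
      intro s _
      simp
  refine ⟨A + (a.eval (s1 : ℤ)).natAbs, δ + a.natDegree, fun p hp hpA => ?_⟩
  have hcA := hA p hp (by omega)
  have hroots : ((range p).filter (fun s : ℕ => (p : ℤ) ∣ a.eval (s : ℤ))).card ≤ a.natDegree := by
    apply card_roots_mod_le a p _ hp le_rfl
    intro hall
    have := Nat.le_of_dvd (Int.natAbs_pos.2 hane) (Int.natCast_dvd.1 (hall (s1 : ℤ)))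
    omega
  -- double counting
  have hdc : ∑ k ∈ range p, nu a b c p k = ∑ s ∈ range p,
      ((range p).filter (fun k : ℕ => (p : ℤ) ∣ c.eval (s : ℤ) *
        (a.eval (s : ℤ) * k + b.eval (s : ℤ)))).card := by
    unfold nu
    simp only [Finset.card_filter]
    rw [Finset.sum_comm]
  rw [hdc]
  have hterm : ∀ s ∈ range p, (if (p : ℤ) ∣ c.eval (s : ℤ) then p else
      if (p : ℤ) ∣ a.eval (s : ℤ) then 0 else 1) ≤
      ((range p).filter (fun k : ℕ => (p : ℤ) ∣ c.eval (s : ℤ) *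
        (a.eval (s : ℤ) * k + b.eval (s : ℤ)))).card := by
    intro s _
    split_ifs with h1 h2
    · rw [Finset.filter_true_of_mem (fun k _ => h1.mul_right _), Finset.card_range]
    · exact Nat.zero_le _
    · have h3 := card_root_lin (h.cop s) hp
      rw [if_neg (fun hd => h2 (Int.natCast_dvd.2 hd))] at h3
      rw [← h3]
      apply Finset.card_le_card
      intro k hk
      rw [Finset.mem_filter] at hk ⊢
      exact ⟨hk.1, hk.2.mul_left _⟩
  have h4 := Finset.sum_le_sum hterm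
  have h5 : (1 + δ) * p ≤ ∑ s ∈ range p, (if (p : ℤ) ∣ c.eval (s : ℤ) then p else
      if (p : ℤ) ∣ a.eval (s : ℤ) then 0 else 1) + (δ + a.natDegree) := by
    have e1 : ∀ s ∈ range p, (if (p : ℤ) ∣ c.eval (s : ℤ) then p else 0) + 1 ≤
        (if (p : ℤ) ∣ c.eval (s : ℤ) then p else
        if (p : ℤ) ∣ a.eval (s : ℤ) then 0 else 1) +
        ((if (p : ℤ) ∣ c.eval (s : ℤ) then 1 else 0) +
          (if (p : ℤ) ∣ a.eval (s : ℤ) then 1 else 0)) := by
      intro s _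
      split_ifs <;> omega
    have e2 := Finset.sum_le_sum e1
    simp only [Finset.sum_add_distrib, ← Finset.card_filter] at e2
    have e3 : ∑ s ∈ range p, (if (p : ℤ) ∣ c.eval (s : ℤ) then p else 0) = δ * p := by
      rw [← Finset.sum_filter, Finset.sum_const, hcA, smul_eq_mul]
    rw [e3, hcA] at e2
    simp only [Finset.sum_const, Finset.card_range, smul_eq_mul, mul_one] at e2
    have e4 : (1 + δ) * p = δ * p + p := by ring
    rw [e4]
    omega
  omega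

/-- the local mean value -/
theorem Dat.avg_local (h : Dat a b c δ) : ∃ K : ℝ, 0 ≤ K ∧ ∀ p : ℕ, p.Prime →
    ∑ k ∈ range p, (1 - (nu a b c p k : ℝ) / p) ^ 2 ≤
      p * ((1 - 1 / (p : ℝ)) ^ (2 * (1 + δ)) * (1 + K / (p : ℝ) ^ 2)) := by
  obtain ⟨P1, D, _, hD⟩ := h.nu_le
  obtain ⟨P2, C1, hC1⟩ := h.sum_nu
  have hδ := h.δ_le
  set K0 : ℝ := 2 * C1 + D ^ 2 with hK0
  set P3 : ℕ := max P1 P2 with hP3
  refine ⟨16 * (K0 + P3 ^ 2), by positivity, fun p hp => ?_⟩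
  have hp0 : (0 : ℝ) < p := by exact_mod_cast hp.pos
  have hp2 : (2 : ℝ) ≤ p := by exact_mod_cast hp.two_le
  have hinv : 1 / (p : ℝ) ≤ 1 / 2 := one_div_le_one_div_of_le (by norm_num) hp2
  have hinv0 : 0 < 1 / (p : ℝ) := by positivity
  set V : ℝ := (1 - 1 / (p : ℝ)) ^ (2 * (1 + δ)) with hV
  have hV16 : 1 / 16 ≤ V := by
    have h1 : (1 - 1 / (p : ℝ)) ^ 4 ≤ V :=
      pow_le_pow_of_le_one (by linarith only [hinv, hinv0]) (by linarith only [hinv0]) (by omega)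
    have h2 : (1 / 2 : ℝ) ^ 4 ≤ (1 - 1 / (p : ℝ)) ^ 4 :=
      pow_le_pow_left₀ (by norm_num) (by linarith only [hinv]) 4
    have h3 : (1 / 2 : ℝ) ^ 4 = 1 / 16 := by norm_num
    linarith only [h1, h2]
  have hVbern : 1 - 2 * (1 + δ) * (1 / (p : ℝ)) ≤ V := by
    have := one_add_mul_le_pow (a := -(1 / (p : ℝ))) (by linarith) (2 * (1 + δ))
    push_cast at this
    rw [hV]
    have e : (1 : ℝ) + -(1 / p) = 1 - 1 / p := by ring
    rw [e] at this
    linarith only [this]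
  have hnup : ∀ k, nu a b c p k ≤ p := by
    intro k
    have := Finset.card_le_card (Finset.filter_subset (fun s : ℕ => (p : ℤ) ∣ c.eval (s : ℤ) *
      (a.eval (s : ℤ) * k + b.eval (s : ℤ))) (range p))
    rwa [Finset.card_range] at this
  rcases le_or_gt p P3 with hle | hgt
  · have h1 : ∑ k ∈ range p, (1 - (nu a b c p k : ℝ) / p) ^ 2 ≤ ∑ _k ∈ range p, (1 : ℝ) := by
      apply Finset.sum_le_sum
      intro k _
      have e1 : (nu a b c p k : ℝ) / p ≤ 1 := by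
        rw [div_le_one hp0]; exact_mod_cast hnup k
      have e2 : 0 ≤ (nu a b c p k : ℝ) / p := by positivity
      nlinarith only [e2, hinv, hinv0, e1]
    rw [Finset.sum_const, Finset.card_range, nsmul_eq_mul] at h1
    refine h1.trans ?_
    apply mul_le_mul_of_nonneg_left _ hp0.le
    have h2 : (16 : ℝ) ≤ 1 + 16 * (K0 + P3 ^ 2) / (p : ℝ) ^ 2 := by
      have h3 : (p : ℝ) ^ 2 ≤ P3 ^ 2 := by
        apply pow_le_pow_left₀ hp0.le
        exact_mod_cast hle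
      have h4 : (16 : ℝ) ≤ 16 * (K0 + P3 ^ 2) / (p : ℝ) ^ 2 := by
        rw [le_div_iff₀ (by positivity)]
        have : 0 ≤ K0 := by positivity
        nlinarith
      linarith only [hinv, hinv0, h4]
    nlinarith only [hV16, h2, hinv, hinv0]
  · have h1 := hC1 p hp (by omega)
    have hD' : ∀ k, (nu a b c p k : ℝ) ≤ D := fun k => by exact_mod_cast hD p hp (by omega) k
    have hsum : (1 + δ : ℝ) * p - C1 ≤ ∑ k ∈ range p, (nu a b c p k : ℝ) := by
      have : (((1 + δ) * p : ℕ) : ℝ) ≤ ((∑ k ∈ range p, nu a b c p k + C1 : ℕ) : ℝ) := by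
        exact_mod_cast h1
      push_cast at this
      linarith only [this]
    have h2 : ∑ k ∈ range p, (1 - (nu a b c p k : ℝ) / p) ^ 2 ≤
        ∑ k ∈ range p, (1 - 2 / p * (nu a b c p k : ℝ) + D ^ 2 / p ^ 2) := by
      apply Finset.sum_le_sum
      intro k _
      have e1 : (nu a b c p k : ℝ) ^ 2 ≤ D ^ 2 := pow_le_pow_left₀ (by positivity) (hD' k) 2
      have e2 : (nu a b c p k : ℝ) ^ 2 / p ^ 2 ≤ D ^ 2 / p ^ 2 := by gcongr
      calc (1 - (nu a b c p k : ℝ) / p) ^ 2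
          = 1 - 2 / p * (nu a b c p k : ℝ) + (nu a b c p k : ℝ) ^ 2 / p ^ 2 := by ring
        _ ≤ _ := by linarith only [e2]
    refine h2.trans ?_
    rw [Finset.sum_add_distrib, Finset.sum_sub_distrib, ← Finset.mul_sum]
    simp only [Finset.sum_const, Finset.card_range, nsmul_eq_mul, mul_one]
    have h3 : 2 / (p : ℝ) * ((1 + δ : ℝ) * p - C1) ≤ 2 / p * ∑ k ∈ range p, (nu a b c p k : ℝ) :=
      mul_le_mul_of_nonneg_left hsum (by positivity)
    have h4 : (p : ℝ) - 2 / p * ((1 + δ : ℝ) * p - C1) + p * (D ^ 2 / p ^ 2) =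
        p * ((1 - 2 * (1 + δ) * (1 / (p : ℝ))) + K0 / p ^ 2) := by
      rw [hK0]
      field_simp
      ring
    have h5 : K0 / (p : ℝ) ^ 2 ≤ V * (16 * (K0 + P3 ^ 2) / (p : ℝ) ^ 2) := by
      have e1 : 0 ≤ 16 * (K0 + P3 ^ 2) / (p : ℝ) ^ 2 := by positivity
      have e2 : K0 / (p : ℝ) ^ 2 ≤ 1 / 16 * (16 * (K0 + P3 ^ 2) / (p : ℝ) ^ 2) := by
        have : 1 / 16 * (16 * (K0 + P3 ^ 2) / (p : ℝ) ^ 2) = (K0 + P3 ^ 2) / (p : ℝ) ^ 2 := by ring
        rw [this]
        gcongr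
        have : (0 : ℝ) ≤ (P3 : ℝ) ^ 2 := by (clear * -; positivity)
        linarith only [this]
      nlinarith only [e2, hinv, hinv0, hV16, e1]
    calc _ ≤ (p : ℝ) - 2 / p * ((1 + δ : ℝ) * p - C1) + p * (D ^ 2 / p ^ 2) := by linarith only [h3]
      _ = p * ((1 - 2 * (1 + δ) * (1 / (p : ℝ))) + K0 / p ^ 2) := h4
      _ ≤ p * (V * (1 + 16 * (K0 + P3 ^ 2) / (p : ℝ) ^ 2)) := by
        apply mul_le_mul_of_nonneg_left _ hp0.le
        rw [mul_add, mul_one]
        linarith only [hVbern, h5]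

end Pool.Agent.PD
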