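import Pool.Agent.Lib.MP_0da313_nt.PD.Alg
import Pool.Agent.Lib.MP_0da313_nt.PD.Avg

set_option autoImplicit false

/-!
From an admissible family to the data of the pencil.
-/

open Finset Polynomial Filter

namespace Pool.Agent.PD

open Pool.Agent.Lib.MP_0da313_nt

variable {m : ℕ} {f : Fin m → MvPolynomial (Fin 2) ℤ} {u v : ℕ}

/-- the member on the line `x + y = (u + v) t` in the coordinate `s` -/
lemma eval_shift (g : MvPolynomial (Fin 2) ℤ) (u v t : ℕ) (s : ℤ) :
    ((lineRestrict g ((u + v) * t)).comp (X + C ((u * t : ℕ) : ℤ))).eval s =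
      val g (u * t + s) (v * t - s) := by
  rw [eval_comp, eval_lineRestrict]
  simp only [eval_add, eval_X, eval_C]
  push_cast
  congr 1
  · ring
  · ring

lemma poly_eq_of_eval {P Q : ℤ[X]} (h : ∀ s : ℤ, P.eval s = Q.eval s) : P = Q :=
  Polynomial.funext h

/-- no constant members -/
lemma not_const (hf : Admissible f) (huv : 0 < u + v) (k₀ : Fin m) : ∃ t0 : ℕ, ∀ t : ℕ, t0 ≤ t →
    ∀ P : ℤ[X], (∀ s : ℤ, P.eval s = val (f k₀) (u * t + s) (v * t - s)) →
    Irreducible P ∧ P.natDegree ≠ 0 := by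
  obtain ⟨N₀, hN₀⟩ := hf
  refine ⟨N₀, fun t ht P hP => ?_⟩
  have hn : N₀ ≤ (u + v) * t := by nlinarith
  obtain ⟨h1, h2⟩ := hN₀ _ hn
  have hPe : P = (lineRestrict (f k₀) ((u + v) * t)).comp (X + C ((u * t : ℕ) : ℤ)) :=
    poly_eq_of_eval fun s => by rw [hP, eval_shift]
  have hirr : Irreducible P := by
    rw [hPe]
    exact irreducible_comp_add (h1 k₀) _
  refine ⟨hirr, fun hdeg => ?_⟩
  obtain ⟨r, hr⟩ := natDegree_eq_zero.1 hdeg
  have hrp : r.natAbs.Prime := by
    rw [← hr, irreducible_iff_prime, Polynomial.prime_C_iff] at hirr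
    exact Int.prime_iff_natAbs_prime.1 hirr
  apply h2 _ hrp
  intro x
  refine dvd_trans ?_ (Finset.dvd_prod_of_mem _ (Finset.mem_univ k₀))
  have h3 := hP (x - u * t)
  rw [← hr, eval_C] at h3
  have h4 : (lineRestrict (f k₀) ((u + v) * t)).eval x = r := by
    rw [h3, eval_lineRestrict]
    push_cast
    congr 1
    · ring
    · ring
  rw [h4]
  exact Int.natCast_natAbs r ▸ (abs_dvd_self r)

/-- local solubility -/
lemma local_point (hf : Admissible f) (huv : 0 < u + v) {p : ℕ} (hp : p.Prime) :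
    ∃ (s : ℤ) (t : ℕ), ¬ (p : ℤ) ∣ ∏ k, val (f k) (u * t + s) (v * t - s) := by
  obtain ⟨N₀, hN₀⟩ := hf
  have hn : N₀ ≤ (u + v) * N₀ := by nlinarith
  obtain ⟨_, h2⟩ := hN₀ _ hn
  have h3 := h2 p hp
  push Not at h3
  obtain ⟨x, hx⟩ := h3
  refine ⟨x - u * N₀, N₀, fun hd => hx ?_⟩
  have e : ∀ k, (lineRestrict (f k) ((u + v) * N₀)).eval x =
      val (f k) (u * N₀ + (x - u * N₀)) (v * N₀ - (x - u * N₀)) := by
    intro k
    rw [eval_lineRestrict]
    push_cast
    congr 1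
    · ring
    · ring
  rw [Finset.prod_congr rfl (fun k _ => e k)]
  exact hd

lemma eval_mod {p : ℕ} (G : ℤ[X]) {x y : ℤ} (h : (p : ℤ) ∣ x - y) :
    (p : ℤ) ∣ G.eval x ↔ (p : ℤ) ∣ G.eval y := by
  have h1 := (h.trans (Polynomial.sub_dvd_eval_sub x y G))
  constructor
  · intro h2
    have := dvd_sub h2 h1
    simpa using this
  · intro h2
    have := dvd_add h1 h2
    simpa using this

lemma isCoprime_of_prime {x y : ℤ} (h : ∀ p : ℕ, p.Prime → (p : ℤ) ∣ x → ¬ (p : ℤ) ∣ y) :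
    IsCoprime x y := by
  rw [Int.isCoprime_iff_gcd_eq_one]
  by_contra hne
  obtain ⟨p, hp, hpd⟩ := Nat.exists_prime_and_dvd hne
  have h1 : (p : ℤ) ∣ (Int.gcd x y : ℤ) := by exact_mod_cast hpd
  exact h p hp (h1.trans (Int.gcd_dvd_left x y)) (h1.trans (Int.gcd_dvd_right x y))

/-- the data of the pencil, after passing to a progression -/
theorem exists_dat {a b c : ℤ[X]} {δ : ℕ} {σ : ℤ} (hσ : σ = 1 ∨ σ = -1) (ha : a ≠ 0)
    (hbez : ∃ (R : ℤ) (U V : ℤ[X]), R ≠ 0 ∧ a * U + b * V = C R)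
    (hnc : a.natDegree ≠ 0 ∨ b.natDegree ≠ 0)
    (hc : (c = 1 ∧ δ = 0) ∨ (δ = 1 ∧ ∃ α β : ℤ, α ≠ 0 ∧ c = C α * X + C β))
    (hloc : ∀ p : ℕ, p.Prime → ∃ s t : ℤ, ¬ (p : ℤ) ∣ c.eval s * (a.eval s * t + b.eval s)) :
    ∃ M s1 : ℕ, 1 ≤ M ∧ Dat (a.comp (C (σ * M) * X + C (σ * s1)))
      (b.comp (C (σ * M) * X + C (σ * s1))) (c.comp (C (σ * M) * X + C (σ * s1))) δ := by
  classical
  obtain ⟨R, U, V, hR, hUV⟩ := hbez
  have hσ2 : σ * σ = 1 := by rcases hσ with h | h <;> rw [h] <;> norm_num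
  have hσ0 : σ ≠ 0 := by rcases hσ with h | h <;> rw [h] <;> norm_num
  set M : ℕ := R.natAbs with hM
  have hM1 : 1 ≤ M := Int.natAbs_pos.2 hR
  have hMz : (M : ℤ) ≠ 0 := by exact_mod_cast (by omega : M ≠ 0)
  -- the residue class
  have hres : ∀ p : ℕ, ∃ r : ℕ, p.Prime → ∃ t : ℤ,
      ¬ (p : ℤ) ∣ c.eval (σ * r) * (a.eval (σ * r) * t + b.eval (σ * r)) := by
    intro p
    by_cases hp : p.Prime
    · obtain ⟨s, t, hst⟩ := hloc p hp
      have hp0 : (0 : ℤ) < p := by exact_mod_cast hp.pos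
      refine ⟨((σ * s) % p).toNat, fun _ => ⟨t, fun hd => hst ?_⟩⟩
      have e1 : ((((σ * s) % p).toNat : ℕ) : ℤ) = (σ * s) % p :=
        Int.toNat_of_nonneg (Int.emod_nonneg _ hp0.ne')
      rw [e1] at hd
      have e2 : (p : ℤ) ∣ s - σ * ((σ * s) % p) := by
        have h1 : (p : ℤ) ∣ σ * s - (σ * s) % p := Int.dvd_self_sub_emod
        have h2 := h1.mul_left σ
        have e : σ * (σ * s - (σ * s) % p) = s - σ * ((σ * s) % p) := by
          rw [mul_sub, ← mul_assoc, hσ2, one_mul]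
        rwa [e] at h2
      have h3 := eval_mod (c * (a * C t + b)) e2
      simp only [eval_mul, eval_add, eval_C] at h3
      exact h3.2 hd
    · exact ⟨0, fun h => absurd h hp⟩
  choose r hr using hres
  obtain ⟨s1, hs1⟩ := Nat.chineseRemainderOfFinset r (fun p => p) M.primeFactors
    (fun p hp => (Nat.prime_of_mem_primeFactors hp).ne_zero)
    (fun p hp q hq hpq => (Nat.coprime_primes (Nat.prime_of_mem_primeFactors hp)
      (Nat.prime_of_mem_primeFactors hq)).2 hpq)
  have hgood : ∀ p : ℕ, p.Prime → (p : ℤ) ∣ (M : ℤ) → ∀ t' : ℤ, ∃ t : ℤ,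
      ¬ (p : ℤ) ∣ c.eval (σ * (M * t' + s1)) * (a.eval (σ * (M * t' + s1)) * t +
        b.eval (σ * (M * t' + s1))) := by
    intro p hp hpM t'
    have hpm : p ∈ M.primeFactors := by
      rw [Nat.mem_primeFactors]
      exact ⟨hp, by exact_mod_cast hpM, by omega⟩
    obtain ⟨t, ht⟩ := hr p hp
    refine ⟨t, fun hd => ht ?_⟩
    have h1 := hs1 p hpm
    have h2 : (p : ℤ) ∣ (s1 : ℤ) - r p := by
      have := (Int.natCast_modEq_iff.2 h1).symm.dvd
      exact this
    have h3 : (p : ℤ) ∣ σ * (M * t' + s1) - σ * r p := by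
      have e : σ * ((M : ℤ) * t' + s1) - σ * r p = σ * (M * t' + (s1 - r p)) := by ring
      rw [e]
      exact (dvd_add (hpM.mul_right _) h2).mul_left _
    have h4 := eval_mod (c * (a * C t + b)) h3
    simp only [eval_mul, eval_add, eval_C] at h4
    exact h4.1 hd
  have hev : ∀ (G : ℤ[X]) (t' : ℤ), (G.comp (C (σ * M) * X + C (σ * s1))).eval t' =
      G.eval (σ * (M * t' + s1)) := by
    intro G t'
    rw [eval_comp]
    simp only [eval_add, eval_mul, eval_C, eval_X]
    congr 1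
    ring
  have hlin : (C (σ * (M : ℤ)) * X + C (σ * (s1 : ℤ))).natDegree = 1 :=
    natDegree_linear (mul_ne_zero hσ0 hMz)
  have hcop : ∀ s : ℕ, IsCoprime ((a.comp (C (σ * M) * X + C (σ * s1))).eval (s : ℤ))
      ((b.comp (C (σ * M) * X + C (σ * s1))).eval (s : ℤ)) := by
    intro s
    rw [hev, hev]
    apply isCoprime_of_prime
    intro p hp h1 h2
    have h3 : (p : ℤ) ∣ R := by
      have := congrArg (fun G : ℤ[X] => G.eval (σ * (M * s + s1))) hUV
      simp only [eval_add, eval_mul, eval_C] at this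
      rw [← this]
      exact dvd_add (h1.mul_right _) (h2.mul_right _)
    have h4 : (p : ℤ) ∣ (M : ℤ) := by
      rw [hM, Int.natCast_natAbs]
      exact (dvd_abs _ _).2 h3
    obtain ⟨t, ht⟩ := hgood p hp h4 s
    exact ht ((dvd_add (h1.mul_right _) h2).mul_left _)
  refine ⟨M, s1, hM1, ?_, hcop, ?_, ?_⟩
  · intro h0
    rw [comp_eq_zero_iff] at h0
    rcases h0 with h | ⟨_, h⟩
    · exact ha h
    · have h2 := congrArg natDegree h
      rw [hlin, natDegree_C] at h2
      exact absurd h2 one_ne_zero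
  · -- determinants
    have key : ∀ s s' : ℕ, (a.comp (C (σ * M) * X + C (σ * s1))).eval (s : ℤ) *
        (b.comp (C (σ * M) * X + C (σ * s1))).eval (s' : ℤ) -
        (a.comp (C (σ * M) * X + C (σ * s1))).eval (s' : ℤ) *
        (b.comp (C (σ * M) * X + C (σ * s1))).eval (s : ℤ) = 0 →
        (a.comp (C (σ * M) * X + C (σ * s1))).eval (s : ℤ) ^ 2 =
        (a.comp (C (σ * M) * X + C (σ * s1))).eval (s' : ℤ) ^ 2 ∧
        (b.comp (C (σ * M) * X + C (σ * s1))).eval (s : ℤ) ^ 2 =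
        (b.comp (C (σ * M) * X + C (σ * s1))).eval (s' : ℤ) ^ 2 := by
      intro s s' h
      have c1 := hcop s
      have c2 := hcop s'
      generalize (a.comp (C (σ * M) * X + C (σ * s1))).eval (s : ℤ) = A at *
      generalize (b.comp (C (σ * M) * X + C (σ * s1))).eval (s : ℤ) = B at *
      generalize (a.comp (C (σ * M) * X + C (σ * s1))).eval (s' : ℤ) = A' at *
      generalize (b.comp (C (σ * M) * X + C (σ * s1))).eval (s' : ℤ) = B' at *
      have h' : A * B' = A' * B := by linarith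
      have d1 : A ∣ A' := c1.dvd_of_dvd_mul_right (Dvd.intro _ h')
      have d2 : A' ∣ A := c2.dvd_of_dvd_mul_right (Dvd.intro _ h'.symm)
      have d3 : B ∣ B' := c1.symm.dvd_of_dvd_mul_left (Dvd.intro_left _ h'.symm)
      have d4 : B' ∣ B := c2.symm.dvd_of_dvd_mul_left (Dvd.intro_left _ h')
      have e1 := Int.natAbs_eq_of_dvd_dvd d1 d2
      have e2 := Int.natAbs_eq_of_dvd_dvd d3 d4
      exact ⟨Int.natAbs_eq_iff_sq_eq.1 e1, Int.natAbs_eq_iff_sq_eq.1 e2⟩
    rcases hnc with h | h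
    · obtain ⟨t0, ht0⟩ := sq_inj (G := a.comp (C (σ * M) * X + C (σ * s1)))
        (by rw [natDegree_comp, hlin, mul_one]; exact h)
      exact ⟨t0, fun s s' h1 h2 h3 h4 => ht0 s s' h1 h2 h3 (key s s' h4).1⟩
    · obtain ⟨t0, ht0⟩ := sq_inj (G := b.comp (C (σ * M) * X + C (σ * s1)))
        (by rw [natDegree_comp, hlin, mul_one]; exact h)
      exact ⟨t0, fun s s' h1 h2 h3 h4 => ht0 s s' h1 h2 h3 (key s s' h4).2⟩
  · rcases hc with ⟨h1, h2⟩ | ⟨h1, α, β, hα, h2⟩
    · left
      exact ⟨by rw [h1, one_comp], h2⟩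
    · right
      refine ⟨h1, α * (σ * M), α * (σ * s1) + β, mul_ne_zero hα (mul_ne_zero hσ0 hMz), ?_, ?_⟩
      · apply isCoprime_of_prime
        intro p hp g1 g2
        have hpz : Prime (p : ℤ) := Nat.prime_iff_prime_int.1 hp
        have hce : ∀ s : ℤ, c.eval s = α * s + β := by intro s; rw [h2]; simp
        have hpσ : ¬ (p : ℤ) ∣ σ := by
          intro h
          have : (p : ℤ) ∣ 1 := by rw [← hσ2]; exact h.mul_right _
          exact hpz.not_dvd_one this
        rcases hpz.dvd_or_dvd g1 with g3 | g3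
        · have g4 : (p : ℤ) ∣ β := by
            have := dvd_sub g2 (g3.mul_right (σ * s1))
            simpa using this
          obtain ⟨s, t, hst⟩ := hloc p hp
          apply hst
          rw [hce]
          exact (dvd_add (g3.mul_right _) g4).mul_right _
        · rcases hpz.dvd_or_dvd g3 with g4 | g4
          · exact hpσ g4
          · obtain ⟨t, ht⟩ := hgood p hp g4 0
            apply ht
            rw [hce]
            apply Dvd.dvd.mul_right
            have e : α * (σ * ((M : ℤ) * 0 + s1)) + β = α * (σ * s1) + β := by ring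
            rw [e]
            exact g2
      · rw [h2]
        simp only [add_comp, mul_comp, C_comp, X_comp]
        simp only [map_mul, map_add]
        ring

end Pool.Agent.PD
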