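import Pool.Agent.Lib.MP_0da313_nt.MT.Card

set_option autoImplicit false

/-!
Lower bound for the number of primes `|a n + b|`, `N < n ≤ 2N`, for `|a|, |b| ≤ (log N)^C`.
-/

open Finset Filter

namespace Pool.Agent.PD

open Pool.Agent.MP89da58 Pool.Agent.BVall Pool.Agent.Lib.MP_0da313_nt Pool.Agent.MT

lemma OmL_ne_zero {X : ℝ} (hX0 : 0 < X) {P : ℕ} (hP : 0 < P) (h : OmL 4 X P ≠ 0) :
    3 / 4 * X < P ∧ (P : ℝ) < 129 / 100 * X := by
  have hP' : (0 : ℝ) < P := by exact_mod_cast hP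
  have h1 : |4 * Real.log (P / X)| < 1 := by
    by_contra h2
    push Not at h2
    apply h
    unfold OmL tri
    rw [max_eq_left (by linarith only [h2]), mul_zero]
  rw [abs_lt] at h1
  have h2 : Real.exp (-(1 / 4)) < P / X := by
    rw [← Real.lt_log_iff_exp_lt (by positivity)]
    linarith only [h1, h1.1]
  have h3 : (P : ℝ) / X < Real.exp (1 / 4) := by
    rw [← Real.log_lt_iff_lt_exp (by positivity)]
    linarith only [h1, h1.2]
  have h4 : (3 / 4 : ℝ) ≤ Real.exp (-(1 / 4)) := by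
    have := Real.add_one_le_exp (-(1 / 4) : ℝ)
    linarith only [this]
  have h5 : Real.exp (1 / 4) < 129 / 100 := by
    have e1 : Real.exp (1 / 4) ^ 4 = Real.exp 1 := by
      rw [← Real.exp_nat_mul]; norm_num
    have e2 := Real.exp_one_lt_d9
    by_contra hcon
    push Not at hcon
    have e3 : (129 / 100 : ℝ) ^ 4 ≤ Real.exp (1 / 4) ^ 4 :=
      pow_le_pow_left₀ (by norm_num) hcon 4
    rw [e1] at e3
    norm_num at e3
    linarith only [e2, e3]
  constructor
  · have := lt_of_le_of_lt h4 h2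
    rwa [lt_div_iff₀ hX0] at this
  · have := lt_trans h3 h5
    rwa [div_lt_iff₀ hX0] at this

lemma eventually_first (C : ℕ) (X1 : ℝ) : ∀ᶠ N : ℕ in atTop,
    X1 ≤ N ∧ 192 ≤ Real.log N ∧ 100 * (Real.log N) ^ C ≤ (N : ℝ) ^ (1 / 50 : ℝ) ∧
    8192 * (N : ℝ) ^ (11 / 20 : ℝ) * Real.log N ≤ N ∧ 100 ≤ (N : ℝ) := by
  have h0 : Tendsto (fun N : ℕ => (N : ℝ)) atTop atTop := tendsto_natCast_atTop_atTop
  have h1 : ∀ᶠ x : ℝ in atTop, 192 ≤ Real.log x :=
    Real.tendsto_log_atTop.eventually_ge_atTop _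
  have h2 : ∀ᶠ x : ℝ in atTop, 100 * (Real.log x) ^ C ≤ x ^ (1 / 50 : ℝ) := by
    have := isLittleO_log_rpow_rpow_atTop (C : ℝ) (show (0 : ℝ) < 1 / 50 by norm_num)
    have h3 := this.bound (show (0 : ℝ) < 1 / 100 by norm_num)
    filter_upwards [h3, eventually_ge_atTop (1 : ℝ)] with x hx hx1
    rw [Real.norm_of_nonneg (Real.rpow_nonneg (Real.log_nonneg hx1) _),
      Real.norm_of_nonneg (Real.rpow_nonneg (by linarith) _), Real.rpow_natCast] at hx
    linarith only [hx]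
  have h3 : ∀ᶠ x : ℝ in atTop, 8192 * x ^ (11 / 20 : ℝ) * Real.log x ≤ x := by
    have := isLittleO_log_rpow_atTop (show (0 : ℝ) < 9 / 20 by norm_num)
    have h3 := this.bound (show (0 : ℝ) < 1 / 8192 by norm_num)
    filter_upwards [h3, eventually_ge_atTop (1 : ℝ)] with x hx hx1
    rw [Real.norm_of_nonneg (Real.log_nonneg hx1),
      Real.norm_of_nonneg (Real.rpow_nonneg (by linarith) _)] at hx
    have e : x = x ^ (11 / 20 : ℝ) * x ^ (9 / 20 : ℝ) := by
      rw [← Real.rpow_add (by linarith)]; norm_num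
    have h4 : 0 ≤ x ^ (11 / 20 : ℝ) := Real.rpow_nonneg (by linarith only [hx1]) _
    calc 8192 * x ^ (11 / 20 : ℝ) * Real.log x
        ≤ 8192 * x ^ (11 / 20 : ℝ) * (1 / 8192 * x ^ (9 / 20 : ℝ)) := by gcongr
      _ = x ^ (11 / 20 : ℝ) * x ^ (9 / 20 : ℝ) := by ring
      _ = x := e.symm
  have h4 := h0.eventually (h1.and (h2.and h3))
  filter_upwards [h4, h0.eventually (eventually_ge_atTop X1), eventually_ge_atTop 100] with N hN hN2 hN3
  exact ⟨hN2, hN.1, hN.2.1, hN.2.2, by exact_mod_cast hN3⟩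

theorem first_moment (C : ℕ) : ∀ᶠ N : ℕ in atTop, ∀ a b : ℤ, a ≠ 0 → IsCoprime a b →
    (|a| : ℝ) ≤ (Real.log N) ^ C → (|b| : ℝ) ≤ (Real.log N) ^ C →
    (N : ℝ) / (4096 * Real.log N) ≤
      (((Ioc N (2 * N)).filter (fun n : ℕ => (a * n + b).natAbs.Prime)).card : ℝ) := by
  classical
  have hlam : (1 : ℝ) ≤ 4 := by norm_num
  obtain ⟨X0, hbv⟩ := bvL hlam (C + 1)
  obtain ⟨X2, hlow⟩ := Filter.eventually_atTop.1 (psiXL_lower hlam)
  filter_upwards [eventually_first C (max X0 X2)] with N hN a b ha hab haC hbC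
  obtain ⟨hN1, hN2, hN3, hN4, hN5⟩ := hN
  -- sign and modulus
  set q : ℕ := a.natAbs with hq
  have hq1 : 1 ≤ q := Int.natAbs_pos.2 ha
  have hqR : (q : ℝ) = |(a : ℝ)| := by rw [hq, Nat.cast_natAbs, Int.cast_abs]
  have hq1R : (1 : ℝ) ≤ q := by exact_mod_cast hq1
  have hNpos : (0 : ℝ) < N := by linarith only [hN5]
  set l := Real.log N with hl
  have hlC1 : 1 ≤ l ^ C := one_le_pow₀ (by linarith only [hN2])
  set X : ℝ := 3 / 2 * (q * N) with hX
  have hqN : (N : ℝ) ≤ q * N := by nlinarith only [hq1R]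
  have hXN : (N : ℝ) ≤ X := by rw [hX]; nlinarith only [hN5, hqN]
  have hX0pos : 0 < X := by linarith only [hN5, hX, hqN]
  have hlX : l ≤ Real.log X := Real.log_le_log hNpos hXN
  have hXX0 : X0 ≤ X := (le_max_left _ _).trans (hN1.trans hXN)
  have hXX2 : X2 ≤ X := (le_max_right _ _).trans (hN1.trans hXN)
  have hqC : (q : ℝ) ≤ l ^ C := by rw [hqR]; exact haC
  -- the residue class
  obtain ⟨σ, hσ, hσa⟩ : ∃ σ : ℤ, (σ = 1 ∨ σ = -1) ∧ σ * a = q := by
    rcases Int.natAbs_eq a with h | h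
    · exact ⟨1, Or.inl rfl, by rw [one_mul]; exact h⟩
    · exact ⟨-1, Or.inr rfl, by rw [hq]; omega⟩
  set b' : ℤ := σ * b with hb'
  have hb'abs : |(b' : ℝ)| ≤ l ^ C := by
    rw [hb']
    rcases hσ with h | h <;> rw [h] <;> push_cast
    · simpa using hbC
    · simpa using hbC
  have hqz : (0 : ℤ) < q := by exact_mod_cast hq1
  set r : ℕ := (b' % q).toNat with hr
  have hrz : (r : ℤ) = b' % q := by
    rw [hr, Int.toNat_of_nonneg (Int.emod_nonneg _ hqz.ne')]
  have hcop : r.Coprime q := by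
    rw [← Nat.isCoprime_iff_coprime, hrz]
    have h1 : IsCoprime b' (q : ℤ) := by
      rw [← hσa, hb']
      rcases hσ with h | h <;> rw [h]
      · simpa using hab.symm
      · simpa using hab.symm.neg_neg
    rw [Int.emod_def]
    have := h1.add_mul_left_left (-(b' / q))
    rwa [show b' + q * -(b' / q) = b' - q * (b' / q) by ring] at this
  -- Bombieri-Vinogradov for the single modulus
  have hX50 : (q : ℝ) ≤ X ^ (1 / 50 : ℝ) := by
    have h1 : (N : ℝ) ^ (1 / 50 : ℝ) ≤ X ^ (1 / 50 : ℝ) :=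
      Real.rpow_le_rpow hNpos.le hXN (by norm_num)
    linarith only [hqR, hq1R, haC, hN3, h1]
  have hmem : q ∈ Icc 1 ⌊X ^ (1 / 50 : ℝ)⌋₊ := Finset.mem_Icc.2 ⟨hq1, Nat.le_floor hX50⟩
  have hbv1 := hbv X hXX0 (fun q' => if q' = q then r else 1) (by
    intro q'
    by_cases h : q' = q
    · simp only [if_pos h]; rw [h]; exact hcop
    · simp only [if_neg h]; exact Nat.coprime_one_left q')
  have hbv2 := (Finset.single_le_sum (f := fun q' => |psiAPL 4 X q' (if q' = q then r else 1) -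
    psiXL 4 X / (Nat.totient q' : ℝ)|) (fun q' _ => abs_nonneg _) hmem).trans hbv1
  simp only [if_pos] at hbv2
  have hlow1 := hlow X hXX2
  have hφ : (0 : ℝ) < Nat.totient q := by exact_mod_cast Nat.totient_pos.2 hq1
  have hφq : (Nat.totient q : ℝ) ≤ q := by exact_mod_cast Nat.totient_le q
  have hAP : X / (192 * q) ≤ psiAPL 4 X q r := by
    have h1 : X / (96 * q) ≤ psiXL 4 X / (Nat.totient q : ℝ) := by
      calc X / (96 * q) = X / 96 / q := by rw [div_div]
        _ ≤ X / 96 / Nat.totient q := by (clear * - ha hN5 hφq; gcongr)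
        _ ≤ _ := by
          gcongr
          linarith only [hlow1]
    have h2 : X / (Real.log X) ^ (C + 1) ≤ X / (192 * q) := by
      apply div_le_div_of_nonneg_left hX0pos.le (by positivity)
      calc 192 * (q : ℝ) ≤ 192 * l ^ C := by gcongr
        _ ≤ Real.log X * Real.log X ^ C :=
          mul_le_mul (by linarith only [hN2, hlX]) (pow_le_pow_left₀ (by linarith only [hN2]) hlX C) (by positivity)
            (by linarith only [hN2, hlX])
        _ = Real.log X ^ (C + 1) := by rw [pow_succ]; ring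
    have h3 := (abs_le.1 hbv2).1
    have h4 : X / (96 * q) = X / (192 * q) + X / (192 * q) := by field_simp; ring
    linarith only [h1, h2, h3, h4]
  have hAP2 : (N : ℝ) / 128 ≤ psiAPL 4 X q r := by
    refine le_trans (le_of_eq ?_) hAP
    rw [hX]
    field_simp
    ring
  -- prime powers
  set S' : Finset ℕ := (Icc 1 ⌊3 * X⌋₊).filter (fun n => n ≡ r [MOD q]) with hS'
  have hsp := sum_to_primes hlam (X := X) (by linarith only [hN2, hlX]) hX0pos S' (by
    intro P hP
    rw [hS', Finset.mem_filter, Finset.mem_Icc] at hP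
    exact hP.1) (fun _ => (1 : ℝ)) (fun _ => by norm_num) (Wm := 1) (fun _ => le_rfl)
  simp only [mul_one, Finset.sum_const, nsmul_eq_mul] at hsp
  set S2 := S'.filter (fun N : ℕ => N.Prime ∧ OmL 4 X N ≠ 0) with hS2
  have hsp2 : psiAPL 4 X q r ≤ 8 * Real.log (3 * X) * (S2.card : ℝ) +
      16 * Real.sqrt (3 * X) * Real.log (3 * X) := hsp
  -- size of log (3X)
  have h3X : 3 * X ≤ (N : ℝ) ^ (11 / 10 : ℝ) := by
    have e1 : (N : ℝ) ^ (11 / 10 : ℝ) = (N : ℝ) ^ (4 / 50 : ℝ) * ((N : ℝ) ^ (1 / 50 : ℝ) * N) := by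
      nth_rw 4 [← Real.rpow_one (N : ℝ)]
      rw [← Real.rpow_add hNpos, ← Real.rpow_add hNpos]
      norm_num
    have e2 : (9 / 2 : ℝ) ≤ (N : ℝ) ^ (4 / 50 : ℝ) := by
      have e3 : (N : ℝ) ^ (1 / 50 : ℝ) ≤ (N : ℝ) ^ (4 / 50 : ℝ) :=
        Real.rpow_le_rpow_of_exponent_le (by linarith only [hN5]) (by norm_num)
      linarith only [hqR, hq1R, haC, hN3, e3]
    rw [e1, hX]
    have e4 : (q : ℝ) ≤ (N : ℝ) ^ (1 / 50 : ℝ) := by linarith only [hqR, hq1R, haC, hN3]
    calc 3 * (3 / 2 * (q * N)) = (9 / 2 : ℝ) * (q * N) := by ring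
      _ ≤ (N : ℝ) ^ (4 / 50 : ℝ) * ((N : ℝ) ^ (1 / 50 : ℝ) * N) := by (clear * - e2 e4 hN5 ha; gcongr)
  have hlog3X : Real.log (3 * X) ≤ 2 * l := by
    have h1 := Real.log_le_log (by positivity) h3X
    rw [Real.log_rpow hNpos] at h1
    linarith only [hN2, h1]
  have hlog3X0 : 0 < Real.log (3 * X) := by
    have : l ≤ Real.log (3 * X) := Real.log_le_log hNpos (by linarith only [hN5, hX, hqN])
    linarith only [hN2, this]
  have hsqrt : Real.sqrt (3 * X) ≤ (N : ℝ) ^ (11 / 20 : ℝ) := by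
    rw [Real.sqrt_le_left (by positivity)]
    refine h3X.trans (le_of_eq ?_)
    rw [← Real.rpow_natCast, ← Real.rpow_mul hNpos.le]
    norm_num
  have hprimes : (N : ℝ) / (4096 * l) ≤ (S2.card : ℝ) := by
    have h1 : 16 * Real.sqrt (3 * X) * Real.log (3 * X) ≤ N / 256 := by
      have : 16 * Real.sqrt (3 * X) * Real.log (3 * X) ≤ 16 * (N : ℝ) ^ (11 / 20 : ℝ) * (2 * l) := by
        (clear * - hsqrt hlog3X hlog3X0 hN5; gcongr)
      rw [le_div_iff₀ (by norm_num)]
      linarith only [hN4, this]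
    have h2 : 8 * Real.log (3 * X) * (S2.card : ℝ) ≤ 8 * (2 * l) * (S2.card : ℝ) := by (clear * - hlog3X; gcongr)
    have h3 : (N : ℝ) / 256 ≤ 16 * l * (S2.card : ℝ) := by linarith only [hAP2, hsp2, h1, h2]
    rw [div_le_iff₀ (by positivity)]
    linarith only [hAP2, hsp2, h1, h2]
  refine hprimes.trans ?_
  -- the injection
  have hbN : l ^ C ≤ 1 / 16 * N := by
    have : (N : ℝ) ^ (1 / 50 : ℝ) ≤ N := by
      nth_rw 2 [← Real.rpow_one (N : ℝ)]
      exact Real.rpow_le_rpow_of_exponent_le (by linarith only [hN5]) (by norm_num)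
    linarith only [hN5, hN3, this]
  have hkey : ∀ P ∈ S2, ∃ m : ℕ, (q : ℤ) * m = P - b' ∧ N < m ∧ m ≤ 2 * N ∧ P.Prime := by
    intro P hP
    rw [hS2, Finset.mem_filter, hS', Finset.mem_filter, Finset.mem_Icc] at hP
    obtain ⟨⟨⟨hP1, _⟩, hPr⟩, hPp, hPO⟩ := hP
    obtain ⟨g1, g2⟩ := OmL_ne_zero hX0pos hP1 hPO
    have hdvd : (q : ℤ) ∣ P - b' := by
      have h1 : (P : ℤ) ≡ (r : ℤ) [ZMOD (q : ℤ)] := (Int.natCast_modEq_iff).2 hPr
      have h2 : (r : ℤ) ≡ b' [ZMOD (q : ℤ)] := by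
        rw [hrz]; exact Int.mod_modEq b' q
      exact (h1.trans h2).symm.dvd
    obtain ⟨m, hm⟩ := hdvd
    have hmR : (q : ℝ) * m = P - b' := by exact_mod_cast hm.symm
    have hb1 := abs_le.1 hb'abs
    have hqNn : (0 : ℝ) ≤ q * N := by (clear * - ha hN5; positivity)
    have hlow : (q : ℝ) * N < q * m := by
      rw [hmR]
      have : 3 / 4 * X = 9 / 8 * (q * N) := by rw [hX]; ring
      linarith only [hN5, hX, hqN, hbN, g1, hb1]
    have hupp : (q : ℝ) * m < q * (2 * N) := by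
      rw [hmR]
      have : 129 / 100 * X = 387 / 200 * (q * N) := by rw [hX]; ring
      have h16 : 1 / 16 * (N : ℝ) ≤ 1 / 16 * (q * N) := by linarith only [hqN]
      linarith only [hN5, hX, hqN, hbN, g2, hb1]
    have hm1 : (N : ℝ) < m := lt_of_mul_lt_mul_left hlow (by positivity)
    have hm2 : (m : ℝ) < 2 * N := lt_of_mul_lt_mul_left hupp (by positivity)
    have hm1' : (N : ℤ) < m := by exact_mod_cast hm1
    have hm2' : m < 2 * (N : ℤ) := by exact_mod_cast hm2
    lift m to ℕ using (by omega)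
    exact ⟨m, hm.symm, by omega, by omega, hPp⟩
  choose! g hg using hkey
  have hcard : S2.card ≤ ((Ioc N (2 * N)).filter (fun n : ℕ => (a * n + b).natAbs.Prime)).card := by
    apply Finset.card_le_card_of_injOn g
    · intro P hP
      obtain ⟨h1, h2, h3, h4⟩ := hg P hP
      rw [Finset.mem_coe, Finset.mem_filter, Finset.mem_Ioc]
      refine ⟨⟨h2, h3⟩, ?_⟩
      have h5 : σ * (a * (g P : ℤ) + b) = P := by
        rw [mul_add, ← mul_assoc, hσa]
        linarith only [h1]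
      have h6 : (a * (g P : ℤ) + b).natAbs = P := by
        rcases hσ with h | h
        · rw [h, one_mul] at h5; rw [h5]; simp
        · rw [h] at h5
          have : (a * (g P : ℤ) + b) = -(P : ℤ) := by linarith only [h5]
          rw [this]; simp
      rw [h6]; exact h4
    · intro P hP P' hP' h
      have h1 := (hg P hP).1
      have h2 := (hg P' hP').1
      rw [h] at h1
      have : (P : ℤ) = P' := by linarith only [h1, h2]
      exact_mod_cast this
  exact_mod_cast hcard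

end Pool.Agent.PD
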