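import Pool.Agent.Lib.MP_0da313_nt.PD.Pair

set_option autoImplicit false

/-!
The mean value of the sifted density over pairs.
-/

open Finset Polynomial Filter

namespace Pool.Agent.PD

open Pool.Agent.MP89da58 Pool.Agent.Lib.MP_0da313_nt Pool.Agent.MT

variable {a b c : ℤ[X]} {δ : ℕ}

/-- number of zeros of `c` modulo a large prime -/
lemma Dat.gam (h : Dat a b c δ) : ∃ A : ℕ, ∀ p : ℕ, p.Prime → A < p →
    ((range p).filter (fun s : ℕ => (p : ℤ) ∣ c.eval (s : ℤ))).card = δ := by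
  rcases h.hc with ⟨h1, h2⟩ | ⟨h2, α, β, hα, hαβ, h1⟩
  · refine ⟨0, fun p hp _ => ?_⟩
    rw [h1, h2, Finset.card_eq_zero, Finset.filter_eq_empty_iff]
    intro s _ hd
    rw [eval_one] at hd
    have := Int.natCast_dvd.1 hd
    simp only [Int.natAbs_one, Nat.dvd_one] at this
    exact hp.one_lt.ne' this
  · refine ⟨α.natAbs, fun p hp hpA => ?_⟩
    rw [h1, h2]
    have := card_root_lin hαβ hp
    rw [if_neg (fun hd => by
      have := Nat.le_of_dvd (Int.natAbs_pos.2 hα) hd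
      omega)] at this
    rw [← this]
    congr 1
    apply Finset.filter_congr
    intro s _
    simp

lemma dvd_mod_iff (G : ℤ[X]) (p x : ℕ) :
    ((p : ℤ) ∣ G.eval ((x % p : ℕ) : ℤ)) ↔ ((p : ℤ) ∣ G.eval (x : ℤ)) := periodic_dvd G p x

/-- the sieve in the variable `s` -/
theorem Dat.s_count (h : Dat a b c δ) : ∃ (C' : ℝ) (w0 D0 : ℕ), 0 ≤ C' ∧ 1 ≤ D0 ∧ ∀ᶠ S : ℕ in atTop,
    ∃ z0 : ℕ, 2 ≤ z0 ∧ z0 ^ 2 ≤ 2 * S ∧ 2 * S ≤ z0 ^ (128 * D0) ∧
    ∀ w k : ℕ, w0 ≤ w → w ≤ z0 → ∀ A : Finset ℕ, (∀ s ∈ A, 1 ≤ s ∧ s ≤ 2 * S ∧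
      (∀ p ∈ Pr z0, ¬ (p : ℤ) ∣ c.eval (s : ℤ)) ∧
      (∀ p ∈ Pr w, ¬ (p : ℤ) ∣ a.eval (s : ℤ) * k + b.eval (s : ℤ))) →
      (A.card : ℝ) ≤ 2 * (2 * S * (W (fun p => (nu a b c p k : ℝ) / p) (Pr w) *
        (kapD z0 / kapD w) ^ δ)) + C' * Real.sqrt (2 * S) := by
  classical
  obtain ⟨P1, D, hD2, hD⟩ := h.nu_le
  obtain ⟨A0, hA0⟩ := h.gam
  obtain ⟨C', hC, hev⟩ := sieve_level (max D (P1 + 1)) (by omega)
  refine ⟨C', A0, max D (P1 + 1), hC, by omega, ?_⟩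
  have hev2 : ∀ᶠ S : ℕ in atTop, _ := (tendsto_id.const_mul_atTop' (show 0 < 2 by norm_num)).eventually hev
  filter_upwards [hev2] with S hS
  obtain ⟨z0, h1, h2, h3, hsv⟩ := hS
  simp only [id] at h2 h3 hsv
  refine ⟨z0, h1, h2, h3, ?_⟩
  intro w k hw hwz A hA
  set Q : ℕ → ℕ → Prop := fun p s => if p ≤ w then (p : ℤ) ∣ c.eval (s : ℤ) *
      (a.eval (s : ℤ) * k + b.eval (s : ℤ)) else (p : ℤ) ∣ c.eval (s : ℤ) with hQ
  have hper : ∀ p x, Q p (x % p) ↔ Q p x := by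
    intro p x
    simp only [hQ]
    split_ifs with hpw
    · have := dvd_mod_iff (c * (a * C (k : ℤ) + b)) p x
      simpa only [eval_mul, eval_add, eval_C, eval_natCast, Int.cast_natCast, Int.cast_id] using this
    · exact dvd_mod_iff c p x
  have hnup : ∀ p, nu a b c p k ≤ p := by
    intro p
    have := Finset.card_le_card (Finset.filter_subset (fun s : ℕ => (p : ℤ) ∣ c.eval (s : ℤ) *
      (a.eval (s : ℤ) * k + b.eval (s : ℤ))) (range p))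
    rwa [Finset.card_range] at this
  have hnuD : ∀ p, p.Prime → nu a b c p k ≤ max D (P1 + 1) := by
    intro p hp
    rcases le_or_gt p P1 with h | h
    · have := hnup p
      omega
    · have := hD p hp h k
      omega
  have hcard : ∀ p, ((range p).filter (Q p)).card ≤ nu a b c p k := by
    intro p
    unfold nu
    apply Finset.card_le_card
    intro s hs
    rw [Finset.mem_filter] at hs ⊢
    refine ⟨hs.1, ?_⟩
    have h5 := hs.2
    simp only [hQ] at h5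
    split_ifs at h5 with hpw
    · exact h5
    · exact h5.mul_right _
  have hmain := hsv Q hper (fun p hp => (hcard p).trans (hnuD p hp)) A (by
    intro s hs
    obtain ⟨g1, g2, g3, g4⟩ := hA s hs
    refine ⟨g1, g2, fun p hp hQp => ?_⟩
    simp only [hQ] at hQp
    have hp' := mem_Pr.1 hp
    split_ifs at hQp with hpw
    · rcases (Nat.prime_iff_prime_int.1 hp'.1).dvd_or_dvd hQp with g | g
      · exact g3 p hp g
      · exact g4 p (mem_Pr.2 ⟨hp'.1, hpw⟩) g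
    · exact g3 p hp hQp)
  have hW : W (fun p => (((range p).filter (Q p)).card : ℝ) / p) (Pr z0) =
      W (fun p => (nu a b c p k : ℝ) / p) (Pr w) * (kapD z0 / kapD w) ^ δ := by
    rw [Pr_union hwz, W_union (Pr_disj w z0)]
    congr 1
    · unfold W
      apply Finset.prod_congr rfl
      intro p hp
      beta_reduce
      have hp' := mem_Pr.1 hp
      have e : (range p).filter (Q p) = (range p).filter (fun s : ℕ => (p : ℤ) ∣ c.eval (s : ℤ) *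
          (a.eval (s : ℤ) * k + b.eval (s : ℤ))) := by
        apply Finset.filter_congr
        intro s _
        simp only [hQ, if_pos hp'.2]
      rw [e]
      rfl
    · rw [← kapD_ratio hwz, ← Finset.prod_pow]
      unfold W
      apply Finset.prod_congr rfl
      intro p hp
      beta_reduce
      have hp' := mem_In.1 hp
      have e : (range p).filter (Q p) = (range p).filter (fun s : ℕ => (p : ℤ) ∣ c.eval (s : ℤ)) := by
        apply Finset.filter_congr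
        intro s _
        simp only [hQ, if_neg (not_le.2 hp'.2.1)]
      rw [e, hA0 p hp'.1 (by omega)]
      have hδ := h.δ_le
      interval_cases δ
      · simp
      · simp
  rw [hW] at hmain
  push_cast at hmain
  exact hmain

lemma W_omg_eq (w s s' : ℕ) :
    W (fun p => (omg a b p s s' : ℝ) / p) (Pr w) =
      (((range (∏ p ∈ Pr w, p)).filter (fun k : ℕ => ∀ p ∈ Pr w,
        ¬ (p : ℤ) ∣ (a.eval (s : ℤ) * k + b.eval (s : ℤ)) *
        (a.eval (s' : ℤ) * k + b.eval (s' : ℤ)))).card : ℝ) / (∏ p ∈ Pr w, (p : ℝ)) := by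
  have hper : ∀ p x : ℕ, (¬ (p : ℤ) ∣ (a.eval (s : ℤ) * ((x % p : ℕ) : ℤ) + b.eval (s : ℤ)) *
        (a.eval (s' : ℤ) * ((x % p : ℕ) : ℤ) + b.eval (s' : ℤ))) ↔
        (¬ (p : ℤ) ∣ (a.eval (s : ℤ) * (x : ℤ) + b.eval (s : ℤ)) *
        (a.eval (s' : ℤ) * (x : ℤ) + b.eval (s' : ℤ))) := by
    intro p x
    have := dvd_mod_iff ((C (a.eval (s : ℤ)) * X + C (b.eval (s : ℤ))) *
      (C (a.eval (s' : ℤ)) * X + C (b.eval (s' : ℤ)))) p x
    simp only [eval_mul, eval_add, eval_C, eval_X] at this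
    exact not_congr this
  rw [count_primes (fun p k => ¬ (p : ℤ) ∣ (a.eval (s : ℤ) * (k : ℤ) + b.eval (s : ℤ)) *
        (a.eval (s' : ℤ) * (k : ℤ) + b.eval (s' : ℤ))) hper (Pr w) (fun p hp => (mem_Pr.1 hp).1)]
  push_cast
  rw [← Finset.prod_div_distrib]
  unfold W
  apply Finset.prod_congr rfl
  intro p hp
  have hp0 : (p : ℝ) ≠ 0 := by exact_mod_cast (mem_Pr.1 hp).1.ne_zero
  have h1 := Finset.card_filter_add_card_filter_not (s := range p)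
    (p := fun k : ℕ => (p : ℤ) ∣ (a.eval (s : ℤ) * (k : ℤ) + b.eval (s : ℤ)) *
        (a.eval (s' : ℤ) * (k : ℤ) + b.eval (s' : ℤ)))
  rw [Finset.card_range] at h1
  have h2 : (omg a b p s s' : ℝ) + (((range p).filter (fun k : ℕ =>
      ¬ (p : ℤ) ∣ (a.eval (s : ℤ) * (k : ℤ) + b.eval (s : ℤ)) *
        (a.eval (s' : ℤ) * (k : ℤ) + b.eval (s' : ℤ)))).card : ℝ) = p := by
    unfold omg
    exact_mod_cast h1
  field_simp
  linarith only [h2]

/-- the double sum as a mean square -/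
lemma double_sum_eq (w : ℕ) (SS : Finset ℕ) :
    ∑ s ∈ SS, ∑ s' ∈ SS, W (fun p => (omg a b p s s' : ℝ) / p) (Pr w) =
      (∑ k ∈ range (∏ p ∈ Pr w, p), ((SS.filter (fun s : ℕ => ∀ p ∈ Pr w,
        ¬ (p : ℤ) ∣ a.eval (s : ℤ) * k + b.eval (s : ℤ))).card : ℝ) ^ 2) /
        (∏ p ∈ Pr w, (p : ℝ)) := by
  classical
  simp only [W_omg_eq, ← Finset.sum_div]
  congr 1
  have e1 : ∀ s s' k : ℕ, (∀ p ∈ Pr w, ¬ (p : ℤ) ∣ (a.eval (s : ℤ) * (k : ℤ) + b.eval (s : ℤ)) *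
        (a.eval (s' : ℤ) * (k : ℤ) + b.eval (s' : ℤ))) ↔
      ((∀ p ∈ Pr w, ¬ (p : ℤ) ∣ a.eval (s : ℤ) * (k : ℤ) + b.eval (s : ℤ)) ∧
      (∀ p ∈ Pr w, ¬ (p : ℤ) ∣ a.eval (s' : ℤ) * (k : ℤ) + b.eval (s' : ℤ))) := by
    intro s s' k
    constructor
    · intro h1
      exact ⟨fun p hp hd => h1 p hp (hd.mul_right _), fun p hp hd => h1 p hp (hd.mul_left _)⟩
    · rintro ⟨h1, h2⟩ p hp hd
      rcases (Nat.prime_iff_prime_int.1 (mem_Pr.1 hp).1).dvd_or_dvd hd with g | g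
      · exact h1 p hp g
      · exact h2 p hp g
  have e2 : ∀ s s' : ℕ, (((range (∏ p ∈ Pr w, p)).filter (fun k : ℕ => ∀ p ∈ Pr w,
        ¬ (p : ℤ) ∣ (a.eval (s : ℤ) * k + b.eval (s : ℤ)) *
        (a.eval (s' : ℤ) * k + b.eval (s' : ℤ)))).card : ℝ) =
      ∑ k ∈ range (∏ p ∈ Pr w, p),
        (if ∀ p ∈ Pr w, ¬ (p : ℤ) ∣ a.eval (s : ℤ) * (k : ℤ) + b.eval (s : ℤ) then (1 : ℝ) else 0) *
        (if ∀ p ∈ Pr w, ¬ (p : ℤ) ∣ a.eval (s' : ℤ) * (k : ℤ) + b.eval (s' : ℤ) then (1 : ℝ) else 0) := by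
    intro s s'
    rw [Finset.card_filter]
    push_cast
    apply Finset.sum_congr rfl
    intro k _
    by_cases g1 : ∀ p ∈ Pr w, ¬ (p : ℤ) ∣ a.eval (s : ℤ) * (k : ℤ) + b.eval (s : ℤ)
    · by_cases g2 : ∀ p ∈ Pr w, ¬ (p : ℤ) ∣ a.eval (s' : ℤ) * (k : ℤ) + b.eval (s' : ℤ)
      · rw [if_pos ((e1 s s' k).2 ⟨g1, g2⟩), if_pos g1, if_pos g2, mul_one]
      · rw [if_neg (fun h => g2 ((e1 s s' k).1 h).2), if_neg g2, mul_zero]
    · rw [if_neg (fun h => g1 ((e1 s s' k).1 h).1), if_neg g1, zero_mul]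
  simp only [e2]
  rw [Finset.sum_congr rfl (fun s _ => Finset.sum_comm), Finset.sum_comm]
  apply Finset.sum_congr rfl
  intro k _
  rw [Finset.card_filter]
  push_cast
  rw [sq, Finset.sum_mul_sum]

/-- the mean of the squares of the densities -/
lemma mean_sq_le (h : Dat a b c δ) : ∃ K : ℝ, 0 ≤ K ∧ ∀ w : ℕ,
    (∑ k ∈ range (∏ p ∈ Pr w, p), W (fun p => (nu a b c p k : ℝ) / p) (Pr w) ^ 2) /
      (∏ p ∈ Pr w, (p : ℝ)) ≤ K * kapD w ^ (2 * (1 + δ)) := by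
  obtain ⟨K, hK, hloc⟩ := h.avg_local
  refine ⟨Real.exp K, (Real.exp_pos K).le, fun w => ?_⟩
  have hpos : ∀ p ∈ Pr w, (0 : ℝ) < p := fun p hp => by exact_mod_cast (mem_Pr.1 hp).1.pos
  have hprod : 0 < ∏ p ∈ Pr w, (p : ℝ) := Finset.prod_pos hpos
  rw [div_le_iff₀ hprod]
  have e1 : ∑ k ∈ range (∏ p ∈ Pr w, p), W (fun p => (nu a b c p k : ℝ) / p) (Pr w) ^ 2 =
      ∏ p ∈ Pr w, ∑ k ∈ range p, (1 - (nu a b c p k : ℝ) / p) ^ 2 := by
    rw [← sum_prod_periodic (Pr w) (fun p hp => (mem_Pr.1 hp).1)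
      (fun p k => (1 - (nu a b c p k : ℝ) / p) ^ 2)]
    · apply Finset.sum_congr rfl
      intro k _
      unfold W
      rw [Finset.prod_pow]
    · intro p x
      have : nu a b c p (x % p) = nu a b c p x := by
        unfold nu
        congr 1
        apply Finset.filter_congr
        intro s _
        have h1 := dvd_mod_iff (C (c.eval (s : ℤ)) * (C (a.eval (s : ℤ)) * X + C (b.eval (s : ℤ)))) p x
        simp only [eval_mul, eval_add, eval_C, eval_X] at h1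
        exact h1
      simp only [this]
  rw [e1]
  have e2 : ∏ p ∈ Pr w, ∑ k ∈ range p, (1 - (nu a b c p k : ℝ) / p) ^ 2 ≤
      ∏ p ∈ Pr w, ((p : ℝ) * ((1 - 1 / (p : ℝ)) ^ (2 * (1 + δ)) * (1 + K / (p : ℝ) ^ 2))) := by
    apply Finset.prod_le_prod
    · intro p _
      exact Finset.sum_nonneg fun k _ => sq_nonneg _
    · intro p hp
      exact hloc p (mem_Pr.1 hp).1
  refine e2.trans ?_
  rw [Finset.prod_mul_distrib, Finset.prod_mul_distrib, Finset.prod_pow]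
  have e3 : ∏ p ∈ Pr w, (1 - 1 / (p : ℝ)) = kapD w := rfl
  rw [e3]
  have e4 := prod_sq_le hK w
  have e5 : 0 ≤ kapD w ^ (2 * (1 + δ)) := pow_nonneg (kapD_pos w).le _
  calc (∏ p ∈ Pr w, (p : ℝ)) * (kapD w ^ (2 * (1 + δ)) * ∏ p ∈ Pr w, (1 + K / (p : ℝ) ^ 2))
      ≤ (∏ p ∈ Pr w, (p : ℝ)) * (kapD w ^ (2 * (1 + δ)) * Real.exp K) := by (clear * - e4 e5 hprod; gcongr)
    _ = _ := by ring

/-- the mean over pairs -/
theorem pair_mean (h : Dat a b c δ) : ∃ (C' : ℝ) (w0 D0 : ℕ), 0 ≤ C' ∧ 1 ≤ D0 ∧ ∀ᶠ S : ℕ in atTop,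
    ∃ z0 : ℕ, 2 ≤ z0 ∧ z0 ^ 2 ≤ 2 * S ∧ 2 * S ≤ z0 ^ (128 * D0) ∧
    ∀ w : ℕ, w0 ≤ w → w ≤ z0 → ∀ SS : Finset ℕ, (∀ s ∈ SS, 1 ≤ s ∧ s ≤ 2 * S ∧
      (∀ p ∈ Pr z0, ¬ (p : ℤ) ∣ c.eval (s : ℤ))) →
      ∑ s ∈ SS, ∑ s' ∈ SS, W (fun p => (omg a b p s s' : ℝ) / p) (Pr w) ≤
        C' * ((S : ℝ) ^ 2 * kapD z0 ^ (2 * δ) * kapD w ^ 2 + S) := by
  obtain ⟨C, w0, D0, hC, hD0, hev⟩ := h.s_count
  obtain ⟨K, hK, hmean⟩ := mean_sq_le h
  refine ⟨32 * K + 4 * C ^ 2, w0, D0, by positivity, hD0, ?_⟩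
  filter_upwards [hev] with S hS
  obtain ⟨z0, h1, h2, h3, hcount⟩ := hS
  refine ⟨z0, h1, h2, h3, ?_⟩
  intro w hw hwz SS hSS
  rw [double_sum_eq]
  set M := ∏ p ∈ Pr w, p with hM
  have hMR : (∏ p ∈ Pr w, (p : ℝ)) = (M : ℝ) := by rw [hM]; push_cast; rfl
  have hMpos : (0 : ℝ) < M := by
    rw [← hMR]
    exact Finset.prod_pos fun p hp => by exact_mod_cast (mem_Pr.1 hp).1.pos
  have hkw := kapD_pos w
  have hkz := kapD_pos z0
  set R := kapD z0 / kapD w with hR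
  have hR0 : 0 < R := div_pos hkz hkw
  have hk : ∀ k ∈ range M, ((SS.filter (fun s : ℕ => ∀ p ∈ Pr w,
        ¬ (p : ℤ) ∣ a.eval (s : ℤ) * k + b.eval (s : ℤ))).card : ℝ) ^ 2 ≤
      32 * (S : ℝ) ^ 2 * R ^ (2 * δ) * W (fun p => (nu a b c p k : ℝ) / p) (Pr w) ^ 2 +
        4 * C ^ 2 * S := by
    intro k _
    have h4 := hcount w k hw hwz (SS.filter (fun s : ℕ => ∀ p ∈ Pr w,
        ¬ (p : ℤ) ∣ a.eval (s : ℤ) * k + b.eval (s : ℤ))) (by
      intro s hs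
      rw [Finset.mem_filter] at hs
      obtain ⟨g1, g2, g3⟩ := hSS s hs.1
      exact ⟨g1, g2, g3, hs.2⟩)
    set V := W (fun p => (nu a b c p k : ℝ) / p) (Pr w) with hV
    have h5 := pow_le_pow_left₀ (Nat.cast_nonneg _) h4 2
    refine h5.trans ?_
    have h6 : ∀ x y : ℝ, (x + y) ^ 2 ≤ 2 * x ^ 2 + 2 * y ^ 2 := fun x y => by
      nlinarith only [sq_nonneg (x - y)]
    refine (h6 _ _).trans ?_
    have h7 : (C * Real.sqrt (2 * S)) ^ 2 = C ^ 2 * (2 * S) := by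
      rw [mul_pow, Real.sq_sqrt (by (clear * -; positivity))]
    rw [h7]
    apply le_of_eq
    rw [pow_mul' R 2 δ]
    ring
  have hsum := Finset.sum_le_sum hk
  rw [Finset.sum_add_distrib, ← Finset.mul_sum, Finset.sum_const, Finset.card_range,
    nsmul_eq_mul] at hsum
  have hm := hmean w
  rw [hMR, ← hM] at hm
  rw [hMR, div_le_iff₀ hMpos]
  refine hsum.trans ?_
  rw [div_le_iff₀ hMpos] at hm
  have h8 : 0 ≤ 32 * (S : ℝ) ^ 2 * R ^ (2 * δ) := by (clear * - hkz hkw; positivity)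
  have h9 := mul_le_mul_of_nonneg_left hm h8
  have h10 : R ^ (2 * δ) * kapD w ^ (2 * (1 + δ)) = kapD z0 ^ (2 * δ) * kapD w ^ 2 := by
    rw [hR, div_pow, show 2 * (1 + δ) = 2 * δ + 2 by ring, pow_add]
    field_simp
  have h11 : 32 * (S : ℝ) ^ 2 * R ^ (2 * δ) * (K * kapD w ^ (2 * (1 + δ)) * M) =
      32 * K * ((S : ℝ) ^ 2 * (kapD z0 ^ (2 * δ) * kapD w ^ 2)) * M := by
    rw [← h10]; ring
  rw [h11] at h9
  have h12 : 0 ≤ (S : ℝ) ^ 2 * (kapD z0 ^ (2 * δ) * kapD w ^ 2) := by (clear * - hkz hkw; positivity)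
  have h13 : (0 : ℝ) ≤ S := Nat.cast_nonneg _
  have h14 : 0 ≤ 4 * C ^ 2 * ((S : ℝ) ^ 2 * (kapD z0 ^ (2 * δ) * kapD w ^ 2)) * M := by (clear * - hkz hkw hMpos; positivity)
  have h15 : 0 ≤ 32 * K * (S : ℝ) * M := by (clear * - hK hMpos; positivity)
  calc _ ≤ 32 * K * ((S : ℝ) ^ 2 * (kapD z0 ^ (2 * δ) * kapD w ^ 2)) * M + M * (4 * C ^ 2 * S) := by
        linarith only [h9]
    _ ≤ _ := by nlinarith only [h14, h15]

end Pool.Agent.PD
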