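import Pool.Agent.Lib.MP_0da313_nt.PD.First
import Pool.Agent.Lib.MP_0da313_nt.PD.Avg

set_option autoImplicit false

/-!
The set of the admissible values `s` in `(S, 2S]`.
-/

open Finset Polynomial Filter

namespace Pool.Agent.PD

open Pool.Agent.MP89da58 Pool.Agent.Lib.MP_0da313_nt Pool.Agent.MT

variable {a b c : ℤ[X]} {δ : ℕ}

open Classical in
/-- the values `s` in `(S, 2S]`, with `|c(s)|` prime if `δ = 1` -/
noncomputable def SSet (c : ℤ[X]) (δ S : ℕ) : Finset ℕ :=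
  (Ioc S (2 * S)).filter (fun s => δ = 1 → (c.eval (s : ℤ)).natAbs.Prime)

lemma poly_bound (G : ℤ[X]) : ∃ A d : ℕ, 1 ≤ A ∧ ∀ s : ℕ, 1 ≤ s → (G.eval (s : ℤ)).natAbs ≤ A * s ^ d := by
  classical
  refine ⟨∑ i ∈ G.support, (G.coeff i).natAbs + 1, G.natDegree, by omega, fun s hs => ?_⟩
  rw [Polynomial.eval_eq_sum, Polynomial.sum]
  refine (Int.natAbs_sum_le _ _).trans ?_
  have h1 : ∑ i ∈ G.support, (G.coeff i * (s : ℤ) ^ i).natAbs ≤
      ∑ i ∈ G.support, (G.coeff i).natAbs * s ^ G.natDegree := by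
    apply Finset.sum_le_sum
    intro i hi
    rw [Int.natAbs_mul, Int.natAbs_pow, Int.natAbs_natCast]
    apply Nat.mul_le_mul_left
    exact Nat.pow_le_pow_right hs (le_natDegree_of_mem_supp i hi)
  refine h1.trans ?_
  rw [← Finset.sum_mul]
  exact Nat.mul_le_mul_right _ (by omega)

lemma ev_nat_real {P : ℝ → Prop} (h : ∀ᶠ x : ℝ in atTop, P x) : ∀ᶠ N : ℕ in atTop, P (N : ℝ) :=
  tendsto_natCast_atTop_atTop.eventually h

/-- a power of the logarithm is small -/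
lemma ev_log_pow (K : ℝ) (E : ℕ) : ∀ᶠ x : ℝ in atTop, K * (Real.log x) ^ E ≤ x ^ (1 / 2 : ℝ) := by
  have := isLittleO_log_rpow_rpow_atTop (E : ℝ) (show (0 : ℝ) < 1 / 2 by norm_num)
  have h3 := this.bound (show (0 : ℝ) < 1 / (|K| + 1) by positivity)
  filter_upwards [h3, eventually_ge_atTop (1 : ℝ)] with x hx hx1
  rw [Real.norm_of_nonneg (Real.rpow_nonneg (Real.log_nonneg hx1) _),
    Real.norm_of_nonneg (Real.rpow_nonneg (by linarith) _), Real.rpow_natCast] at hx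
  have h4 : 0 ≤ (Real.log x) ^ E := pow_nonneg (Real.log_nonneg hx1) _
  have h5 : K ≤ |K| + 1 := by linarith [le_abs_self K]
  calc K * (Real.log x) ^ E ≤ (|K| + 1) * (Real.log x) ^ E := by gcongr
    _ ≤ (|K| + 1) * (1 / (|K| + 1) * x ^ (1 / 2 : ℝ)) := by gcongr
    _ = x ^ (1 / 2 : ℝ) := by field_simp

lemma ev_log_pow' (K : ℝ) (E : ℕ) : ∀ᶠ x : ℝ in atTop, K * (Real.log x) ^ E ≤ x := by
  filter_upwards [ev_log_pow K E, eventually_ge_atTop (1 : ℝ)] with x hx hx1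
  refine hx.trans ?_
  nth_rw 2 [← Real.rpow_one x]
  exact Real.rpow_le_rpow_of_exponent_le hx1 (by norm_num)

/-- number of admissible values -/
lemma card_SSet (h : Dat a b c δ) : ∃ κ : ℝ, 0 < κ ∧ ∀ᶠ S : ℕ in atTop,
    κ * (S / (Real.log S) ^ δ) ≤ ((SSet c δ S).card : ℝ) := by
  classical
  rcases h.hc with ⟨h1, h2⟩ | ⟨h2, α, β, hα, hαβ, h1⟩
  · refine ⟨1, one_pos, Eventually.of_forall fun S => ?_⟩
    have : SSet c δ S = Ioc S (2 * S) := by
      unfold SSet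
      apply Finset.filter_true_of_mem
      intro s _ h3
      omega
    rw [this, h2, Nat.card_Ioc, pow_zero, div_one, one_mul]
    rw [show 2 * S - S = S by omega]
  · refine ⟨1 / 4096, by norm_num, ?_⟩
    have h3 : ∀ᶠ S : ℕ in atTop, |(α : ℝ)| ≤ (Real.log S) ^ 1 ∧ |(β : ℝ)| ≤ (Real.log S) ^ 1 := by
      have h4 : Tendsto (fun S : ℕ => Real.log S) atTop atTop :=
        Real.tendsto_log_atTop.comp tendsto_natCast_atTop_atTop
      filter_upwards [h4.eventually_ge_atTop |(α : ℝ)|, h4.eventually_ge_atTop |(β : ℝ)|] with S g1 g2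
      rw [pow_one]
      exact ⟨g1, g2⟩
    filter_upwards [first_moment 1, h3] with S hS hS2
    have h5 := hS α β hα hαβ hS2.1 hS2.2
    have e : SSet c δ S = (Ioc S (2 * S)).filter (fun n : ℕ => (α * n + β).natAbs.Prime) := by
      unfold SSet
      apply Finset.filter_congr
      intro s _
      rw [h1]
      simp [h2]
    rw [e, h2, pow_one]
    refine le_trans (le_of_eq ?_) h5
    rw [div_mul_div_comm, one_mul]

/-- the values are free of small prime factors of `c` -/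
lemma SSet_rough (h : Dat a b c δ) : ∀ᶠ S : ℕ in atTop, ∀ z0 : ℕ, z0 ^ 2 ≤ 2 * S →
    ∀ s ∈ SSet c δ S, ∀ p ∈ Pr z0, ¬ (p : ℤ) ∣ c.eval (s : ℤ) := by
  classical
  rcases h.hc with ⟨h1, h2⟩ | ⟨h2, α, β, hα, hαβ, h1⟩
  · refine Eventually.of_forall fun S z0 _ s _ p hp hd => ?_
    rw [h1, eval_one] at hd
    have := Int.natCast_dvd.1 hd
    simp only [Int.natAbs_one, Nat.dvd_one] at this
    exact (mem_Pr.1 hp).1.one_lt.ne' this
  · filter_upwards [eventually_ge_atTop (2 * β.natAbs + 16)] with S hS z0 hz0 s hs p hp hd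
    unfold SSet at hs
    rw [Finset.mem_filter, Finset.mem_Ioc] at hs
    obtain ⟨⟨g1, g2⟩, g3⟩ := hs
    have g4 := g3 h2
    have hp' := mem_Pr.1 hp
    have g5 : p ∣ (c.eval (s : ℤ)).natAbs := Int.natCast_dvd.1 hd
    have g6 : p = (c.eval (s : ℤ)).natAbs := (Nat.prime_dvd_prime_iff_eq hp'.1 g4).1 g5
    have g7 : s ≤ (c.eval (s : ℤ)).natAbs + β.natAbs := by
      rw [h1]
      simp only [eval_add, eval_mul, eval_C, eval_X]
      have : ((α * (s : ℤ))).natAbs ≤ (α * (s : ℤ) + β).natAbs + β.natAbs := by omega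
      rw [Int.natAbs_mul, Int.natAbs_natCast] at this
      have h3 : 1 ≤ α.natAbs := Int.natAbs_pos.2 hα
      nlinarith
    have g8 : S < 2 * z0 := by omega
    nlinarith

/-- auxiliary bound -/
lemma pow_w_le {w : ℕ} (hw : 2 ≤ w) (B : ℕ) :
    ((1 - 1 / (w : ℝ))⁻¹ ^ 2) ^ (B * w) ≤ 16 ^ B := by
  have hwR : (2 : ℝ) ≤ w := by exact_mod_cast hw
  have hw1 : 1 / (w : ℝ) ≤ 1 / 2 := one_div_le_one_div_of_le (by norm_num) hwR
  have hw0 : 0 < 1 / (w : ℝ) := by positivity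
  have e1 : ((1 : ℝ) / 2) ^ (2 * (1 / (w : ℝ))) ≤ 1 - 1 / w := by
    have := rpow_one_add_le_one_add_mul_self (s := -1 / 2) (by norm_num)
      (p := 2 * (1 / (w : ℝ))) (by linarith) (by linarith)
    rw [show (1 : ℝ) + -1 / 2 = 1 / 2 by norm_num] at this
    linarith
  have e2 : (1 / 4 : ℝ) ≤ (1 - 1 / (w : ℝ)) ^ w := by
    have h1 := pow_le_pow_left₀ (Real.rpow_nonneg (by norm_num) _) e1 w
    rw [← Real.rpow_natCast, ← Real.rpow_mul (by norm_num)] at h1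
    have e3 : 2 * (1 / (w : ℝ)) * w = 2 := by field_simp
    rw [e3] at h1
    norm_num at h1 ⊢
    exact h1
  have e4 : ((1 - 1 / (w : ℝ)) ^ w)⁻¹ ≤ 4 := by
    rw [inv_le_comm₀ (by linarith) (by norm_num)]
    linarith
  have e5 : ((1 - 1 / (w : ℝ))⁻¹ ^ 2) ^ (B * w) = ((((1 - 1 / (w : ℝ)) ^ w)⁻¹) ^ 2) ^ B := by
    rw [← inv_pow, ← pow_mul, ← pow_mul, ← pow_mul]
    congr 1
    ring
  rw [e5]
  apply pow_le_pow_left₀ (by positivity)
  have e6 : 0 ≤ ((1 - 1 / (w : ℝ)) ^ w)⁻¹ := inv_nonneg.2 (by linarith)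
  nlinarith

/-- bound for the discriminants -/
lemma G_bound (a b : ℤ[X]) : ∃ B0 : ℕ, ∀ᶠ S : ℕ in atTop, ∀ s s' : ℕ, 1 ≤ s → s ≤ 2 * S →
    1 ≤ s' → s' ≤ 2 * S →
    (a.eval (s : ℤ) * a.eval (s' : ℤ) *
      (a.eval (s : ℤ) * b.eval (s' : ℤ) - a.eval (s' : ℤ) * b.eval (s : ℤ))).natAbs ≤
      2 ^ (B0 * (Nat.log 2 S / 8)) := by
  obtain ⟨A1, d1, hA1, h1⟩ := poly_bound a
  obtain ⟨A2, d2, hA2, h2⟩ := poly_bound b
  set A := A1 + A2 with hA
  set d := d1 + d2 with hd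
  refine ⟨1 + 4 * d * 17, ?_⟩
  filter_upwards [eventually_ge_atTop (2 ^ (8 * (2 * A ^ 4 + 2)))] with S hS s s' hs1 hs2 hs1' hs2'
  have hS0 : S ≠ 0 := by
    have : 0 < 2 ^ (8 * (2 * A ^ 4 + 2)) := by positivity
    omega
  set w := Nat.log 2 S / 8 with hw
  have hw1 : 2 * A ^ 4 + 2 ≤ w := by
    rw [hw, Nat.le_div_iff_mul_le (by norm_num)]
    apply Nat.le_log_of_pow_le (by norm_num)
    rw [mul_comm]
    exact hS
  have hS2 : 2 * S ≤ 2 ^ (8 * w + 9) := by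
    have g1 : S < 2 ^ (Nat.log 2 S + 1) := Nat.lt_pow_succ_log_self (by norm_num) S
    have g2 : Nat.log 2 S + 1 ≤ 8 * w + 8 := by omega
    have g3 : 2 ^ (Nat.log 2 S + 1) ≤ 2 ^ (8 * w + 8) := Nat.pow_le_pow_right (by norm_num) g2
    calc 2 * S ≤ 2 * 2 ^ (8 * w + 8) := by omega
      _ = 2 ^ (8 * w + 9) := by rw [show 8 * w + 9 = (8 * w + 8) + 1 by ring, pow_succ]; ring
  have hP : ∀ s : ℕ, 1 ≤ s → s ≤ 2 * S → (a.eval (s : ℤ)).natAbs ≤ A * (2 * S) ^ d ∧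
      (b.eval (s : ℤ)).natAbs ≤ A * (2 * S) ^ d := by
    intro s g1 g2
    have e1 : s ^ d1 ≤ (2 * S) ^ d :=
      (Nat.pow_le_pow_left g2 d1).trans (Nat.pow_le_pow_right (by omega) (by omega))
    have e2 : s ^ d2 ≤ (2 * S) ^ d :=
      (Nat.pow_le_pow_left g2 d2).trans (Nat.pow_le_pow_right (by omega) (by omega))
    exact ⟨(h1 s g1).trans (Nat.mul_le_mul (by omega) e1),
      (h2 s g1).trans (Nat.mul_le_mul (by omega) e2)⟩
  obtain ⟨p1, p2⟩ := hP s hs1 hs2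
  obtain ⟨p3, p4⟩ := hP s' hs1' hs2'
  set Y := A * (2 * S) ^ d with hY
  have e1 : (a.eval (s : ℤ) * b.eval (s' : ℤ) - a.eval (s' : ℤ) * b.eval (s : ℤ)).natAbs ≤
      Y * Y + Y * Y := by
    refine (Int.natAbs_sub_le _ _).trans ?_
    rw [Int.natAbs_mul, Int.natAbs_mul]
    exact add_le_add (Nat.mul_le_mul p1 p4) (Nat.mul_le_mul p3 p2)
  rw [Int.natAbs_mul, Int.natAbs_mul]
  calc _ ≤ Y * Y * (Y * Y + Y * Y) := Nat.mul_le_mul (Nat.mul_le_mul p1 p3) e1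
    _ = 2 * A ^ 4 * ((2 * S) ^ d) ^ 4 := by rw [hY]; ring
    _ ≤ 2 ^ w * ((2 ^ (8 * w + 9)) ^ d) ^ 4 := by
        apply Nat.mul_le_mul
        · have : w < 2 ^ w := Nat.lt_two_pow_self
          omega
        · exact Nat.pow_le_pow_left (Nat.pow_le_pow_left hS2 d) 4
    _ = 2 ^ (w + (8 * w + 9) * d * 4) := by
        rw [← pow_mul, ← pow_mul, ← pow_add]
        congr 1
        ring
    _ ≤ 2 ^ ((1 + 4 * d * 17) * w) := by
        apply Nat.pow_le_pow_right (by norm_num)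
        have : 8 * w + 9 ≤ 17 * w := by omega
        nlinarith

end Pool.Agent.PD
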