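import Pool.Agent.Lib.MP_0da313_nt.PD.UB
import Pool.Agent.Lib.MP_0da313_nt.PD.Avg
import Pool.Agent.Lib.MP_0da313_nt.MT.OneDimU
import Pool.Agent.Lib.MP_0da313_nt.Final

set_option autoImplicit false

/-!
Pairs of members of the pencil: the sifted density and its average.
-/

open Finset Polynomial Filter

namespace Pool.Agent.PD

open Pool.Agent.MP89da58 Pool.Agent.Lib.MP_0da313_nt Pool.Agent.MT

lemma PP_eq (D n : ℕ) : PP (small D) (fun i => blk (D + i)) n = Pr (2 ^ (2 ^ (D + n))) := by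
  ext p
  rw [mem_PP_iff, mem_Pr]

/-- the upper bound sieve with the level chosen in terms of the length -/
theorem sieve_level (D : ℕ) (hD : 1 ≤ D) : ∃ C : ℝ, 0 ≤ C ∧ ∀ᶠ X : ℕ in atTop, ∃ z : ℕ,
    2 ≤ z ∧ z ^ 2 ≤ X ∧ X ≤ z ^ (128 * D) ∧
    ∀ (Q : ℕ → ℕ → Prop) [∀ p, DecidablePred (Q p)], (∀ p x, Q p (x % p) ↔ Q p x) →
      (∀ p, p.Prime → ((range p).filter (Q p)).card ≤ D) →
      ∀ A : Finset ℕ, (∀ x ∈ A, 1 ≤ x ∧ x ≤ X ∧ ∀ p ∈ Pr z, ¬ Q p x) →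
      (A.card : ℝ) ≤ 2 * (X * W (fun p => (((range p).filter (Q p)).card : ℝ) / p) (Pr z)) +
        C * Real.sqrt X := by
  classical
  obtain ⟨X₀, hX₀⟩ := choose_level D hD
  refine ⟨(1 + D : ℝ) ^ (small D).card, by positivity, ?_⟩
  filter_upwards [eventually_ge_atTop X₀] with X hX
  obtain ⟨n, _, hb, hc⟩ := hX₀ X hX
  have h2z : 2 ≤ 2 ^ (2 ^ (D + n)) := by
    calc 2 = 2 ^ 1 := (pow_one 2).symm
      _ ≤ 2 ^ (2 ^ (D + n)) := Nat.pow_le_pow_right (by norm_num) Nat.one_le_two_pow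
  have hzX : (2 ^ (2 ^ (D + n))) ^ 2 ≤ X := by
    refine le_trans (Nat.pow_le_pow_left ?_ 2) hb
    apply Nat.pow_le_pow_right (by norm_num)
    exact Nat.le_mul_of_pos_right _ (by omega)
  refine ⟨2 ^ (2 ^ (D + n)), h2z, hzX, by omega, ?_⟩
  intro Q _ hQ hω A hA
  have h1 := sieve_upper D n hD Q hQ hω X
  rw [PP_eq] at h1
  have h2 : A ⊆ (Ico 1 (1 + X)).filter (fun x => ∀ p : ℕ, p.Prime → p ≤ 2 ^ (2 ^ (D + n)) →
      ¬ Q p x) := by
    intro x hx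
    obtain ⟨g1, g2, g3⟩ := hA x hx
    rw [Finset.mem_filter, Finset.mem_Ico]
    exact ⟨⟨g1, by omega⟩, fun p hp hp' => g3 p (mem_Pr.2 ⟨hp, hp'⟩)⟩
  have h3 : (A.card : ℝ) ≤ (((Ico 1 (1 + X)).filter (fun x => ∀ p : ℕ, p.Prime →
      p ≤ 2 ^ (2 ^ (D + n)) → ¬ Q p x)).card : ℝ) := by
    exact_mod_cast Finset.card_le_card h2
  refine h3.trans (h1.trans ?_)
  have h4 : (2 : ℝ) ^ (2 ^ (D + n) * (24 * D + 6)) ≤ Real.sqrt X := by
    apply Real.le_sqrt_of_sq_le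
    have h5 : (2 ^ (2 ^ (D + n) * (24 * D + 6))) ^ 2 ≤ X := by
      refine le_trans (Nat.pow_le_pow_left ?_ 2) hb
      apply Nat.pow_le_pow_right (by norm_num)
      apply Nat.mul_le_mul_left
      omega
    exact_mod_cast h5
  have h6 : (0 : ℝ) ≤ (1 + D : ℝ) ^ (small D).card := by positivity
  have h7 := mul_le_mul_of_nonneg_left h4 h6
  linarith only [h7]

/-- primes in `(w, z]` -/
def In (w z : ℕ) : Finset ℕ := (Ioc w z).filter Nat.Prime

lemma mem_In {w z p : ℕ} : p ∈ In w z ↔ p.Prime ∧ w < p ∧ p ≤ z := by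
  unfold In
  rw [Finset.mem_filter, Finset.mem_Ioc]
  tauto

lemma Pr_union {w z : ℕ} (hwz : w ≤ z) : Pr z = Pr w ∪ In w z := by
  ext p
  rw [Finset.mem_union, mem_Pr, mem_Pr, mem_In]
  constructor
  · rintro ⟨h1, h2⟩
    rcases le_or_gt p w with h | h
    · exact Or.inl ⟨h1, h⟩
    · exact Or.inr ⟨h1, h, h2⟩
  · rintro (⟨h1, h2⟩ | ⟨h1, _, h2⟩)
    · exact ⟨h1, h2.trans hwz⟩
    · exact ⟨h1, h2⟩

lemma Pr_disj (w z : ℕ) : Disjoint (Pr w) (In w z) := by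
  rw [Finset.disjoint_left]
  intro p hp hp'
  rw [mem_Pr] at hp
  rw [mem_In] at hp'
  omega

lemma kapD_ratio {w z : ℕ} (hwz : w ≤ z) :
    ∏ p ∈ In w z, (1 - 1 / (p : ℝ)) = kapD z / kapD w := by
  have h1 := kapD_split w z hwz
  rw [eq_div_iff (kapD_pos w).ne', h1, mul_comm]
  rfl

lemma Det_card_large_le {A : ℤ} (hA : A ≠ 0) {z B : ℕ} (hz : 2 ≤ z) (hAB : A.natAbs ≤ z ^ B)
    (s : Finset ℕ) (hs : ∀ p ∈ s, p.Prime ∧ z < p ∧ (p : ℤ) ∣ A) : s.card ≤ B := by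
  have hna : 0 < A.natAbs := Int.natAbs_pos.2 hA
  have h1 : ∏ p ∈ s, p ∣ A.natAbs := Finset.prod_primes_dvd _ (fun p hp => (hs p hp).1.prime)
    (fun p hp => Int.natCast_dvd.1 (hs p hp).2.2)
  have h2 := Nat.le_of_dvd hna h1
  have h3 : z ^ s.card ≤ ∏ p ∈ s, p := by
    rw [← Finset.prod_const]
    exact Finset.prod_le_prod' fun p hp => (hs p hp).2.1.le
  have h4 : z ^ s.card ≤ z ^ B := h3.trans (h2.trans hAB)
  exact (Nat.pow_le_pow_iff_right (by omega)).1 h4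

variable {a b c : ℤ[X]} {δ : ℕ}

lemma omg_le (h : Dat a b c δ) {p : ℕ} (hp : p.Prime) (s s' : ℕ) : omg a b p s s' ≤ 2 := by
  have hpz : Prime (p : ℤ) := Nat.prime_iff_prime_int.1 hp
  have h1 : ∀ s : ℕ, ((range p).filter (fun k : ℕ => (p : ℤ) ∣ a.eval (s : ℤ) * k +
      b.eval (s : ℤ))).card ≤ 1 := by
    intro s
    rw [card_root_lin (h.cop s) hp]
    split_ifs <;> omega
  unfold omg
  have h2 : (range p).filter (fun k : ℕ => (p : ℤ) ∣ (a.eval (s : ℤ) * k + b.eval (s : ℤ)) *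
      (a.eval (s' : ℤ) * k + b.eval (s' : ℤ))) ⊆
      (range p).filter (fun k : ℕ => (p : ℤ) ∣ a.eval (s : ℤ) * k + b.eval (s : ℤ)) ∪
      (range p).filter (fun k : ℕ => (p : ℤ) ∣ a.eval (s' : ℤ) * k + b.eval (s' : ℤ)) := by
    intro k hk
    rw [Finset.mem_filter] at hk
    rw [Finset.mem_union, Finset.mem_filter, Finset.mem_filter]
    rcases hpz.dvd_or_dvd hk.2 with h3 | h3
    · exact Or.inl ⟨hk.1, h3⟩
    · exact Or.inr ⟨hk.1, h3⟩
  have h3 := (Finset.card_le_card h2).trans (Finset.card_union_le _ _)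
  have h4 := h1 s
  have h5 := h1 s'
  omega

lemma omg_ge (h : Dat a b c δ) {p : ℕ} (hp : p.Prime) (s s' : ℕ)
    (hG : ¬ (p : ℤ) ∣ a.eval (s : ℤ) * a.eval (s' : ℤ) *
      (a.eval (s : ℤ) * b.eval (s' : ℤ) - a.eval (s' : ℤ) * b.eval (s : ℤ))) :
    2 ≤ omg a b p s s' := by
  have h1 : ∀ s : ℕ, ¬ (p : ℤ) ∣ a.eval (s : ℤ) → ((range p).filter (fun k : ℕ =>
      (p : ℤ) ∣ a.eval (s : ℤ) * k + b.eval (s : ℤ))).card = 1 := by
    intro s hs
    rw [card_root_lin (h.cop s) hp, if_neg (fun hd => hs (Int.natCast_dvd.2 hd))]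
  have g1 := h1 s (fun hd => hG ((hd.mul_right _).mul_right _))
  have g2 := h1 s' (fun hd => hG ((hd.mul_left _).mul_right _))
  unfold omg
  have hdisj : Disjoint
      ((range p).filter (fun k : ℕ => (p : ℤ) ∣ a.eval (s : ℤ) * k + b.eval (s : ℤ)))
      ((range p).filter (fun k : ℕ => (p : ℤ) ∣ a.eval (s' : ℤ) * k + b.eval (s' : ℤ))) := by
    rw [Finset.disjoint_left]
    intro k h2 h3
    rw [Finset.mem_filter] at h2 h3
    apply hG
    apply Dvd.dvd.mul_left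
    have e : a.eval (s : ℤ) * b.eval (s' : ℤ) - a.eval (s' : ℤ) * b.eval (s : ℤ) =
      a.eval (s : ℤ) * (a.eval (s' : ℤ) * k + b.eval (s' : ℤ)) -
      a.eval (s' : ℤ) * (a.eval (s : ℤ) * k + b.eval (s : ℤ)) := by ring
    rw [e]
    exact dvd_sub (h3.2.mul_left _) (h2.2.mul_left _)
  have h4 : (range p).filter (fun k : ℕ => (p : ℤ) ∣ a.eval (s : ℤ) * k + b.eval (s : ℤ)) ∪
      (range p).filter (fun k : ℕ => (p : ℤ) ∣ a.eval (s' : ℤ) * k + b.eval (s' : ℤ)) ⊆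
      (range p).filter (fun k : ℕ => (p : ℤ) ∣ (a.eval (s : ℤ) * k + b.eval (s : ℤ)) *
      (a.eval (s' : ℤ) * k + b.eval (s' : ℤ))) := by
    intro k hk
    rw [Finset.mem_union, Finset.mem_filter, Finset.mem_filter] at hk
    rw [Finset.mem_filter]
    rcases hk with h3 | h3
    · exact ⟨h3.1, h3.2.mul_right _⟩
    · exact ⟨h3.1, h3.2.mul_left _⟩
  have h5 := Finset.card_le_card h4
  rw [Finset.card_union_of_disjoint hdisj] at h5
  omega

/-- the sifted density of a pair -/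
lemma pair_W_le (h : Dat a b c δ) {s s' w z B : ℕ} (hw : 2 ≤ w) (hwz : w ≤ z)
    (hne : a.eval (s : ℤ) * a.eval (s' : ℤ) *
      (a.eval (s : ℤ) * b.eval (s' : ℤ) - a.eval (s' : ℤ) * b.eval (s : ℤ)) ≠ 0)
    (hB : (a.eval (s : ℤ) * a.eval (s' : ℤ) *
      (a.eval (s : ℤ) * b.eval (s' : ℤ) - a.eval (s' : ℤ) * b.eval (s : ℤ))).natAbs ≤ 2 ^ B) :
    W (fun p => (omg a b p s s' : ℝ) / p) (Pr z) ≤
      W (fun p => (omg a b p s s' : ℝ) / p) (Pr w) *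
        ((kapD z / kapD w) ^ 2 * ((1 - 1 / (w : ℝ))⁻¹ ^ 2) ^ B) := by
  classical
  set G := a.eval (s : ℤ) * a.eval (s' : ℤ) *
      (a.eval (s : ℤ) * b.eval (s' : ℤ) - a.eval (s' : ℤ) * b.eval (s : ℤ)) with hG
  have h01 : ∀ p : ℕ, p.Prime → 0 ≤ 1 - (omg a b p s s' : ℝ) / p ∧
      1 - (omg a b p s s' : ℝ) / p ≤ 1 := by
    intro p hp
    have hp0 : (2 : ℝ) ≤ p := by exact_mod_cast hp.two_le
    have h1 : (omg a b p s s' : ℝ) ≤ 2 := by exact_mod_cast omg_le h hp s s'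
    have h2 : (omg a b p s s' : ℝ) / p ≤ 1 := by
      rw [div_le_one (by linarith)]; linarith
    have h3 : 0 ≤ (omg a b p s s' : ℝ) / p := by positivity
    constructor <;> linarith
  rw [Pr_union hwz, W_union (Pr_disj w z)]
  apply mul_le_mul_of_nonneg_left _ (Finset.prod_nonneg fun p hp => (h01 p (mem_Pr.1 hp).1).1)
  have hwR : (2 : ℝ) ≤ w := by exact_mod_cast hw
  have hw1 : 1 / (w : ℝ) ≤ 1 / 2 := one_div_le_one_div_of_le (by norm_num) hwR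
  have hw0 : 0 < 1 / (w : ℝ) := by positivity
  set T : ℝ := (1 - 1 / (w : ℝ))⁻¹ ^ 2 with hT
  have hT1 : 1 ≤ T := by
    apply one_le_pow₀
    rw [one_le_inv₀ (by linarith)]
    linarith
  have hstep : ∀ p ∈ In w z, 1 - (omg a b p s s' : ℝ) / p ≤
      (1 - 1 / (p : ℝ)) ^ 2 * (if (p : ℤ) ∣ G then T else 1) := by
    intro p hp
    rw [mem_In] at hp
    have hp0 : (w : ℝ) < p := by exact_mod_cast hp.2.1
    have hp1 : 1 / (p : ℝ) ≤ 1 / w := one_div_le_one_div_of_le (by linarith) hp0.le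
    have hp2 : 0 < 1 / (p : ℝ) := by
      have : (0 : ℝ) < p := by linarith
      positivity
    split_ifs with hd
    · refine (h01 p hp.1).2.trans ?_
      have h1 : (1 - 1 / (w : ℝ)) ^ 2 ≤ (1 - 1 / (p : ℝ)) ^ 2 :=
        pow_le_pow_left₀ (by linarith only [hw1, hw0]) (by linarith) 2
      have h2 : (1 - 1 / (w : ℝ)) ^ 2 * T = 1 := by
        rw [hT, ← mul_pow, mul_inv_cancel₀ (by linarith), one_pow]
      nlinarith
    · have h1 := omg_ge h hp.1 s s' hd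
      have h2 : (2 : ℝ) ≤ (omg a b p s s' : ℝ) := by exact_mod_cast h1
      have h3 : (2 : ℝ) * (1 / p) ≤ (omg a b p s s' : ℝ) / p := by
        rw [div_eq_mul_one_div (omg a b p s s' : ℝ)]
        exact mul_le_mul_of_nonneg_right h2 hp2.le
      rw [mul_one]
      nlinarith only [h3, hw1, hw0, hp2]
  have h1 : W (fun p => (omg a b p s s' : ℝ) / p) (In w z) ≤
      ∏ p ∈ In w z, ((1 - 1 / (p : ℝ)) ^ 2 * (if (p : ℤ) ∣ G then T else 1)) :=
    Finset.prod_le_prod (fun p hp => (h01 p (mem_In.1 hp).1).1) hstep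
  refine h1.trans ?_
  rw [Finset.prod_mul_distrib, Finset.prod_pow, kapD_ratio hwz, Finset.prod_ite,
    Finset.prod_const, Finset.prod_const_one, mul_one]
  apply mul_le_mul_of_nonneg_left _ (by positivity)
  apply pow_le_pow_right₀ hT1
  apply Det_card_large_le hne (le_refl 2) hB
  intro p hp
  rw [Finset.mem_filter, mem_In] at hp
  exact ⟨hp.1.1, by omega, hp.2⟩

end Pool.Agent.PD
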