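import Pool.Agent.Lib.MP_0da313_nt.PD.PackS
import Pool.Agent.Lib.MP_0da313_nt.PD.Mean

set_option autoImplicit false

/-!
The sum of the sifted densities over the pairs of admissible values `s`.
-/

open Finset Polynomial Filter

namespace Pool.Agent.PD

open Pool.Agent.MP89da58 Pool.Agent.Lib.MP_0da313_nt Pool.Agent.MT

variable {a b c : ℤ[X]} {δ : ℕ}

lemma ev_S (K : ℕ) (E : ℕ) : ∀ᶠ S : ℕ in atTop,
    K ≤ Nat.log 2 S / 8 ∧ (Nat.log 2 S) ^ E < S ∧ 1000000 * (Real.log S) ^ 4 ≤ S ∧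
      1 ≤ Real.log S ∧ 16 ≤ S := by
  filter_upwards [eventually_ge_atTop (2 ^ (8 * K)), eventually_ge_atTop 16,
    ev_nat_real (ev_log_pow (2 ^ E) E), ev_nat_real (ev_log_pow' 1000000 4),
    ev_nat_real (Real.tendsto_log_atTop.eventually_ge_atTop 1)] with S h1 h2 h3 h4 h5
  have hS0 : S ≠ 0 := by omega
  have hSR : (0 : ℝ) < S := by exact_mod_cast Nat.pos_of_ne_zero hS0
  refine ⟨?_, ?_, h4, h5, h2⟩
  · rw [Nat.le_div_iff_mul_le (by norm_num), mul_comm]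
    exact Nat.le_log_of_pow_le (by norm_num) h1
  · have g1 : (Nat.log 2 S : ℝ) ≤ 2 * Real.log S := by
      have g2 : (2 : ℝ) ^ (Nat.log 2 S) ≤ S := by exact_mod_cast Nat.pow_log_le_self 2 hS0
      have g3 := Real.log_le_log (by positivity) g2
      rw [Real.log_pow] at g3
      have g4 := Real.log_two_gt_d9
      have g5 : (0 : ℝ) ≤ (Nat.log 2 S : ℝ) := Nat.cast_nonneg _
      nlinarith only [h5, g3, g4]
    have g2 : ((Nat.log 2 S : ℝ)) ^ E ≤ (2 * Real.log S) ^ E :=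
      pow_le_pow_left₀ (Nat.cast_nonneg _) g1 E
    rw [mul_pow] at g2
    have g3 : (S : ℝ) ^ (1 / 2 : ℝ) < S := by
      nth_rw 2 [← Real.rpow_one (S : ℝ)]
      apply Real.rpow_lt_rpow_of_exponent_lt
      · exact_mod_cast (by omega : 1 < S)
      · norm_num
    have g4 : ((Nat.log 2 S : ℝ)) ^ E < S := lt_of_le_of_lt (g2.trans h3) g3
    exact_mod_cast g4

lemma omg_W_nonneg (h : Dat a b c δ) (s s' z : ℕ) :
    0 ≤ W (fun p => (omg a b p s s' : ℝ) / p) (Pr z) := by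
  apply W_nonneg
  intro p hp
  have hp0 : (2 : ℝ) ≤ p := by exact_mod_cast (mem_Pr.1 hp).1.two_le
  have h1 : (omg a b p s s' : ℝ) ≤ 2 := by exact_mod_cast omg_le h (mem_Pr.1 hp).1 s s'
  rw [div_le_one (by linarith)]
  linarith

theorem pair_sum (h : Dat a b c δ) : ∃ C1 : ℝ, 0 ≤ C1 ∧ ∀ᶠ S : ℕ in atTop, ∀ z : ℕ, S ≤ z →
    ∑ s ∈ SSet c δ S, ∑ s' ∈ (SSet c δ S).erase s,
      W (fun p => (omg a b p s s' : ℝ) / p) (Pr z) ≤
      C1 * (kapD z ^ 2 * ((S : ℝ) ^ 2 / (Real.log S) ^ (2 * δ))) := by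
  obtain ⟨C', w0, D0, hC', hD0, hmean⟩ := pair_mean h
  obtain ⟨B0, hG⟩ := G_bound a b
  obtain ⟨s0, hs0⟩ := h.det
  obtain ⟨s1, hs1⟩ := exists_large_ne h.ha
  refine ⟨16 ^ B0 * C' * ((128 * D0) ^ 2 + 1), by positivity, ?_⟩
  filter_upwards [hmean, hG, SSet_rough h, ev_S (max w0 2) (128 * D0), eventually_ge_atTop (s0 + s1)]
    with S hm hGS hrough hev hSs z hSz
  obtain ⟨z0, hz1, hz2, hz3, hmain⟩ := hm
  obtain ⟨hw, hE, hlog4, hlog1, hS16⟩ := hev
  set w := Nat.log 2 S / 8 with hwdef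
  have hw0 : w0 ≤ w := (le_max_left _ _).trans hw
  have hw2 : 2 ≤ w := (le_max_right _ _).trans hw
  have hwS : w ≤ S := by
    have : Nat.log 2 S ≤ S := Nat.log_le_self 2 S
    omega
  have hwz0 : w ≤ z0 := by
    by_contra hcon
    push Not at hcon
    have h1 : z0 ^ (128 * D0) ≤ (Nat.log 2 S) ^ (128 * D0) :=
      Nat.pow_le_pow_left (by omega) _
    omega
  have hz0S : z0 ≤ S := by nlinarith only [hz2, hz1]
  have hwz : w ≤ z := hwS.trans hSz
  have hmS : ∀ s ∈ SSet c δ S, S < s ∧ s ≤ 2 * S := by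
    intro s hs
    unfold SSet at hs
    rw [Finset.mem_filter, Finset.mem_Ioc] at hs
    exact hs.1
  have hmain1 := hmain w hw0 hwz0 (SSet c δ S) (fun s hs =>
    ⟨by have := hmS s hs; omega, (hmS s hs).2, hrough z0 hz2 s hs⟩)
  have hkz := kapD_pos z
  have hkw := kapD_pos w
  have hkz0 := kapD_pos z0
  set X : ℝ := (kapD z / kapD w) ^ 2 * 16 ^ B0 with hX
  have hX0 : 0 ≤ X := by positivity
  -- each pair
  have hpair : ∀ s ∈ SSet c δ S, ∀ s' ∈ (SSet c δ S).erase s,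
      W (fun p => (omg a b p s s' : ℝ) / p) (Pr z) ≤
      X * W (fun p => (omg a b p s s' : ℝ) / p) (Pr w) := by
    intro s hs s' hs'
    rw [Finset.mem_erase] at hs'
    have g1 := hmS s hs
    have g2 := hmS s' hs'.2
    have hne : a.eval (s : ℤ) * a.eval (s' : ℤ) *
      (a.eval (s : ℤ) * b.eval (s' : ℤ) - a.eval (s' : ℤ) * b.eval (s : ℤ)) ≠ 0 :=
      mul_ne_zero (mul_ne_zero (hs1 s (by omega)) (hs1 s' (by omega)))
        (hs0 s s' (by omega) (by omega) (fun e => hs'.1 e.symm))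
    have h1 := pair_W_le h hw2 hwz hne (hGS s s' (by omega) g1.2 (by omega) g2.2)
    refine h1.trans ?_
    rw [mul_comm]
    apply mul_le_mul_of_nonneg_right _ (omg_W_nonneg h s s' w)
    rw [hX]
    exact mul_le_mul_of_nonneg_left (pow_w_le hw2 B0) (by positivity)
  have hsum : ∑ s ∈ SSet c δ S, ∑ s' ∈ (SSet c δ S).erase s,
      W (fun p => (omg a b p s s' : ℝ) / p) (Pr z) ≤
      X * ∑ s ∈ SSet c δ S, ∑ s' ∈ SSet c δ S, W (fun p => (omg a b p s s' : ℝ) / p) (Pr w) := by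
    rw [Finset.mul_sum]
    apply Finset.sum_le_sum
    intro s hs
    rw [Finset.mul_sum]
    refine (Finset.sum_le_sum (hpair s hs)).trans ?_
    apply Finset.sum_le_sum_of_subset_of_nonneg (Finset.erase_subset _ _)
    intro s' _ _
    exact mul_nonneg hX0 (omg_W_nonneg h s s' w)
  refine hsum.trans ((mul_le_mul_of_nonneg_left hmain1 hX0).trans ?_)
  -- the final estimates
  have hδ := h.δ_le
  have hSR : (16 : ℝ) ≤ S := by exact_mod_cast hS16
  set l := Real.log S with hl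
  have hl0 : 0 < l := by linarith only [hlog1]
  have hkz0l : kapD z0 ≤ 128 * D0 / l := by
    have h1 := kapD_mul_log_le z0 (by omega)
    have h2 : l ≤ 128 * D0 * Real.log z0 := by
      have h3 : (S : ℝ) ≤ (z0 : ℝ) ^ (128 * D0) := by
        have : S ≤ z0 ^ (128 * D0) := by omega
        exact_mod_cast this
      have h4 := Real.log_le_log (by linarith only [hSR]) h3
      rw [Real.log_pow] at h4
      push_cast at h4
      exact h4
    rw [le_div_iff₀ hl0]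
    calc kapD z0 * l ≤ kapD z0 * (128 * D0 * Real.log z0) := by gcongr
      _ = 128 * D0 * (kapD z0 * Real.log z0) := by ring
      _ ≤ 128 * D0 * 1 := by gcongr
      _ = 128 * D0 := mul_one _
  have hterm1 : kapD z0 ^ (2 * δ) ≤ (128 * D0) ^ 2 / l ^ (2 * δ) := by
    have hD0R : (1 : ℝ) ≤ D0 := by exact_mod_cast hD0
    calc kapD z0 ^ (2 * δ) ≤ (128 * D0 / l) ^ (2 * δ) := pow_le_pow_left₀ hkz0.le hkz0l _
      _ = (128 * (D0 : ℝ)) ^ (2 * δ) / l ^ (2 * δ) := by rw [div_pow]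
      _ ≤ (128 * (D0 : ℝ)) ^ 2 / l ^ (2 * δ) := by
        gcongr
        · linarith only [hD0R]
        · omega
  have hterm2 : (S : ℝ) ≤ kapD w ^ 2 * ((S : ℝ) ^ 2 / l ^ (2 * δ)) := by
    have h1 := mertens w hw2
    have h2 : Real.log w ≤ l := by
      apply Real.log_le_log
      · exact_mod_cast (by omega : 0 < w)
      · exact_mod_cast hwS
    have h3 : 1 ≤ 1000 * kapD w * l := by
      refine h1.trans ?_
      gcongr
    have h4 : l ^ (2 * δ) ≤ l ^ 2 := pow_le_pow_right₀ hlog1 (by omega)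
    have h5 : (S : ℝ) ^ 2 / l ^ 2 ≤ (S : ℝ) ^ 2 / l ^ (2 * δ) := by gcongr
    have h6 : (S : ℝ) ≤ kapD w ^ 2 * ((S : ℝ) ^ 2 / l ^ 2) := by
      have h7 : 1 ≤ (1000 * kapD w * l) ^ 2 := one_le_pow₀ h3
      rw [← mul_div_assoc, le_div_iff₀ (by positivity)]
      have h8 : (0 : ℝ) ≤ kapD w ^ 2 * S := by positivity
      calc (S : ℝ) * l ^ 2 = 1 * (S * l ^ 2) := by ring
        _ ≤ (1000 * kapD w * l) ^ 2 * (S * l ^ 2) := by gcongr
        _ = kapD w ^ 2 * S * (1000000 * l ^ 4) := by ring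
        _ ≤ kapD w ^ 2 * S * S := by gcongr
        _ = kapD w ^ 2 * (S : ℝ) ^ 2 := by ring
    refine h6.trans ?_
    gcongr
  have hfin : (S : ℝ) ^ 2 * kapD z0 ^ (2 * δ) * kapD w ^ 2 + S ≤
      kapD w ^ 2 * (((128 * D0) ^ 2 + 1) * ((S : ℝ) ^ 2 / l ^ (2 * δ))) := by
    have h1 : (S : ℝ) ^ 2 * kapD z0 ^ (2 * δ) * kapD w ^ 2 ≤
        (S : ℝ) ^ 2 * ((128 * D0) ^ 2 / l ^ (2 * δ)) * kapD w ^ 2 := by (clear * - hterm1 hS16 hkw; gcongr)
    have h2 : (S : ℝ) ^ 2 * ((128 * (D0 : ℝ)) ^ 2 / l ^ (2 * δ)) * kapD w ^ 2 =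
        kapD w ^ 2 * ((128 * D0) ^ 2 * ((S : ℝ) ^ 2 / l ^ (2 * δ))) := by ring
    rw [h2] at h1
    calc _ ≤ kapD w ^ 2 * ((128 * D0) ^ 2 * ((S : ℝ) ^ 2 / l ^ (2 * δ))) +
          kapD w ^ 2 * ((S : ℝ) ^ 2 / l ^ (2 * δ)) := add_le_add h1 hterm2
      _ = _ := by ring
  calc X * (C' * ((S : ℝ) ^ 2 * kapD z0 ^ (2 * δ) * kapD w ^ 2 + S))
      ≤ X * (C' * (kapD w ^ 2 * (((128 * D0) ^ 2 + 1) * ((S : ℝ) ^ 2 / l ^ (2 * δ))))) := by
        (clear * - hfin hC' hkz hkw; gcongr)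
    _ = _ := by
        rw [hX]
        field_simp

end Pool.Agent.PD
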