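import Pool.Agent.Lib.MP_0da313_nt.Sieve

set_option autoImplicit false

/-!
The Brun-Hooley upper bound sieve.
-/

open Finset

namespace Pool.Agent.PD

open Pool.Agent.Lib.MP_0da313_nt

/-- upper bound for `YY` in terms of the sifted density. -/
lemma YY_le {B0 : Finset ℕ} {B : ℕ → Finset ℕ} {b : ℕ → ℕ} (hb : ∀ i, Even (b i)) (n : ℕ)
    (hd : ∀ i < n, Disjoint (PP B0 B i) (B i))
    (ρ : ℕ → ℝ) (h0 : ∀ p ∈ PP B0 B n, 0 ≤ ρ p) (h1 : ∀ p ∈ PP B0 B n, ρ p ≤ 1)
    (hW : ∀ i < n, 0 < W ρ (B i)) :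
    YY B0 B b ρ n ≤ W ρ (PP B0 B n) *
      ∏ i ∈ range n, (1 + E ρ (B i) (b i + 1) / W ρ (B i)) := by
  induction n with
  | zero => simp [YY, PP]
  | succ n ih =>
    have h0' : ∀ p ∈ PP B0 B n, 0 ≤ ρ p := fun p hp => h0 p (mem_PP_succ.mpr (Or.inl hp))
    have h1' : ∀ p ∈ PP B0 B n, ρ p ≤ 1 := fun p hp => h1 p (mem_PP_succ.mpr (Or.inl hp))
    have ih := ih (fun i hi => hd i (by omega)) h0' h1' (fun i hi => hW i (by omega))
    have g0 : ∀ p ∈ B n, 0 ≤ ρ p := fun p hp => h0 p (mem_PP_succ.mpr (Or.inr hp))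
    have g1 : ∀ p ∈ B n, ρ p ≤ 1 := fun p hp => h1 p (mem_PP_succ.mpr (Or.inr hp))
    have wpos := hW n (by omega)
    have u1 := W_le_U ρ (B n) g0 g1 (hb n)
    have u2 := U_le_W_add_E ρ (B n) g0 g1 (hb n)
    have hU : U ρ (B n) (b n) ≤ W ρ (B n) * (1 + E ρ (B n) (b n + 1) / W ρ (B n)) := by
      rw [mul_add, mul_one, mul_div_cancel₀ _ wpos.ne']
      exact u2
    have y0 : 0 ≤ YY B0 B b ρ n :=
      (W_nonneg h1').trans (pointwise hb n (fun i hi => hd i (by omega)) ρ h0' h1').1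
    have hWu : W ρ (PP B0 B (n + 1)) = W ρ (PP B0 B n) * W ρ (B n) := W_union (hd n (by omega))
    rw [Finset.prod_range_succ, hWu]
    show YY B0 B b ρ n * U ρ (B n) (b n) ≤ _
    calc YY B0 B b ρ n * U ρ (B n) (b n)
        ≤ (W ρ (PP B0 B n) * ∏ i ∈ range n, (1 + E ρ (B i) (b i + 1) / W ρ (B i))) *
          (W ρ (B n) * (1 + E ρ (B n) (b n + 1) / W ρ (B n))) :=
          mul_le_mul ih hU (wpos.le.trans u1) (y0.trans ih)
      _ = _ := by ring

/-- The upper bound sieve with all parameters chosen. -/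
theorem sieve_upper (D n : ℕ) (hD : 1 ≤ D) (Q : ℕ → ℕ → Prop) [∀ p, DecidablePred (Q p)]
    (hQ : ∀ p x, Q p (x % p) ↔ Q p x)
    (hωD : ∀ p, p.Prime → ((range p).filter (Q p)).card ≤ D) (X : ℕ)
    [DecidablePred fun x => ∀ p : ℕ, p.Prime → p ≤ 2 ^ (2 ^ (D + n)) → ¬ Q p x] :
    (((Ico 1 (1 + X)).filter (fun x => ∀ p : ℕ, p.Prime → p ≤ 2 ^ (2 ^ (D + n)) →
          ¬ Q p x)).card : ℝ) ≤
      2 * (X * W (fun p => (((range p).filter (Q p)).card : ℝ) / p)
        (PP (small D) (fun i => blk (D + i)) n)) +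
      (1 + D : ℝ) ^ (small D).card * 2 ^ (2 ^ (D + n) * (24 * D + 6)) := by
  set ω : ℕ → ℝ := fun p => (((range p).filter (Q p)).card : ℝ) with hω
  set ρ : ℕ → ℝ := fun p => ω p / p with hρ
  set B : ℕ → Finset ℕ := fun i => blk (D + i) with hB
  set b : ℕ → ℕ := fun i => 8 * D + 2 * (n - 1 - i) with hbdef
  have hDr : (1 : ℝ) ≤ D := by exact_mod_cast hD
  have hb : ∀ i, Even (b i) := fun i => ⟨4 * D + (n - 1 - i), by simp only [hbdef]; ring⟩
  have hω0 : ∀ p, 0 ≤ ω p := fun p => by positivity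
  have hωD' : ∀ p, p.Prime → ω p ≤ D := fun p hp => by
    show (((range p).filter (Q p)).card : ℝ) ≤ D
    exact_mod_cast hωD p hp
  have hωp' : ∀ p, p.Prime → ω p ≤ p := fun p hp => by
    show (((range p).filter (Q p)).card : ℝ) ≤ p
    have h1 := Finset.card_le_card (Finset.filter_subset (Q p) (range p))
    rw [Finset.card_range] at h1
    exact_mod_cast h1
  have hρ0 : ∀ p, 0 ≤ ρ p := fun p => div_nonneg (hω0 p) (by positivity)
  have hρ1 : ∀ p, p.Prime → ρ p ≤ 1 := fun p hp => by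
    have : (0 : ℝ) < p := by exact_mod_cast hp.pos
    show ω p / p ≤ 1
    rw [div_le_one this]
    linarith [hωp' p hp]
  -- sums over blocks
  have hSrho : ∀ i, ∑ p ∈ B i, ρ p ≤ 2 * D := by
    intro i
    have h1 : ∑ p ∈ B i, ρ p ≤ ∑ p ∈ B i, (D : ℝ) * (1 / p) := by
      apply Finset.sum_le_sum
      intro p hp
      have hpp := (mem_blk.mp hp).2
      show ω p / p ≤ _
      rw [mul_one_div]
      exact div_le_div_of_nonneg_right (hωD' p hpp) (by positivity)
    refine h1.trans ?_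
    rw [← Finset.mul_sum]
    have := sum_blk_le (D + i)
    nlinarith only [this]
  have hbig : ∀ i, ∀ p ∈ B i, ρ p ≤ 1 / 2 := by
    intro i p hp
    have hp' := mem_blk.mp hp
    have h1 : 2 * D ≤ p := by
      have h2 : D < 2 ^ D := Nat.lt_two_pow_self
      have h3 : 2 ^ D ≤ 2 ^ (D + i) := Nat.pow_le_pow_right (by norm_num) (by omega)
      have h4 : ∀ k : ℕ, 1 ≤ k → 2 * k ≤ 2 ^ k := by
        intro k hk
        obtain ⟨j, rfl⟩ : ∃ j, k = j + 1 := ⟨k - 1, by omega⟩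
        have : j < 2 ^ j := Nat.lt_two_pow_self
        rw [pow_succ]
        omega
      have h5 := h4 (2 ^ (D + i)) Nat.one_le_two_pow
      omega
    have h2 : (0 : ℝ) < p := by exact_mod_cast hp'.2.pos
    show ω p / p ≤ 1 / 2
    rw [div_le_div_iff₀ h2 (by norm_num)]
    have h3 : (2 * D : ℝ) ≤ p := by exact_mod_cast h1
    have := hωD' p hp'.2
    linarith
  have hWB : ∀ i, ((1 : ℝ) / 2) ^ (4 * D) ≤ W ρ (B i) := by
    intro i
    have := W_lower (B := B i) (fun p _ => hρ0 p) (hbig i) (hSrho i)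
    rw [show (2 : ℝ) * (2 * D) = ((4 * D : ℕ) : ℝ) by push_cast; ring, Real.rpow_natCast] at this
    exact this
  have hWBpos : ∀ i, 0 < W ρ (B i) := fun i => lt_of_lt_of_le (by positivity) (hWB i)
  -- error ratio
  have hratio : ∀ i ∈ range n, E ρ (B i) (b i + 1) / W ρ (B i) ≤ (1 / 4) * (1 / 16) ^ (n - 1 - i) := by
    intro i _
    have h1 := E_le ρ (B i) (fun p _ => hρ0 p) (b i + 1)
    have h2 : (∑ p ∈ B i, ρ p) ^ (b i + 1) ≤ (2 * D : ℝ) ^ (b i + 1) :=
      pow_le_pow_left₀ (Finset.sum_nonneg fun p _ => hρ0 p) (hSrho i) _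
    have h3 : (0 : ℝ) < ((b i + 1).factorial : ℝ) := by exact_mod_cast Nat.factorial_pos _
    have h4 : E ρ (B i) (b i + 1) ≤ (2 * D : ℝ) ^ (b i + 1) / (b i + 1).factorial := by
      rw [le_div_iff₀ h3]
      linarith
    have h5 := h4.trans (pow_div_factorial_le D (b i + 1))
    rw [div_le_iff₀ (hWBpos i)]
    refine h5.trans ?_
    have h6 : (2 : ℝ) ^ (12 * D) / 4 ^ (b i + 1)
        = (1 / 4) * (1 / 16) ^ (n - 1 - i) * (1 / 2) ^ (4 * D) := by
      have h7 : (4 : ℝ) ^ (b i + 1) = 4 * 16 ^ (n - 1 - i) * (2 ^ (4 * D) * 2 ^ (12 * D)) := by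
        simp only [hbdef]
        rw [← pow_add, show 8 * D + 2 * (n - 1 - i) + 1 = 1 + 2 * (n - 1 - i) + 8 * D by ring,
          pow_add, pow_add, pow_mul, show 4 * D + 12 * D = 2 * (8 * D) by ring, pow_mul 2 2]
        norm_num
      rw [h7, one_div_pow, one_div_pow]
      have : (2 : ℝ) ^ (12 * D) ≠ 0 := by positivity
      field_simp
    rw [h6]
    exact mul_le_mul_of_nonneg_left (hWB i) (by positivity)
  have hgeom : ∑ i ∈ range n, (1 / 4 : ℝ) * (1 / 16) ^ (n - 1 - i) ≤ 1 / 2 := by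
    rw [Finset.sum_range_reflect (fun j => (1 / 4 : ℝ) * (1 / 16) ^ j) n, ← Finset.mul_sum]
    have h1 : ∑ i ∈ range n, ((1 : ℝ) / 16) ^ i ≤ 2 := by
      have := geom_sum_eq (x := (1 : ℝ) / 16) (by norm_num) n
      rw [this, div_le_iff_of_neg (by norm_num)]
      have : (0 : ℝ) ≤ (1 / 16) ^ n := by positivity
      linarith only [this]
    linarith
  have hSum : ∑ i ∈ range n, E ρ (B i) (b i + 1) / W ρ (B i) ≤ 1 / 2 :=
    (Finset.sum_le_sum hratio).trans hgeom
  have hprod2 : ∏ i ∈ range n, (1 + E ρ (B i) (b i + 1) / W ρ (B i)) ≤ 2 := by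
    have h1 : ∏ i ∈ range n, (1 + E ρ (B i) (b i + 1) / W ρ (B i)) ≤
        ∏ i ∈ range n, Real.exp (E ρ (B i) (b i + 1) / W ρ (B i)) := by
      apply Finset.prod_le_prod
      · intro i _
        have := E_nonneg (B := B i) (fun p _ => hρ0 p) (b i + 1)
        have := div_nonneg this (hWBpos i).le
        linarith
      · intro i _
        have := Real.add_one_le_exp (E ρ (B i) (b i + 1) / W ρ (B i))
        linarith
    rw [← Real.exp_sum] at h1
    refine h1.trans ((Real.exp_le_exp.2 hSum).trans ?_)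
    have h2 : Real.exp (1 / 2) ^ 2 = Real.exp 1 := by
      rw [← Real.exp_nat_mul]; norm_num
    have h3 := Real.exp_one_lt_d9
    have h4 := Real.exp_pos (1 / 2)
    nlinarith only [h2, h3, h4]
  have hρPP0 : ∀ p ∈ PP (small D) B n, 0 ≤ ρ p := fun p _ => hρ0 p
  have hρPP1 : ∀ p ∈ PP (small D) B n, ρ p ≤ 1 :=
    fun p hp => hρ1 p ((mem_PP_iff D n p).mp hp).1
  have hYY := YY_le (b := b) hb n (fun i _ => disj D i) ρ hρPP0 hρPP1 (fun i _ => hWBpos i)
  have hWPP : 0 ≤ W ρ (PP (small D) B n) := W_nonneg hρPP1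
  have hYY2 : YY (small D) B b ρ n ≤ 2 * W ρ (PP (small D) B n) := by
    refine hYY.trans ?_
    rw [mul_comm 2]
    exact mul_le_mul_of_nonneg_left hprod2 hWPP
  -- the sum estimate
  have hrep := (rep_YY (b := b) n (fun i _ => disj D i) (w := ω) (fun p _ => hω0 p)).sum_estimate
    (Ico 1 (1 + X)) (fun x p => if Q p x then (1 : ℝ) else 0) (X : ℝ) ρ
    (fun T hT => count_estimate Q hQ T (fun p hp => ((mem_PP_iff D n p).mp (hT hp)).1) X)
  have hpt : (((Ico 1 (1 + X)).filter (fun x => ∀ p : ℕ, p.Prime → p ≤ 2 ^ (2 ^ (D + n)) →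
          ¬ Q p x)).card : ℝ) ≤
      ∑ x ∈ Ico 1 (1 + X), YY (small D) B b (fun p => if Q p x then (1 : ℝ) else 0) n := by
    rw [Finset.card_filter]
    push_cast
    apply Finset.sum_le_sum
    intro x _
    have h01 : ∀ p, (0 : ℝ) ≤ (if Q p x then (1 : ℝ) else 0) ∧
        (if Q p x then (1 : ℝ) else 0) ≤ 1 := by
      intro p
      split_ifs <;> norm_num
    have h1 := (pointwise (B0 := small D) (B := B) hb n (fun i _ => disj D i)
      (fun p => if Q p x then (1 : ℝ) else 0) (fun p _ => (h01 p).1) (fun p _ => (h01 p).2)).1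
    refine le_trans ?_ h1
    split_ifs with h
    · unfold W
      apply le_of_eq
      symm
      apply Finset.prod_eq_one
      intro p hp
      have hp' := (mem_PP_iff D n p).mp hp
      show 1 - (if Q p x then (1 : ℝ) else 0) = 1
      rw [if_neg (h p hp'.1 hp'.2), sub_zero]
    · exact W_nonneg fun p _ => (h01 p).2
  -- error terms
  have hV : ∀ i, (1 + ∑ p ∈ B i, ω p) ≤ 2 ^ (3 * 2 ^ (D + i)) := by
    intro i
    have h1 : ∑ p ∈ B i, ω p ≤ ∑ _p ∈ B i, (D : ℝ) := by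
      apply Finset.sum_le_sum
      intro p hp
      exact hωD' p (mem_blk.mp hp).2
    rw [Finset.sum_const, nsmul_eq_mul] at h1
    have h2 := card_blk_le (D + i)
    have h3 : (((B i).card + 1 : ℕ) : ℝ) ≤ ((2 ^ (2 ^ (D + i + 1)) : ℕ) : ℝ) := by exact_mod_cast h2
    push_cast at h3
    have h4 : (D : ℝ) ≤ 2 ^ (2 ^ (D + i)) := by
      have h2 : D < 2 ^ D := Nat.lt_two_pow_self
      have h3 : 2 ^ D ≤ 2 ^ (D + i) := Nat.pow_le_pow_right (by norm_num) (by omega)
      have h4 : 2 ^ (D + i) < 2 ^ (2 ^ (D + i)) := Nat.lt_two_pow_self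
      have h5 : D ≤ 2 ^ (2 ^ (D + i)) := by omega
      exact_mod_cast h5
    calc (1 + ∑ p ∈ B i, ω p) ≤ (D : ℝ) * ((B i).card + 1) := by nlinarith only [hDr, h1]
      _ ≤ 2 ^ (2 ^ (D + i)) * 2 ^ (2 ^ (D + i + 1)) :=
          mul_le_mul h4 h3 (by (clear * -; positivity)) (by positivity)
      _ = 2 ^ (3 * 2 ^ (D + i)) := by
          rw [← pow_add]
          congr 1
          rw [pow_succ]
          ring
  have hV0 : ∀ i, 0 ≤ (1 + ∑ p ∈ B i, ω p) := fun i =>
    add_nonneg zero_le_one (Finset.sum_nonneg fun p _ => hω0 p)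
  have herr1 : ∏ p ∈ small D, (1 + ω p) ≤ (1 + D : ℝ) ^ (small D).card := by
    rw [← Finset.prod_const]
    apply Finset.prod_le_prod
    · intro p _; linarith only [hω0, hω0 p]
    · intro p hp
      have hpp : p.Prime := (Finset.mem_filter.mp hp).2
      linarith [hωD' p hpp]
  have herr2 : ∏ i ∈ range n, (1 + ∑ p ∈ B i, ω p) ^ (b i) ≤ 2 ^ (2 ^ (D + n) * (24 * D + 6)) := by
    calc ∏ i ∈ range n, (1 + ∑ p ∈ B i, ω p) ^ (b i)
        ≤ ∏ i ∈ range n, ((2 : ℝ) ^ (3 * 2 ^ (D + i))) ^ (b i) := by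
          apply Finset.prod_le_prod
          · intro i _; exact pow_nonneg (hV0 i) _
          · intro i _; exact pow_le_pow_left₀ (hV0 i) (hV i) _
      _ = 2 ^ (∑ i ∈ range n, 3 * 2 ^ (D + i) * b i) := by
          rw [← Finset.prod_pow_eq_pow_sum]
          apply Finset.prod_congr rfl
          intro i _
          rw [← pow_mul]
      _ ≤ 2 ^ (2 ^ (D + n) * (24 * D + 6)) := by
          apply pow_le_pow_right₀ (by norm_num)
          have h1 := sum_weights D n
          have h2 : ∑ i ∈ range n, 3 * 2 ^ (D + i) * b i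
              = 3 * 2 ^ D * ∑ i ∈ range n, 2 ^ i * (8 * D + 2 * (n - 1 - i)) := by
            rw [Finset.mul_sum]
            apply Finset.sum_congr rfl
            intro i _
            simp only [hbdef]
            rw [pow_add]
            ring
          rw [h2, pow_add]
          calc 3 * 2 ^ D * ∑ i ∈ range n, 2 ^ i * (8 * D + 2 * (n - 1 - i))
              ≤ 3 * 2 ^ D * (2 ^ n * (8 * D + 2)) := Nat.mul_le_mul_left _ h1
            _ = 2 ^ D * 2 ^ n * (24 * D + 6) := by ring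
  have herr : (∏ p ∈ small D, (1 + ω p)) * (∏ i ∈ range n, (1 + ∑ p ∈ B i, ω p) ^ (b i))
      ≤ (1 + D : ℝ) ^ (small D).card * 2 ^ (2 ^ (D + n) * (24 * D + 6)) :=
    mul_le_mul herr1 herr2 (Finset.prod_nonneg fun i _ => pow_nonneg (hV0 i) _) (by positivity)
  have h7 := (abs_le.mp hrep).2
  have h8 : (X : ℝ) * YY (small D) B b ρ n ≤ X * (2 * W ρ (PP (small D) B n)) :=
    mul_le_mul_of_nonneg_left hYY2 (by positivity)
  calc _ ≤ _ := hpt
    _ ≤ X * YY (small D) B b ρ n + _ := by linarith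
    _ ≤ X * (2 * W ρ (PP (small D) B n)) + _ := add_le_add h8 herr
    _ = _ := by ring

end Pool.Agent.PD
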